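import Pool.Agent.Helper18.PV.Sep

/-! Project PW (MP_9ee088_an): closeness of frozen random orbits for all smoothness exponents `s < 1`. Definitions and plan.

Abstract system of `Helper18/PV/Abs.lean` (`x_{n+1} = 2 x_n - x_{n-1} + F_ω(x_n)`, kicks of size `amp l ~ N^{-(1+s)}` in cells of size `1/N`, `N = NN l`), now with TWO independent coordinates per cell: on the
cell `|t| ≤ 1/2` (`t = tc l c x` the local coordinate) the force is `amp l (u + v t)`. See README.md in this folder for the proof. -/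

set_option autoImplicit false
open MeasureTheory Real Set
open scoped ENNReal

namespace Pool.Agent.Helper18.PW

open Pool.Agent.Helper18.FD (NN NN_pos NN_ge uu cl lm cl_of_mem)
open Pool.Agent.Helper18.PV

/-- forces with two independent coordinates per cell -/
structure Sz (ι : Type) extends Sy ι where
  i1 : ℕ → ℕ → ι
  tc : ℕ → ℕ → Ci → ℝ

variable {ι : Type} [DecidableEq ι]

/-- new values of the two coordinates of a cell -/
def Sz.up (K : Sz ι) (l c : ℕ) (u v : ℝ) (ω : ι → ℝ) : ι → ℝ :=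
  Function.update (Function.update ω (K.idx l c) u) (K.i1 l c) v

/-- the value of the kick of a cell at the local coordinate `t` -/
noncomputable def Sz.va (K : Sz ι) (l c : ℕ) (ω : ι → ℝ) (t : ℝ) : ℝ :=
  cl (ω (K.idx l c)) + cl (ω (K.i1 l c)) * t

/-- the hypotheses -/
structure Sz.Ok (K : Sz ι) (B s : ℝ) : Prop where
  sy : K.toSy.Ok B s
  hs : 0 < s
  hs1 : s < 1
  mtc : ∀ l c, Measurable (K.tc l c)
  amp2 : ∀ l, 1 + 1 / |K.amp l| ≤ B * (NN l : ℝ) ^ (1 + s)
  i01 : ∀ l c l' c', K.idx l c ≠ K.i1 l' c'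
  i0i : ∀ l c l' c', K.idx l c = K.idx l' c' → l = l' ∧ c = c'
  i1i : ∀ l c l' c', K.i1 l c = K.i1 l' c' → l = l' ∧ c = c'
  inn : ∀ l x, |K.tc l (K.cel l x) x| ≤ 1 / 2
  off2 : ∀ l c ω u v x y, c < NN l → |K.tc l c x| ≤ 1 / 2 → 2 / (NN l : ℝ) ≤ dist x y →
    K.F (K.up l c u v ω) y = K.F ω y
  on2 : ∀ l c ω u v x, c < NN l → |K.tc l c x| ≤ 1 / 2 → K.F (K.up l c u v ω) x =
    K.F (K.up l c 0 0 ω) x + ((K.amp l * (cl u + cl v * K.tc l c x) : ℝ) : Ci)
  td : ∀ l c x y, c < NN l → |K.tc l c x| ≤ 1 / 2 → |K.tc l c y| ≤ 1 / 2 →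
    (NN l : ℝ) * dist x y ≤ |K.tc l c x - K.tc l c y|
  near : ∀ l x y, dist x y ≤ 1 / (8 * (NN l : ℝ)) →
    ∃ l', (l' = l ∨ l' = l + 1) ∧ |K.tc l' (K.cel l' x) y| ≤ 1 / 2

variable {K : Sz ι} {B s : ℝ}

lemma up_self (K : Sz ι) (l c : ℕ) (ω : ι → ℝ) : K.up l c (ω (K.idx l c)) (ω (K.i1 l c)) ω = ω := by
  unfold Sz.up
  rw [Function.update_eq_self, Function.update_eq_self]

lemma up_up (hK : K.Ok B s) (l c : ℕ) (u v u' v' : ℝ) (ω : ι → ℝ) :
    K.up l c u v (K.up l c u' v' ω) = K.up l c u v ω := by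
  unfold Sz.up
  rw [Function.update_comm (hK.i01 l c l c).symm, Function.update_idem, Function.update_idem]

lemma up_idx (hK : K.Ok B s) (l c : ℕ) (u v : ℝ) (ω : ι → ℝ) : K.up l c u v ω (K.idx l c) = u := by
  unfold Sz.up
  rw [Function.update_of_ne (hK.i01 l c l c), Function.update_self]

lemma up_i1 (K : Sz ι) (l c : ℕ) (u v : ℝ) (ω : ι → ℝ) : K.up l c u v ω (K.i1 l c) = v := by
  unfold Sz.up
  rw [Function.update_self]

lemma va_up (hK : K.Ok B s) (l c : ℕ) (u v t : ℝ) (ω : ι → ℝ) :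
    K.va l c (K.up l c u v ω) t = cl u + cl v * t := by
  unfold Sz.va
  rw [up_idx hK, up_i1]

/-- other cells do not feel the change -/
lemma va_up_ne (hK : K.Ok B s) {l c l' c' : ℕ} (h : ¬ (l' = l ∧ c' = c)) (u v t : ℝ) (ω : ι → ℝ) :
    K.va l' c' (K.up l c u v ω) t = K.va l' c' ω t := by
  unfold Sz.va Sz.up
  rw [Function.update_of_ne (hK.i01 l' c' l c),
    Function.update_of_ne (fun h1 => h (hK.i0i l' c' l c h1)),
    Function.update_of_ne (fun h1 => h (hK.i1i l' c' l c h1)),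
    Function.update_of_ne (fun h1 => hK.i01 l c l' c' h1.symm)]

/-- the force at a point of the cell depends only on the value of the kick there -/
lemma F_up (hK : K.Ok B s) {l c : ℕ} (hc : c < NN l) {x : Ci} (hx : |K.tc l c x| ≤ 1 / 2) {u v : ℝ} {ω : ι → ℝ}
    (h : cl u + cl v * K.tc l c x = K.va l c ω (K.tc l c x)) : K.F (K.up l c u v ω) x = K.F ω x := by
  rw [hK.on2 l c ω u v x hc hx, h]
  conv_rhs => rw [← up_self K l c ω, hK.on2 l c ω _ _ x hc hx]
  rfl

lemma meas_up (K : Sz ι) (l c : ℕ) :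
    Measurable fun q : (ι → ℝ) × (ℝ × ℝ) => K.up l c q.2.1 q.2.2 q.1 := by
  have h1 : Measurable fun q : (ι → ℝ) × (ℝ × ℝ) => Function.update q.1 (K.idx l c) q.2.1 :=
    (measurable_upd (K.idx l c)).comp (measurable_fst.prodMk (measurable_fst.comp measurable_snd))
  exact (measurable_upd (K.i1 l c)).comp (h1.prodMk (measurable_snd.comp measurable_snd))

lemma meas_va (K : Sz ι) (l c : ℕ) : Measurable fun q : (ι → ℝ) × ℝ => K.va l c q.1 q.2 := by
  have hcl : Measurable cl := by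
    unfold cl
    exact measurable_const.max (measurable_const.min measurable_id)
  have h0 : Measurable fun q : (ι → ℝ) × ℝ => cl (q.1 (K.idx l c)) :=
    hcl.comp ((measurable_pi_apply _).comp measurable_fst)
  have h1 : Measurable fun q : (ι → ℝ) × ℝ => cl (q.1 (K.i1 l c)) :=
    hcl.comp ((measurable_pi_apply _).comp measurable_fst)
  exact h0.add (h1.mul measurable_snd)

/-- the value of the kick is not extreme: the line of equal values has length at least `2 τ` -/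
def gd (τ v t : ℝ) : Prop := |v| ≤ 1 + |t| * (1 - 2 * τ)

/-! ### types of kicks -/

/-- positions of the past orbit `α` (`false`) and of the future orbit `β` (`true`) for `q = (ω, (α, β))` -/
noncomputable def ps (K : Sz ι) (q : (ι → ℝ) × (T2 × T2)) (j : Bool × ℕ) : Ci :=
  if j.1 then wd K.toSy q.1 q.2.2 j.2 else wd K.toSy q.1 q.2.1 j.2

/-- the positions whose forces are used: past `1 ≤ i < m`, future `1 ≤ i < n + 1` -/
def us (m n : ℕ) : Finset (Bool × ℕ) :=
  (Finset.Ico 1 m).map ⟨fun i => (false, i), fun _ _ h => (Prod.ext_iff.1 h).2⟩ ∪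
    (Finset.Ico 1 (n + 1)).map ⟨fun i => (true, i), fun _ _ h => (Prod.ext_iff.1 h).2⟩

/-- the two base positions: `α.2` (`false`) and `β.2` (`true`) -/
def pv (q : (ι → ℝ) × (T2 × T2)) (b : Bool) : Ci := if b then q.2.2.2 else q.2.1.2

/-- types of a kick: plain kick in a cell of level `l`, or slope kick of level `l` with neighbour `j` at distance at least `2^(-e)` -/
inductive Ty
  | pl (l : ℕ)
  | sl (l : ℕ) (j : Bool × ℕ) (e : ℕ)
  deriving DecidableEq

/-- the condition for a kick of the given type at the base position `b` -/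
def Cd (K : Sz ι) (τ : ℝ) (m n : ℕ) (b : Bool) : Ty → Set ((ι → ℝ) × (T2 × T2))
  | Ty.pl l => {q | (∀ j ∈ us m n, 2 / (NN l : ℝ) ≤ dist (pv q b) (ps K q j)) ∧
      2 / (NN l : ℝ) ≤ dist (pv q b) (pv q (!b))}
  | Ty.sl l j₀ e => {q | j₀ ∈ us m n ∧ |K.tc l (K.cel l (pv q b)) (ps K q j₀)| ≤ 1 / 2 ∧
      (2 : ℝ)⁻¹ ^ e ≤ dist (pv q b) (ps K q j₀) ∧
      gd τ (K.va l (K.cel l (pv q b)) q.1 (K.tc l (K.cel l (pv q b)) (ps K q j₀)))
        (K.tc l (K.cel l (pv q b)) (ps K q j₀)) ∧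
      (∀ j ∈ us m n, j ≠ j₀ → 2 / (NN l : ℝ) ≤ dist (pv q b) (ps K q j)) ∧
      2 / (NN l : ℝ) ≤ dist (pv q b) (pv q (!b))}

/-- the cost of a kick -/
noncomputable def Dt (K : Sz ι) (τ : ℝ) : Ty → ℝ
  | Ty.pl l => 1 + 1 / (2 * |K.amp l|)
  | Ty.sl l _ e => (3 + 1 / |K.amp l|) / (τ * (NN l * (2 : ℝ)⁻¹ ^ e))

/-- the types used -/
def tys (m n L E : ℕ) : Finset Ty :=
  (Finset.range (L + 1)).image Ty.pl ∪
    ((Finset.range (L + 1)) ×ˢ (us m n) ×ˢ (Finset.range (E + 1))).image fun a => Ty.sl a.1 a.2.1 a.2.2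

/-- good base pairs: no position is closer than `e₁`, products on the same side are at least `e₁ e₃`, two positions on the same side are not both closer than `e₃`, no extreme values of kicks -/
def Gb (K : Sz ι) (m n L : ℕ) (τ e₁ e₃ : ℝ) : Set ((ι → ℝ) × (T2 × T2)) :=
  {q | (∀ b, ∀ j ∈ us m n, e₁ ≤ dist (pv q b) (ps K q j)) ∧
    (∀ j ∈ us m n, ∀ j' ∈ us m n, j.1 = j'.1 →
      e₁ * e₃ ≤ dist (pv q false) (ps K q j) * dist (pv q true) (ps K q j')) ∧
    (∀ b, ∀ j ∈ us m n, ∀ j' ∈ us m n, j ≠ j' → j.1 = j'.1 →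
      e₃ ≤ max (dist (pv q b) (ps K q j)) (dist (pv q b) (ps K q j'))) ∧
    e₃ ≤ dist (pv q false) (pv q true) ∧
    ∀ j ∈ us m n, ∀ l ≤ L, ∀ c < NN l, |K.tc l c (ps K q j)| ≤ 1 / 2 →
      gd τ (K.va l c q.1 (K.tc l c (ps K q j))) (K.tc l c (ps K q j))}

end Pool.Agent.Helper18.PW
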