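import Pool.Agent.Helper18.PW.Base

/-! Project PW: test sets and the probability of bad base pairs. -/

set_option autoImplicit false
open MeasureTheory Real Set
open scoped ENNReal

namespace Pool.Agent.Helper18.PW

open Pool.Agent.Helper18.FD (NN NN_pos NN_ge uu cl lm cl_of_mem)
open Pool.Agent.Helper18.PV

variable {ι : Type} [DecidableEq ι] {K : Sz ι} {B s : ℝ}

/-! ### test sets -/

/-- double return of the ends -/
def Tr (K : Sz ι) (m n j : ℕ) (ρ σ : ℝ) : Set ((ι → ℝ) × (T2 × T2)) :=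
  {q | dist (wd K.toSy q.1 q.2.2 (n + 1)) (wd K.toSy q.1 q.2.1 m) < ρ ∧
    dist (wd K.toSy q.1 q.2.2 n) (wd K.toSy q.1 q.2.1 (m - j)) < σ}

/-- product of two distances -/
def Th (K : Sz ι) (m i i' : ℕ) (P : ℝ) : Set ((ι → ℝ) × (T2 × T2)) :=
  {q | dist (wd K.toSy q.1 q.2.1 m) (wd K.toSy q.1 q.2.2 i) *
    dist (wd K.toSy q.1 q.2.1 (m - 1)) (wd K.toSy q.1 q.2.2 i') < P}

lemma meas_wa (hK : K.Ok B s) (i : ℕ) :
    Measurable fun q : (ι → ℝ) × (T2 × T2) => wd K.toSy q.1 q.2.1 i := by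
  have ha : Measurable fun q : (ι → ℝ) × (T2 × T2) => (q.1, q.2.1) := by fun_prop
  exact (meas_wd hK.sy i).comp ha

lemma meas_wb (hK : K.Ok B s) (i : ℕ) :
    Measurable fun q : (ι → ℝ) × (T2 × T2) => wd K.toSy q.1 q.2.2 i := by
  have hb : Measurable fun q : (ι → ℝ) × (T2 × T2) => (q.1, q.2.2) := by fun_prop
  exact (meas_wd hK.sy i).comp hb

lemma meas_Tr (hK : K.Ok B s) (m n j : ℕ) (ρ σ : ℝ) : MeasurableSet (Tr K m n j ρ σ) :=
  (measurableSet_lt ((meas_wb hK _).dist (meas_wa hK _)) measurable_const).inter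
    (measurableSet_lt ((meas_wb hK _).dist (meas_wa hK _)) measurable_const)

lemma meas_Th (hK : K.Ok B s) (m i i' : ℕ) (P : ℝ) : MeasurableSet (Th K m i i' P) :=
  measurableSet_lt (((meas_wa hK _).dist (meas_wb hK _)).mul ((meas_wa hK _).dist (meas_wb hK _))) measurable_const

lemma Tr_tst (hK : K.Ok B s) (m n j : ℕ) (ρ σ : ℝ) : Tst K m n (Tr K m n j ρ σ) where
  meas := meas_Tr hK m n j ρ σ
  inv := by
    intro ω ω' α β ha hb h
    obtain ⟨h1, h2⟩ := h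
    refine ⟨?_, ?_⟩
    · show dist (wd K.toSy ω' β (n + 1)) (wd K.toSy ω' α m) < ρ
      rw [hb _ le_rfl, ha _ le_rfl]
      exact h1
    · show dist (wd K.toSy ω' β n) (wd K.toSy ω' α (m - j)) < σ
      rw [hb _ (Nat.le_succ _), ha _ (Nat.sub_le _ _)]
      exact h2

lemma Th_tst (hK : K.Ok B s) {m n i i' : ℕ} (hi : i ≤ n + 1) (hi' : i' ≤ n + 1) (P : ℝ) :
    Tst K m n (Th K m i i' P) where
  meas := meas_Th hK m i i' P
  inv := by
    intro ω ω' α β ha hb h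
    show dist (wd K.toSy ω' α m) (wd K.toSy ω' β i) * dist (wd K.toSy ω' α (m - 1)) (wd K.toSy ω' β i') < P
    rw [ha _ le_rfl, hb _ hi, ha _ (Nat.sub_le _ _), hb _ hi']
    exact h

lemma vol_Tr (hK : K.Ok B s) (m n j : ℕ) {ρ σ : ℝ} (hρ : 0 < ρ) :
    ((law ι).prod (volume : Measure (T2 × T2))) (Tr K m n j ρ σ) ≤ ENNReal.ofReal (4 * ρ * σ) := by
  rw [Measure.prod_apply (meas_Tr hK m n j ρ σ)]
  have h1 : ∀ ω : ι → ℝ, (volume : Measure (T2 × T2)) (Prod.mk ω ⁻¹' Tr K m n j ρ σ) ≤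
      ENNReal.ofReal (4 * ρ * σ) := by
    intro ω
    have hm : MeasurableSet (Prod.mk ω ⁻¹' Tr K m n j ρ σ) := measurable_prodMk_left (meas_Tr hK m n j ρ σ)
    rw [Measure.volume_eq_prod, Measure.prod_apply hm]
    have h2 : ∀ α : T2, (volume : Measure T2) (Prod.mk α ⁻¹' (Prod.mk ω ⁻¹' Tr K m n j ρ σ)) ≤
        ENNReal.ofReal (4 * ρ * σ) := by
      intro α
      have h3 : Prod.mk α ⁻¹' (Prod.mk ω ⁻¹' Tr K m n j ρ σ) ⊆
          (tw K.toSy ω)^[n] ⁻¹' (Metric.ball (wd K.toSy ω α m) ρ ×ˢ Metric.ball (wd K.toSy ω α (m - j)) σ) := by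
        intro β hβ
        obtain ⟨h4, h5⟩ := hβ
        rw [mem_preimage, iter_eq]
        exact ⟨h4, h5⟩
      refine (measure_mono h3).trans ?_
      rw [(tw_iter_mp hK.sy ω n).measure_preimage
        (measurableSet_ball.prod measurableSet_ball).nullMeasurableSet, Measure.volume_eq_prod,
        Measure.prod_prod]
      calc volume (Metric.ball (wd K.toSy ω α m) ρ) * volume (Metric.ball (wd K.toSy ω α (m - j)) σ)
          ≤ ENNReal.ofReal (2 * ρ) * ENNReal.ofReal (2 * σ) := mul_le_mul' (vol_ball _ _) (vol_ball _ _)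
        _ = ENNReal.ofReal (4 * ρ * σ) := by
          rw [← ENNReal.ofReal_mul (by positivity)]
          congr 1
          ring
    calc ∫⁻ α : T2, (volume : Measure T2) (Prod.mk α ⁻¹' (Prod.mk ω ⁻¹' Tr K m n j ρ σ))
        ≤ ∫⁻ _α : T2, ENNReal.ofReal (4 * ρ * σ) := lintegral_mono h2
      _ = _ := by rw [lintegral_const, measure_univ, mul_one]
  calc ∫⁻ ω, (volume : Measure (T2 × T2)) (Prod.mk ω ⁻¹' Tr K m n j ρ σ) ∂(law ι)
      ≤ ∫⁻ _ω, ENNReal.ofReal (4 * ρ * σ) ∂(law ι) := lintegral_mono h1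
    _ = _ := by rw [lintegral_const, measure_univ, mul_one]

lemma vol_Th (hK : K.Ok B s) {m : ℕ} (hm1 : 1 ≤ m) (i i' : ℕ) {P : ℝ} (hP : 0 < P) (hP1 : P ≤ 1) :
    ((law ι).prod (volume : Measure (T2 × T2))) (Th K m i i' P) ≤
      ENNReal.ofReal (32 * (P * (1 + Real.log (1 / P)))) := by
  obtain ⟨D, hD⟩ : ∃ D : ℝ≥0∞, D = ENNReal.ofReal (32 * (P * (1 + Real.log (1 / P)))) := ⟨_, rfl⟩
  rw [← hD, Measure.prod_apply (meas_Th hK m i i' P)]
  have h1 : ∀ ω : ι → ℝ, (volume : Measure (T2 × T2)) (Prod.mk ω ⁻¹' Th K m i i' P) ≤ D := by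
    intro ω
    have hm : MeasurableSet (Prod.mk ω ⁻¹' Th K m i i' P) := measurable_prodMk_left (meas_Th hK m i i' P)
    rw [Measure.volume_eq_prod, Measure.prod_apply_symm hm]
    have h2 : ∀ β : T2, (volume : Measure T2) ((fun α : T2 => (α, β)) ⁻¹' (Prod.mk ω ⁻¹' Th K m i i' P)) ≤ D := by
      intro β
      have h3 : (fun α : T2 => (α, β)) ⁻¹' (Prod.mk ω ⁻¹' Th K m i i' P) ⊆
          (tw K.toSy ω)^[m - 1] ⁻¹' {w | dist w.1 (wd K.toSy ω β i) * dist w.2 (wd K.toSy ω β i') < P} := by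
        intro α hα
        rw [mem_preimage, iter_eq, Nat.sub_add_cancel hm1]
        exact hα
      have h4 : MeasurableSet {w : T2 | dist w.1 (wd K.toSy ω β i) * dist w.2 (wd K.toSy ω β i') < P} :=
        measurableSet_lt ((measurable_fst.dist measurable_const).mul (measurable_snd.dist measurable_const))
          measurable_const
      refine (measure_mono h3).trans ?_
      rw [(tw_iter_mp hK.sy ω (m - 1)).measure_preimage h4.nullMeasurableSet, hD]
      exact hyp_area _ _ hP hP1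
    calc ∫⁻ β : T2, (volume : Measure T2) ((fun α : T2 => (α, β)) ⁻¹' (Prod.mk ω ⁻¹' Th K m i i' P))
        ≤ ∫⁻ _β : T2, D := lintegral_mono h2
      _ = _ := by rw [lintegral_const, measure_univ, mul_one]
  calc ∫⁻ ω, (volume : Measure (T2 × T2)) (Prod.mk ω ⁻¹' Th K m i i' P) ∂(law ι)
      ≤ ∫⁻ _ω, D ∂(law ι) := lintegral_mono h1
    _ = _ := by rw [lintegral_const, measure_univ, mul_one]

/-! ### bad base pairs -/

omit [DecidableEq ι] in
lemma union_one {J : Finset ℕ} {k : ℕ} (hJ : J ⊆ Finset.range k) {S : ℕ → Set ((ι → ℝ) × T2)} {c : ℝ}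
    (h : ∀ j ∈ J, mu ι (S j) ≤ ENNReal.ofReal c) :
    mu ι (⋃ j ∈ J, S j) ≤ ENNReal.ofReal (k * c) := by
  calc mu ι (⋃ j ∈ J, S j) ≤ ∑ j ∈ J, mu ι (S j) := measure_biUnion_finset_le _ _
    _ ≤ ∑ _j ∈ J, ENNReal.ofReal c := Finset.sum_le_sum h
    _ = J.card * ENNReal.ofReal c := by rw [Finset.sum_const, nsmul_eq_mul]
    _ ≤ k * ENNReal.ofReal c := by
      gcongr
      have := Finset.card_le_card hJ
      rwa [Finset.card_range] at this
    _ = ENNReal.ofReal (k * c) := by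
      rw [ENNReal.ofReal_mul (Nat.cast_nonneg k), ENNReal.ofReal_natCast]

omit [DecidableEq ι] in
lemma union_two {J : Finset (ℕ × ℕ)} {k : ℕ} (hJ : J ⊆ Finset.range k ×ˢ Finset.range k)
    {S : ℕ × ℕ → Set ((ι → ℝ) × T2)} {c : ℝ} (h : ∀ j ∈ J, mu ι (S j) ≤ ENNReal.ofReal c) :
    mu ι (⋃ j ∈ J, S j) ≤ ENNReal.ofReal (k ^ 2 * c) := by
  calc mu ι (⋃ j ∈ J, S j) ≤ ∑ j ∈ J, mu ι (S j) := measure_biUnion_finset_le _ _
    _ ≤ ∑ _j ∈ J, ENNReal.ofReal c := Finset.sum_le_sum h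
    _ = J.card * ENNReal.ofReal c := by rw [Finset.sum_const, nsmul_eq_mul]
    _ ≤ ((k ^ 2 : ℕ) : ℝ≥0∞) * ENNReal.ofReal c := by
      gcongr
      have := Finset.card_le_card hJ
      rw [Finset.card_product, Finset.card_range] at this
      rw [sq]
      exact this
    _ = ENNReal.ofReal (k ^ 2 * c) := by
      rw [ENNReal.ofReal_mul (by positivity), ← ENNReal.ofReal_natCast]
      push_cast
      rfl

omit [DecidableEq ι] in
/-- good base pairs, in terms of the positions of the segment -/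
lemma good_of {m n k L G' : ℕ} (hk : k = m + n + 2) (hG' : 1 ≤ G') (hG3 : m ≤ 2 * G') (hG4 : n + 1 ≤ 2 * G')
    {τ e₁ e₃ : ℝ} (he3 : 0 < e₃) {p : (ι → ℝ) × T2}
    (h1 : ∀ a, 1 ≤ a → a < k → a ≠ m → a ≠ m + 1 → e₁ ≤ dist (wd K.toSy p.1 p.2 m) (wd K.toSy p.1 p.2 a) ∧
      e₁ ≤ dist (wd K.toSy p.1 p.2 (m + 1)) (wd K.toSy p.1 p.2 a))
    (h2 : ∀ i i', 2 ≤ i → i ≤ n + 1 → 2 ≤ i' → i' ≤ n + 1 →
      e₁ * e₃ ≤ dist (wd K.toSy p.1 p.2 m) (wd K.toSy p.1 p.2 (m + i)) *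
        dist (wd K.toSy p.1 p.2 (m + 1)) (wd K.toSy p.1 p.2 (m + i')))
    (h2' : ∀ i i', 2 ≤ i → i ≤ m → 2 ≤ i' → i' ≤ m →
      e₁ * e₃ ≤ dist (wd K.toSy p.1 p.2 (m + 1)) (wd K.toSy p.1 p.2 (m + 1 - i)) *
        dist (wd K.toSy p.1 p.2 m) (wd K.toSy p.1 p.2 (m + 1 - i')))
    (h3 : ∀ a a', a < a' → a' < k → a' ≤ a + G' →
      2 * e₃ ≤ dist (wd K.toSy p.1 p.2 a) (wd K.toSy p.1 p.2 a'))
    (h4 : ∀ a ∈ Finset.range k, ∀ l ≤ L, ∀ c < NN l, |K.tc l c (wd K.toSy p.1 p.2 a)| ≤ 1 / 2 →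
      gd τ (K.va l c p.1 (K.tc l c (wd K.toSy p.1 p.2 a))) (K.tc l c (wd K.toSy p.1 p.2 a))) :
    qb K m p ∈ Gb K m n L τ e₁ e₃ := by
  have hix : ∀ j ∈ us m n, 1 ≤ ix m j ∧ ix m j < k ∧ ix m j ≠ m ∧ ix m j ≠ m + 1 ∧
      (j.1 = false → ix m j < m) ∧ (j.1 = true → m + 2 ≤ ix m j) := by
    intro j hj
    obtain ⟨b, i⟩ := j
    cases b with
    | false =>
      have := ix_false hj
      refine ⟨by omega, by omega, by omega, by omega, fun _ => by omega, fun h => by simp at h⟩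
    | true =>
      have := ix_true hj
      refine ⟨by omega, by omega, by omega, by omega, fun h => by simp at h, fun _ => by omega⟩
  have hinj : ∀ j ∈ us m n, ∀ j' ∈ us m n, j ≠ j' → j.1 = j'.1 → ix m j ≠ ix m j' := by
    intro j hj j' hj' hne hs hE
    obtain ⟨b, i⟩ := j
    obtain ⟨b', i'⟩ := j'
    simp only at hs
    subst hs
    cases b with
    | false =>
      have a1 := mem_us_false.1 hj
      have a2 := mem_us_false.1 hj'
      have : m - i = m - i' := hE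
      have : i = i' := by omega
      exact hne (by rw [this])
    | true =>
      have : m + 1 + i = m + 1 + i' := hE
      have : i = i' := by omega
      exact hne (by rw [this])
  -- a pair of positions of one side, both close to a base position
  have hpair : ∀ (b : Bool) (a a' : ℕ), 1 ≤ a → a < a' → a' < k → (a' < m ∨ m + 2 ≤ a) →
      e₃ ≤ max (dist (pv (qb K m p) b) (wd K.toSy p.1 p.2 a)) (dist (pv (qb K m p) b) (wd K.toSy p.1 p.2 a')) := by
    intro b a a' ha haa ha' hside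
    by_contra hc
    rw [not_le, max_lt_iff] at hc
    obtain ⟨c1, c2⟩ := hc
    obtain ⟨w, hw⟩ : ∃ w, w = if b then m + 1 else m := ⟨_, rfl⟩
    have hpv : pv (qb K m p) b = wd K.toSy p.1 p.2 w := by
      rw [hw]
      cases b
      · rfl
      · rfl
    rw [hpv] at c1 c2
    have hw2 : m ≤ w ∧ w ≤ m + 1 := by
      rw [hw]
      cases b
      · exact ⟨le_rfl, Nat.le_succ _⟩
      · exact ⟨Nat.le_succ _, le_rfl⟩
    have hd : dist (wd K.toSy p.1 p.2 a) (wd K.toSy p.1 p.2 a') < 2 * e₃ := by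
      have h5 := dist_triangle_left (wd K.toSy p.1 p.2 a) (wd K.toSy p.1 p.2 a') (wd K.toSy p.1 p.2 w)
      linarith
    rcases hside with hside | hside
    · by_cases hg : a' ≤ a + G'
      · exact absurd (h3 a a' haa ha' hg) (by linarith)
      · have h6 := h3 a' w (by omega) (by omega) (by omega)
        rw [dist_comm] at h6
        linarith
    · by_cases hg : a' ≤ a + G'
      · exact absurd (h3 a a' haa ha' hg) (by linarith)
      · have h6 := h3 w a (by omega) (by omega) (by omega)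
        linarith
  refine ⟨?_, ?_, ?_, ?_, ?_⟩
  · intro b j hj
    rw [ps_qb p hj]
    obtain ⟨i1, i2, i3, i4, _⟩ := hix j hj
    cases b with
    | false => exact (h1 _ i1 i2 i3 i4).1
    | true => exact (h1 _ i1 i2 i3 i4).2
  · intro j hj j' hj' hs
    rw [ps_qb p hj, ps_qb p hj', pv_qb_false, pv_qb_true]
    obtain ⟨b, i⟩ := j
    obtain ⟨b', i'⟩ := j'
    simp only at hs
    subst hs
    cases b with
    | false =>
      have a1 := mem_us_false.1 hj
      have a2 := mem_us_false.1 hj'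
      have h5 := h2' (i' + 1) (i + 1) (by omega) (by omega) (by omega) (by omega)
      rw [mul_comm (dist _ _)] at h5
      rw [show m + 1 - (i' + 1) = m - i' by omega, show m + 1 - (i + 1) = m - i by omega] at h5
      exact h5
    | true =>
      have a1 := mem_us_true.1 hj
      have a2 := mem_us_true.1 hj'
      have h5 := h2 (i + 1) (i' + 1) (by omega) (by omega) (by omega) (by omega)
      rw [show m + (i + 1) = m + 1 + i by omega, show m + (i' + 1) = m + 1 + i' by omega] at h5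
      exact h5
  · intro b j hj j' hj' hne hs
    rw [ps_qb p hj, ps_qb p hj']
    have hne2 := hinj j hj j' hj' hne hs
    obtain ⟨i1, i2, i3, i4, i5, i6⟩ := hix j hj
    obtain ⟨i1', i2', i3', i4', i5', i6'⟩ := hix j' hj'
    rcases Nat.lt_or_gt_of_ne hne2 with hlt | hlt
    · refine hpair b _ _ i1 hlt i2' ?_
      rcases hb : j'.1 with _ | _
      · exact Or.inl (i5' hb)
      · exact Or.inr (i6 (hs.trans hb))
    · rw [max_comm]
      refine hpair b _ _ i1' hlt i2 ?_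
      rcases hb : j.1 with _ | _
      · exact Or.inl (i5 hb)
      · exact Or.inr (i6' (hs.symm.trans hb))
  · rw [pv_qb_false, pv_qb_true]
    have h5 := h3 m (m + 1) (by omega) (by omega) (by omega)
    linarith
  · intro j hj l hl c hc ht
    rw [ps_qb p hj] at ht ⊢
    exact h4 _ (Finset.mem_range.2 (hix j hj).2.1) l hl c hc ht

/-- bad base pairs are rare -/
theorem bad_est (hK : K.Ok B s) {m n k G G' : ℕ} (L : ℕ) (hk : k = m + n + 2) (hG' : 1 ≤ G') (hG1 : m ≤ G)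
    (hG2 : n + 1 ≤ G) (hG3 : m ≤ 2 * G') (hG4 : n + 1 ≤ 2 * G')
    {τ e₁ e₃ ε : ℝ} (hτ : 0 < τ) (hτ1 : τ ≤ 1) (he3 : 0 < e₃) (hε : 0 ≤ ε)
    (h1 : ∀ g, 1 ≤ g → g ≤ G → qq K.toSy g e₁ ≤ ε) (h2 : ∀ g, 1 ≤ g → g ≤ G' → qq K.toSy g (2 * e₃) ≤ ε)
    (h3 : ∀ i i', 2 ≤ i → i ≤ G → 2 ≤ i' → i' ≤ G + 1 → bb K i i' (e₁ * e₃) ≤ ε) :
    mu ι {p | qb K m p ∉ Gb K m n L τ e₁ e₃} ≤ ENNReal.ofReal (5 * k ^ 2 * ε + 4 * k * (L + 1) * τ ^ 2) := by
  obtain ⟨U1, hU1⟩ : ∃ U1 : Set ((ι → ℝ) × T2), U1 = ⋃ a ∈ (Finset.range k).filter (fun a => 1 ≤ a ∧ a ≠ m ∧ a ≠ m + 1),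
      {p | dist (wd K.toSy p.1 p.2 m) (wd K.toSy p.1 p.2 a) < e₁} := ⟨_, rfl⟩
  obtain ⟨U2, hU2⟩ : ∃ U2 : Set ((ι → ℝ) × T2), U2 = ⋃ a ∈ (Finset.range k).filter (fun a => 1 ≤ a ∧ a ≠ m ∧ a ≠ m + 1),
      {p | dist (wd K.toSy p.1 p.2 (m + 1)) (wd K.toSy p.1 p.2 a) < e₁} := ⟨_, rfl⟩
  obtain ⟨U3, hU3⟩ : ∃ U3 : Set ((ι → ℝ) × T2), U3 = ⋃ a ∈ (Finset.range k ×ˢ Finset.range k).filter
      (fun a => 2 ≤ a.1 ∧ a.1 ≤ n + 1 ∧ 2 ≤ a.2 ∧ a.2 ≤ n + 1),
      {p | dist (wd K.toSy p.1 p.2 m) (wd K.toSy p.1 p.2 (m + a.1)) *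
        dist (wd K.toSy p.1 p.2 (m + 1)) (wd K.toSy p.1 p.2 (m + a.2)) < e₁ * e₃} := ⟨_, rfl⟩
  obtain ⟨U4, hU4⟩ : ∃ U4 : Set ((ι → ℝ) × T2), U4 = ⋃ a ∈ (Finset.range k ×ˢ Finset.range k).filter
      (fun a => 2 ≤ a.1 ∧ a.1 ≤ m ∧ 2 ≤ a.2 ∧ a.2 ≤ m),
      {p | dist (wd K.toSy p.1 p.2 (m + 1)) (wd K.toSy p.1 p.2 (m + 1 - a.1)) *
        dist (wd K.toSy p.1 p.2 m) (wd K.toSy p.1 p.2 (m + 1 - a.2)) < e₁ * e₃} := ⟨_, rfl⟩
  obtain ⟨U5, hU5⟩ : ∃ U5 : Set ((ι → ℝ) × T2), U5 = ⋃ a ∈ (Finset.range k ×ˢ Finset.range k).filter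
      (fun a => a.1 < a.2 ∧ a.2 ≤ a.1 + G'),
      {p | dist (wd K.toSy p.1 p.2 a.1) (wd K.toSy p.1 p.2 a.2) < 2 * e₃} := ⟨_, rfl⟩
  obtain ⟨U6, hU6⟩ : ∃ U6 : Set ((ι → ℝ) × T2), U6 = {p | ∃ j ∈ Finset.range k, ∃ l ≤ L, ∃ c < NN l,
      |K.tc l c (wd K.toSy p.1 p.2 j)| ≤ 1 / 2 ∧
      ¬ gd τ (K.va l c p.1 (K.tc l c (wd K.toSy p.1 p.2 j))) (K.tc l c (wd K.toSy p.1 p.2 j))} := ⟨_, rfl⟩
  have m1 : mu ι U1 ≤ ENNReal.ofReal (k * ε) := by
    rw [hU1]
    refine union_one (Finset.filter_subset _ _) fun a ha => ?_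
    obtain ⟨b1, b2, b3, b4⟩ := Finset.mem_filter.1 ha
    rw [Finset.mem_range] at b1
    exact stat3 hK.sy (by omega) (G := G) (by omega) (by omega) h1
  have m2 : mu ι U2 ≤ ENNReal.ofReal (k * ε) := by
    rw [hU2]
    refine union_one (Finset.filter_subset _ _) fun a ha => ?_
    obtain ⟨b1, b2, b3, b4⟩ := Finset.mem_filter.1 ha
    rw [Finset.mem_range] at b1
    exact stat3 hK.sy (by omega) (G := G) (by omega) (by omega) h1
  have m3 : mu ι U3 ≤ ENNReal.ofReal (k ^ 2 * ε) := by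
    rw [hU3]
    refine union_two (Finset.filter_subset _ _) fun a ha => ?_
    obtain ⟨b1, b2, b3, b4, b5⟩ := Finset.mem_filter.1 ha
    rw [bb_shift hK]
    exact ENNReal.ofReal_le_ofReal (h3 _ _ b2 (by omega) b4 (by omega))
  have m4 : mu ι U4 ≤ ENNReal.ofReal (k ^ 2 * ε) := by
    rw [hU4]
    refine union_two (Finset.filter_subset _ _) fun a ha => ?_
    obtain ⟨b1, b2, b3, b4, b5⟩ := Finset.mem_filter.1 ha
    rw [bb_rev hK (by omega) (by omega)]
    exact ENNReal.ofReal_le_ofReal (h3 _ _ b2 (by omega) b4 (by omega))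
  have m5 : mu ι U5 ≤ ENNReal.ofReal (k ^ 2 * ε) := by
    rw [hU5]
    refine union_two (Finset.filter_subset _ _) fun a ha => ?_
    obtain ⟨b1, b2, b3⟩ := Finset.mem_filter.1 ha
    exact stat3 hK.sy (by omega) (G := G') (by omega) (by omega) h2
  have m6 : mu ι U6 ≤ ENNReal.ofReal (4 * k * (L + 1) * τ ^ 2) := by
    rw [hU6]
    exact ext_bad hK k L hτ hτ1
  have hcov : {p : (ι → ℝ) × T2 | qb K m p ∉ Gb K m n L τ e₁ e₃} ⊆ U1 ∪ (U2 ∪ (U3 ∪ (U4 ∪ (U5 ∪ U6)))) := by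
    intro p hp
    by_contra hc
    simp only [mem_union, not_or] at hc
    obtain ⟨c1, c2, c3, c4, c5, c6⟩ := hc
    apply hp
    refine good_of hk hG' hG3 hG4 he3 ?_ ?_ ?_ ?_ ?_
    · intro a a1 a2 a3 a4
      refine ⟨?_, ?_⟩
      · by_contra hd
        rw [not_le] at hd
        apply c1
        rw [hU1]
        simp only [mem_iUnion]
        exact ⟨a, Finset.mem_filter.2 ⟨Finset.mem_range.2 a2, a1, a3, a4⟩, hd⟩
      · by_contra hd
        rw [not_le] at hd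
        apply c2
        rw [hU2]
        simp only [mem_iUnion]
        exact ⟨a, Finset.mem_filter.2 ⟨Finset.mem_range.2 a2, a1, a3, a4⟩, hd⟩
    · intro i i' a1 a2 a3 a4
      by_contra hd
      rw [not_le] at hd
      apply c3
      rw [hU3]
      simp only [mem_iUnion]
      exact ⟨(i, i'), Finset.mem_filter.2 ⟨Finset.mem_product.2 ⟨Finset.mem_range.2 (by omega),
        Finset.mem_range.2 (by omega)⟩, a1, a2, a3, a4⟩, hd⟩
    · intro i i' a1 a2 a3 a4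
      by_contra hd
      rw [not_le] at hd
      apply c4
      rw [hU4]
      simp only [mem_iUnion]
      exact ⟨(i, i'), Finset.mem_filter.2 ⟨Finset.mem_product.2 ⟨Finset.mem_range.2 (by omega),
        Finset.mem_range.2 (by omega)⟩, a1, a2, a3, a4⟩, hd⟩
    · intro a a' a1 a2 a4
      by_contra hd
      rw [not_le] at hd
      apply c5
      rw [hU5]
      simp only [mem_iUnion]
      exact ⟨(a, a'), Finset.mem_filter.2 ⟨Finset.mem_product.2 ⟨Finset.mem_range.2 (by omega),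
        Finset.mem_range.2 (by omega)⟩, a1, a4⟩, hd⟩
    · intro a ha l hl c hc ht
      by_contra hd
      apply c6
      rw [hU6]
      exact ⟨a, ha, l, hl, c, hc, ht, hd⟩
  have hk2 : (k : ℝ) ≤ (k : ℝ) ^ 2 := by
    have : (1 : ℝ) ≤ k := by
      have : 1 ≤ k := by omega
      exact_mod_cast this
    nlinarith
  calc mu ι {p | qb K m p ∉ Gb K m n L τ e₁ e₃}
      ≤ mu ι (U1 ∪ (U2 ∪ (U3 ∪ (U4 ∪ (U5 ∪ U6))))) := measure_mono hcov
    _ ≤ mu ι U1 + (mu ι U2 + (mu ι U3 + (mu ι U4 + (mu ι U5 + mu ι U6)))) :=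
        (measure_union_le _ _).trans (by
          gcongr
          exact (measure_union_le _ _).trans (by
            gcongr
            exact (measure_union_le _ _).trans (by
              gcongr
              exact (measure_union_le _ _).trans (by
                gcongr
                exact measure_union_le _ _))))
    _ ≤ ENNReal.ofReal (k * ε) + (ENNReal.ofReal (k * ε) + (ENNReal.ofReal (k ^ 2 * ε) +
        (ENNReal.ofReal (k ^ 2 * ε) + (ENNReal.ofReal (k ^ 2 * ε) +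
          ENNReal.ofReal (4 * k * (L + 1) * τ ^ 2))))) := by gcongr
    _ = ENNReal.ofReal (k * ε + (k * ε + (k ^ 2 * ε + (k ^ 2 * ε + (k ^ 2 * ε + 4 * k * (L + 1) * τ ^ 2))))) := by
        rw [ENNReal.ofReal_add (by positivity) (by positivity), ENNReal.ofReal_add (by positivity) (by positivity),
          ENNReal.ofReal_add (by positivity) (by positivity), ENNReal.ofReal_add (by positivity) (by positivity),
          ENNReal.ofReal_add (by positivity) (by positivity)]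
    _ ≤ _ := by
        apply ENNReal.ofReal_le_ofReal
        have : (k : ℝ) * ε ≤ k ^ 2 * ε := mul_le_mul_of_nonneg_right hk2 hε
        linarith

end Pool.Agent.Helper18.PW
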