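import Pool.Agent.Helper18.PW.Abs

/-! Block PW-EXT: extreme values of kicks are rare.

`wd_law`: the law of `(ω, x_j)`, `x_j = wd K.toSy ω z j`, under `mu ι` is `(law ι).prod volume`: `j = 0, 1` or shift: by `iter_eq` `x_j` is the second coordinate of `(tw ω)^[j] z`, and `tw_iter_mp` (PV/Abs.lean): for fixed `ω` the law of `(tw ω)^[j] z` is Lebesgue measure, the second
coordinate projection preserves Lebesgue measure (`measurePreserving_snd`); compose with `skew_product` or compute the measure of a set `S` by `Measure.prod_apply`.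
`ext_one`: for fixed `t`, `|t| ≤ 1/2`: the event `¬ gd τ v t`, `v = cl ω_0 + cl ω_1 t`, i.e. `|v| > 1 + |t| (1 - 2τ)` has probability at most `2 τ^2`: under `uu × uu` (the two coordinates: `res2 (K.idx l c) (K.i1 l c)` in PV/Rand.lean, `va_up`) it is the event `|u + v t| > 1 + |t| - 2 τ |t|`,
with `p = 1 - |u| ≥ 0`, `q = 1 - |v| ≥ 0`: `|u + v t| ≤ |u| + |v| |t| = 1 + |t| - p - q |t|`, so `p + q |t| < 2 τ |t|`, so `1 - |u| < τ` (as `2 τ |t| ≤ τ`) and `1 - |v| < 2 τ`: probability `≤ τ · 2τ`.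
`ext_bad`: `{x : |tc l c x| ≤ 1/2}` has diameter `≤ 1/N` by `hK.td` (`N dist x y ≤ |tc x - tc y| ≤ 1`), so its measure is at most `2/N` (contained in a closed ball of radius `1/N`; `AddCircle.volume_closedBall`) (or empty). Sum over `c < NN l` (`NN l · 2/N · 2τ^2 = 4τ^2`), over `l ≤ L` and over `j`. -/

set_option autoImplicit false
open MeasureTheory Real Set
open scoped ENNReal

namespace Pool.Agent.Helper18.PW

open Pool.Agent.Helper18.FD (NN NN_pos NN_ge uu cl lm cl_of_mem)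
open Pool.Agent.Helper18.PV

variable {ι : Type} [DecidableEq ι] {K : Sz ι} {B s : ℝ}

private lemma cl_abs36 (u : ℝ) : |cl u| ≤ 1 := by
  unfold cl
  rw [abs_le]
  constructor
  · exact le_max_left _ _
  · exact max_le (by norm_num) (min_le_left _ _)

private lemma cl_meas36 : Measurable cl := by
  unfold cl
  exact measurable_const.max (measurable_const.min measurable_id)

private lemma uu_le36 {σ : ℝ} : uu {u | 1 - |cl u| < σ} ≤ ENNReal.ofReal σ := by
  rw [uu, Measure.smul_apply, Measure.restrict_apply' measurableSet_Icc, smul_eq_mul]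
  have h1 : {u : ℝ | 1 - |cl u| < σ} ∩ Icc (-1) 1 ⊆ Icc (-1) (-1 + σ) ∪ Icc (1 - σ) 1 := by
    rintro u ⟨hu, hu1⟩
    simp only [mem_ofPred_eq] at hu
    rw [cl_of_mem hu1] at hu
    rcases le_total 0 u with h | h
    · right
      rw [abs_of_nonneg h] at hu
      exact ⟨by linarith, hu1.2⟩
    · left
      rw [abs_of_nonpos h] at hu
      exact ⟨hu1.1, by linarith⟩
  have h2 : volume (Icc (-1 : ℝ) (-1 + σ)) = ENNReal.ofReal σ := by
    rw [Real.volume_Icc]
    congr 1
    ring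
  have h3 : volume (Icc (1 - σ) (1 : ℝ)) = ENNReal.ofReal σ := by
    rw [Real.volume_Icc]
    congr 1
    ring
  calc (2⁻¹ : ℝ≥0∞) * volume ({u : ℝ | 1 - |cl u| < σ} ∩ Icc (-1) 1)
      ≤ 2⁻¹ * (volume (Icc (-1 : ℝ) (-1 + σ)) + volume (Icc (1 - σ) (1 : ℝ))) := by
        gcongr
        exact (measure_mono h1).trans (measure_union_le _ _)
    _ = ENNReal.ofReal σ := by
        rw [h2, h3, ← two_mul, ← mul_assoc, ENNReal.inv_mul_cancel (by norm_num) (by norm_num), one_mul]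

private lemma hmA36 (σ : ℝ) : MeasurableSet {u : ℝ | 1 - |cl u| < σ} :=
  measurableSet_lt (measurable_const.sub (measurable_norm.comp cl_meas36)) measurable_const

theorem wd_law (hK : K.Ok B s) (j : ℕ) :
    Measure.map (fun p : (ι → ℝ) × T2 => (p.1, wd K.toSy p.1 p.2 j)) (mu ι) = (law ι).prod volume := by
  have h1 : MeasurePreserving (fun p : (ι → ℝ) × T2 => (p.1, wd K.toSy p.1 p.2 j))
      ((law ι).prod volume) ((law ι).prod volume) := by
    refine MeasurePreserving.skew_product (g := fun (ω : ι → ℝ) (z : T2) => wd K.toSy ω z j)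
      (MeasurePreserving.id _) (meas_wd hK.sy j) ?_
    refine Filter.Eventually.of_forall fun ω => ?_
    have h2 : MeasurePreserving (Prod.snd : T2 → Ci) volume volume :=
      measurePreserving_snd (μ := (volume : Measure Ci)) (ν := (volume : Measure Ci))
    have h3 := h2.comp (tw_iter_mp hK.sy ω j)
    have h4 : (fun z : T2 => wd K.toSy ω z j) = Prod.snd ∘ (tw K.toSy ω)^[j] := by
      funext z
      rw [Function.comp_apply, iter_eq]
    rw [h4]
    exact h3.map_eq
  exact h1.map_eq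

private lemma key36 (hK : K.Ok B s) (l c : ℕ) {t τ : ℝ} (ht : |t| ≤ 1 / 2) (hτ : 0 < τ) (ω : ι → ℝ) (u v : ℝ) :
    ({ω : ι → ℝ | ¬ gd τ (K.va l c ω t) t}).indicator (1 : (ι → ℝ) → ℝ≥0∞)
      (Function.update (Function.update ω (K.idx l c) u) (K.i1 l c) v) ≤
    ({u : ℝ | 1 - |cl u| < τ}).indicator (1 : ℝ → ℝ≥0∞) u *
      ({u : ℝ | 1 - |cl u| < 2 * τ}).indicator (1 : ℝ → ℝ≥0∞) v := by
  by_cases h : (Function.update (Function.update ω (K.idx l c) u) (K.i1 l c) v) ∈
      {ω : ι → ℝ | ¬ gd τ (K.va l c ω t) t}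
  · have h2 : ¬ gd τ (cl u + cl v * t) t := by
      have h3 := va_up hK l c u v t ω
      rw [← h3]
      exact h
    unfold gd at h2
    push Not at h2
    have ha := cl_abs36 u
    have hb := cl_abs36 v
    have h4 : |cl u + cl v * t| ≤ |cl u| + |cl v| * |t| := (abs_add_le _ _).trans (by rw [abs_mul])
    have ht0 : 0 ≤ |t| := abs_nonneg t
    have hA : 1 - |cl u| < τ := by
      nlinarith [mul_nonneg (sub_nonneg.2 hb) ht0, mul_nonneg hτ.le (sub_nonneg.2 ht)]
    have hB : 1 - |cl v| < 2 * τ := by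
      by_contra h5
      push Not at h5
      nlinarith [mul_nonneg (sub_nonneg.2 h5) ht0]
    have hA' : u ∈ {u : ℝ | 1 - |cl u| < τ} := hA
    have hB' : v ∈ {u : ℝ | 1 - |cl u| < 2 * τ} := hB
    rw [indicator_of_mem h, indicator_of_mem hA', indicator_of_mem hB']
    simp
  · rw [indicator_of_notMem h]
    exact zero_le

theorem ext_one (hK : K.Ok B s) (l c : ℕ) {t τ : ℝ} (ht : |t| ≤ 1 / 2) (hτ : 0 < τ) (hτ1 : τ ≤ 1) :
    law ι {ω | ¬ gd τ (K.va l c ω t) t} ≤ ENNReal.ofReal (2 * τ ^ 2) := by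
  have hmS : MeasurableSet {ω : ι → ℝ | ¬ gd τ (K.va l c ω t) t} := by
    have h1 : Measurable fun ω : ι → ℝ => K.va l c ω t :=
      (meas_va K l c).comp (measurable_id.prodMk measurable_const)
    exact (measurableSet_le (measurable_norm.comp h1) measurable_const).compl
  rw [← lintegral_indicator_one hmS, res2 (K.idx l c) (K.i1 l c) (measurable_one.indicator hmS)]
  have h1 : ∀ u : ℝ, ∫⁻ v, ({u : ℝ | 1 - |cl u| < τ}).indicator (1 : ℝ → ℝ≥0∞) u *
      ({u : ℝ | 1 - |cl u| < 2 * τ}).indicator (1 : ℝ → ℝ≥0∞) v ∂uu =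
      ({u : ℝ | 1 - |cl u| < τ}).indicator (1 : ℝ → ℝ≥0∞) u * uu {u : ℝ | 1 - |cl u| < 2 * τ} := fun u => by
    rw [lintegral_const_mul _ (measurable_one.indicator (hmA36 _)), lintegral_indicator_one (hmA36 _)]
  calc ∫⁻ ω, ∫⁻ u, ∫⁻ v, ({ω : ι → ℝ | ¬ gd τ (K.va l c ω t) t}).indicator (1 : (ι → ℝ) → ℝ≥0∞)
          (Function.update (Function.update ω (K.idx l c) u) (K.i1 l c) v) ∂uu ∂uu ∂(law ι)
      ≤ ∫⁻ _ω : ι → ℝ, ∫⁻ u, ∫⁻ v, ({u : ℝ | 1 - |cl u| < τ}).indicator (1 : ℝ → ℝ≥0∞) u *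
          ({u : ℝ | 1 - |cl u| < 2 * τ}).indicator (1 : ℝ → ℝ≥0∞) v ∂uu ∂uu ∂(law ι) :=
        lintegral_mono fun ω => lintegral_mono fun u => lintegral_mono fun v => key36 hK l c ht hτ ω u v
    _ = uu {u : ℝ | 1 - |cl u| < τ} * uu {u : ℝ | 1 - |cl u| < 2 * τ} := by
        rw [lintegral_const, measure_univ, mul_one]
        simp_rw [h1]
        rw [lintegral_mul_const _ (measurable_one.indicator (hmA36 _)), lintegral_indicator_one (hmA36 _)]
    _ ≤ ENNReal.ofReal τ * ENNReal.ofReal (2 * τ) := mul_le_mul' uu_le36 uu_le36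
    _ = ENNReal.ofReal (2 * τ ^ 2) := by
        rw [← ENNReal.ofReal_mul hτ.le]
        congr 1
        ring

/-- the event that the position number `j` sees an extreme value of the cell `c` of level `l` -/
private def evt36 (K : Sz ι) (τ : ℝ) (j l c : ℕ) : Set ((ι → ℝ) × T2) :=
  {p | |K.tc l c (wd K.toSy p.1 p.2 j)| ≤ 1 / 2 ∧
    ¬ gd τ (K.va l c p.1 (K.tc l c (wd K.toSy p.1 p.2 j))) (K.tc l c (wd K.toSy p.1 p.2 j))}

private def ev36 (K : Sz ι) (τ : ℝ) (l c : ℕ) : Set ((ι → ℝ) × Ci) :=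
  {q | |K.tc l c q.2| ≤ 1 / 2 ∧ ¬ gd τ (K.va l c q.1 (K.tc l c q.2)) (K.tc l c q.2)}

private lemma ev_meas36 (hK : K.Ok B s) (τ : ℝ) (l c : ℕ) : MeasurableSet (ev36 K τ l c) := by
  have h1 : Measurable fun q : (ι → ℝ) × Ci => K.tc l c q.2 := (hK.mtc l c).comp measurable_snd
  have h2 : Measurable fun q : (ι → ℝ) × Ci => K.va l c q.1 (K.tc l c q.2) :=
    (meas_va K l c).comp (measurable_fst.prodMk h1)
  refine (measurableSet_le (measurable_norm.comp h1) measurable_const).inter ?_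
  exact (measurableSet_le (measurable_norm.comp h2)
    (measurable_const.add ((measurable_norm.comp h1).mul measurable_const))).compl

private lemma vol36 (hK : K.Ok B s) (l : ℕ) {c : ℕ} (hc : c < NN l) :
    volume {x : Ci | |K.tc l c x| ≤ 1 / 2} ≤ ENNReal.ofReal (2 / NN l) := by
  have hN : (0 : ℝ) < NN l := by exact_mod_cast NN_pos l
  rcases Set.eq_empty_or_nonempty {x : Ci | |K.tc l c x| ≤ 1 / 2} with h | ⟨x, hx⟩
  · rw [h, measure_empty]
    exact zero_le
  · have h1 : {x : Ci | |K.tc l c x| ≤ 1 / 2} ⊆ Metric.closedBall x (1 / NN l) := by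
      intro y hy
      have h2 := hK.td l c y x hc hy hx
      have h3 : |K.tc l c y - K.tc l c x| ≤ 1 := by
        have h4 := abs_le.1 (show |K.tc l c y| ≤ 1 / 2 from hy)
        have h5 := abs_le.1 (show |K.tc l c x| ≤ 1 / 2 from hx)
        rw [abs_le]
        constructor
        · linarith [h4.1, h5.2]
        · linarith [h4.2, h5.1]
      rw [Metric.mem_closedBall, le_div_iff₀ hN]
      linarith
    refine (measure_mono h1).trans ?_
    rw [AddCircle.volume_closedBall]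
    refine ENNReal.ofReal_le_ofReal ((min_le_right _ _).trans (le_of_eq ?_))
    ring

private lemma evt_le36 (hK : K.Ok B s) (j l : ℕ) {c : ℕ} (hc : c < NN l) {τ : ℝ} (hτ : 0 < τ) (hτ1 : τ ≤ 1) :
    mu ι (evt36 K τ j l c) ≤ ENNReal.ofReal (2 * τ ^ 2) * ENNReal.ofReal (2 / NN l) := by
  have hm : Measurable fun p : (ι → ℝ) × T2 => (p.1, wd K.toSy p.1 p.2 j) :=
    measurable_fst.prodMk (meas_wd hK.sy j)
  have h1 : mu ι (evt36 K τ j l c) = ((law ι).prod (volume : Measure Ci)) (ev36 K τ l c) := by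
    rw [← wd_law hK j, Measure.map_apply hm (ev_meas36 hK τ l c)]
    rfl
  have hmt : MeasurableSet {x : Ci | |K.tc l c x| ≤ 1 / 2} :=
    measurableSet_le (measurable_norm.comp (hK.mtc l c)) measurable_const
  rw [h1, Measure.prod_apply_symm (ev_meas36 hK τ l c)]
  calc ∫⁻ x : Ci, law ι ((fun ω : ι → ℝ => (ω, x)) ⁻¹' (ev36 K τ l c))
      ≤ ∫⁻ x : Ci, ({x : Ci | |K.tc l c x| ≤ 1 / 2}).indicator (fun _ => ENNReal.ofReal (2 * τ ^ 2)) x := by
        refine lintegral_mono fun x => ?_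
        by_cases hx : x ∈ {x : Ci | |K.tc l c x| ≤ 1 / 2}
        · rw [indicator_of_mem hx]
          refine (measure_mono ?_).trans (ext_one hK l c (show |K.tc l c x| ≤ 1 / 2 from hx) hτ hτ1)
          intro ω hω
          exact hω.2
        · rw [indicator_of_notMem hx]
          have : ((fun ω : ι → ℝ => (ω, x)) ⁻¹' (ev36 K τ l c)) = ∅ := by
            ext ω
            simp only [mem_preimage, mem_empty_iff_false, iff_false]
            intro h
            exact hx h.1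
          rw [this, measure_empty]
    _ = ENNReal.ofReal (2 * τ ^ 2) * volume {x : Ci | |K.tc l c x| ≤ 1 / 2} := lintegral_indicator_const hmt _
    _ ≤ ENNReal.ofReal (2 * τ ^ 2) * ENNReal.ofReal (2 / NN l) := by
        gcongr
        exact vol36 hK l hc

theorem ext_bad (hK : K.Ok B s) (k L : ℕ) {τ : ℝ} (hτ : 0 < τ) (hτ1 : τ ≤ 1) :
    mu ι {p | ∃ j ∈ Finset.range k, ∃ l ≤ L, ∃ c < NN l, |K.tc l c (wd K.toSy p.1 p.2 j)| ≤ 1 / 2 ∧
      ¬ gd τ (K.va l c p.1 (K.tc l c (wd K.toSy p.1 p.2 j))) (K.tc l c (wd K.toSy p.1 p.2 j))} ≤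
      ENNReal.ofReal (4 * k * (L + 1) * τ ^ 2) := by
  have h1 : {p : (ι → ℝ) × T2 | ∃ j ∈ Finset.range k, ∃ l ≤ L, ∃ c < NN l,
      |K.tc l c (wd K.toSy p.1 p.2 j)| ≤ 1 / 2 ∧
      ¬ gd τ (K.va l c p.1 (K.tc l c (wd K.toSy p.1 p.2 j))) (K.tc l c (wd K.toSy p.1 p.2 j))} ⊆
      ⋃ j ∈ Finset.range k, ⋃ l ∈ Finset.range (L + 1), ⋃ c ∈ Finset.range (NN l), evt36 K τ j l c := by
    rintro p ⟨j, hj, l, hl, c, hc, hp⟩
    simp only [mem_iUnion]
    exact ⟨j, hj, l, Finset.mem_range.2 (by omega), c, Finset.mem_range.2 hc, hp⟩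
  have h2 : ∀ j l, ∑ c ∈ Finset.range (NN l), mu ι (evt36 K τ j l c) ≤ ENNReal.ofReal (4 * τ ^ 2) := by
    intro j l
    have hN : (0 : ℝ) < NN l := by exact_mod_cast NN_pos l
    calc ∑ c ∈ Finset.range (NN l), mu ι (evt36 K τ j l c)
        ≤ ∑ _c ∈ Finset.range (NN l), ENNReal.ofReal (2 * τ ^ 2) * ENNReal.ofReal (2 / NN l) :=
          Finset.sum_le_sum fun c hc => evt_le36 hK j l (Finset.mem_range.1 hc) hτ hτ1
      _ = ENNReal.ofReal (4 * τ ^ 2) := by
          rw [Finset.sum_const, Finset.card_range, nsmul_eq_mul, ← ENNReal.ofReal_mul (by positivity),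
            ← ENNReal.ofReal_natCast, ← ENNReal.ofReal_mul hN.le]
          congr 1
          field_simp
          ring
  calc mu ι _ ≤ mu ι (⋃ j ∈ Finset.range k, ⋃ l ∈ Finset.range (L + 1), ⋃ c ∈ Finset.range (NN l),
        evt36 K τ j l c) := measure_mono h1
    _ ≤ ∑ j ∈ Finset.range k, mu ι (⋃ l ∈ Finset.range (L + 1), ⋃ c ∈ Finset.range (NN l),
        evt36 K τ j l c) := measure_biUnion_finset_le _ _
    _ ≤ ∑ j ∈ Finset.range k, ∑ l ∈ Finset.range (L + 1), mu ι (⋃ c ∈ Finset.range (NN l),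
        evt36 K τ j l c) := Finset.sum_le_sum fun j _ => measure_biUnion_finset_le _ _
    _ ≤ ∑ j ∈ Finset.range k, ∑ l ∈ Finset.range (L + 1), ∑ c ∈ Finset.range (NN l),
        mu ι (evt36 K τ j l c) :=
          Finset.sum_le_sum fun j _ => Finset.sum_le_sum fun l _ => measure_biUnion_finset_le _ _
    _ ≤ ∑ j ∈ Finset.range k, ∑ l ∈ Finset.range (L + 1), ENNReal.ofReal (4 * τ ^ 2) :=
          Finset.sum_le_sum fun j _ => Finset.sum_le_sum fun l _ => h2 j l
    _ = ENNReal.ofReal (4 * k * (L + 1) * τ ^ 2) := by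
          rw [Finset.sum_const, Finset.sum_const, Finset.card_range, Finset.card_range, nsmul_eq_mul,
            nsmul_eq_mul, ← ENNReal.ofReal_natCast, ← ENNReal.ofReal_natCast,
            ← ENNReal.ofReal_mul (by positivity), ← ENNReal.ofReal_mul (by positivity)]
          congr 1
          push_cast
          ring

end Pool.Agent.Helper18.PW
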