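import Pool.Agent.Helper18.PV.Abs

/-! Block PW-HYP: area of a hyperbolic neighbourhood. (Only the circle; context free.)

Proof. `n` with `2^(-n) ≤ P < 2^(1-n)`. Either `dist w.1 a < 2^(-n) ≤ P`: area `≤ 2 P` (`vol_ball` in PV/Abs.lean), or `2^(-i-1) ≤ dist w.1 a < 2^(-i)` for some `0 ≤ i < n` (distances are at most `1/2`), then `dist w.2 b < P 2^(i+1)`: area
`≤ 2 · 2^(-i) · 2 P 2^(i+1) = 8 P`. Sum: `2 P + 8 n P`, `n ≤ 1 + log(1/P)/log 2`. (Use `Measure.prod_prod`, `measure_biUnion_finset_le`.) -/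

set_option autoImplicit false
open MeasureTheory Real Set
open scoped ENNReal

namespace Pool.Agent.Helper18.PW

open Pool.Agent.Helper18.PV

private theorem dist_le56 (x y : Ci) : dist x y < 1 := by
  have h : dist x y ≤ |(1 : ℝ)| / 2 := by
    rw [dist_eq_norm]
    exact AddCircle.norm_le_half_period 1 one_ne_zero
  rw [abs_one] at h
  linarith

private theorem vol_prod56 (a b : Ci) {r t : ℝ} (hr : 0 ≤ r) :
    (volume : Measure T2) (Metric.ball a r ×ˢ Metric.ball b t) ≤ ENNReal.ofReal (2 * r * (2 * t)) := by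
  have h1 : (volume : Measure T2) (Metric.ball a r ×ˢ Metric.ball b t) =
      (volume : Measure Ci) (Metric.ball a r) * (volume : Measure Ci) (Metric.ball b t) :=
    Measure.prod_prod _ _
  rw [h1, ENNReal.ofReal_mul (by linarith)]
  exact mul_le_mul' (vol_ball a r) (vol_ball b t)

private theorem near56 {d : ℝ} (hd : d < 1) : ∀ n : ℕ, (1 / 2 : ℝ) ^ (n + 1) ≤ d →
    ∃ i ≤ n, (1 / 2 : ℝ) ^ (i + 1) ≤ d ∧ d < (1 / 2 : ℝ) ^ i := by
  intro n
  induction n with
  | zero =>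
    intro h
    exact ⟨0, le_rfl, h, by simpa using hd⟩
  | succ n ih =>
    intro h
    rcases lt_or_ge d ((1 / 2 : ℝ) ^ (n + 1)) with h2 | h2
    · exact ⟨n + 1, le_rfl, h, h2⟩
    · obtain ⟨i, hi, h3⟩ := ih h2
      exact ⟨i, by omega, h3⟩

theorem hyp_area (a b : Ci) {P : ℝ} (h0 : 0 < P) (h1 : P ≤ 1) :
    (volume : Measure T2) {w | dist w.1 a * dist w.2 b < P} ≤ ENNReal.ofReal (32 * (P * (1 + Real.log (1 / P)))) := by
  obtain ⟨n, hn1, hn2⟩ := exists_nat_pow_near_of_lt_one h0 h1 (by norm_num : (0 : ℝ) < 1 / 2) (by norm_num)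
  have hsub : {w : T2 | dist w.1 a * dist w.2 b < P} ⊆ (Metric.ball a P ×ˢ Metric.ball b 1) ∪
      ⋃ i ∈ Finset.range (n + 1), (Metric.ball a ((1 / 2 : ℝ) ^ i) ×ˢ Metric.ball b (P * 2 ^ (i + 1))) := by
    rintro ⟨x, y⟩ hw
    have hw' : dist x a * dist y b < P := hw
    rcases lt_or_ge (dist x a) ((1 / 2 : ℝ) ^ (n + 1)) with h | h
    · exact Or.inl ⟨h.trans hn1, dist_le56 y b⟩
    · right
      obtain ⟨i, hi, h2, h3⟩ := near56 (dist_le56 x a) n h
      refine Set.mem_biUnion (Finset.mem_coe.2 (Finset.mem_range.2 (by omega : i < n + 1))) ⟨h3, ?_⟩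
      change dist y b < P * 2 ^ (i + 1)
      have h4 : (1 / 2 : ℝ) ^ (i + 1) * dist y b < P :=
        lt_of_le_of_lt (mul_le_mul_of_nonneg_right h2 dist_nonneg) hw'
      have h5 : (2 : ℝ) ^ (i + 1) * ((1 / 2 : ℝ) ^ (i + 1) * dist y b) < 2 ^ (i + 1) * P :=
        mul_lt_mul_of_pos_left h4 (by positivity)
      have h6 : (2 : ℝ) ^ (i + 1) * (1 / 2 : ℝ) ^ (i + 1) = 1 := by
        rw [← mul_pow]
        norm_num
      rw [← mul_assoc, h6, one_mul] at h5
      linarith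
  have hvol : (volume : Measure T2) ((Metric.ball a P ×ˢ Metric.ball b 1) ∪
      ⋃ i ∈ Finset.range (n + 1), (Metric.ball a ((1 / 2 : ℝ) ^ i) ×ˢ Metric.ball b (P * 2 ^ (i + 1)))) ≤
      ENNReal.ofReal (4 * P + (n + 1) * (8 * P)) := by
    have e1 : (volume : Measure T2) (Metric.ball a P ×ˢ Metric.ball b 1) ≤ ENNReal.ofReal (4 * P) := by
      refine (vol_prod56 a b h0.le).trans (ENNReal.ofReal_le_ofReal (le_of_eq ?_))
      ring
    have e2 : ∀ i ∈ Finset.range (n + 1), (volume : Measure T2)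
        (Metric.ball a ((1 / 2 : ℝ) ^ i) ×ˢ Metric.ball b (P * 2 ^ (i + 1))) ≤ ENNReal.ofReal (8 * P) := by
      intro i _
      refine (vol_prod56 a b (by positivity)).trans (ENNReal.ofReal_le_ofReal (le_of_eq ?_))
      have h6 : (1 / 2 : ℝ) ^ i * 2 ^ i = 1 := by
        rw [← mul_pow]
        norm_num
      calc 2 * (1 / 2 : ℝ) ^ i * (2 * (P * 2 ^ (i + 1))) = 8 * P * ((1 / 2 : ℝ) ^ i * 2 ^ i) := by ring
        _ = 8 * P := by rw [h6, mul_one]
    have e3 : (volume : Measure T2) (⋃ i ∈ Finset.range (n + 1),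
        (Metric.ball a ((1 / 2 : ℝ) ^ i) ×ˢ Metric.ball b (P * 2 ^ (i + 1)))) ≤ ENNReal.ofReal ((n + 1) * (8 * P)) := by
      refine (measure_biUnion_finset_le _ _).trans ((Finset.sum_le_sum e2).trans ?_)
      rw [Finset.sum_const, Finset.card_range, nsmul_eq_mul,
        ENNReal.ofReal_mul (by positivity : (0 : ℝ) ≤ (n : ℝ) + 1)]
      have e4 : ENNReal.ofReal ((n : ℝ) + 1) = ((n + 1 : ℕ) : ℝ≥0∞) := by
        rw [← ENNReal.ofReal_natCast (n + 1)]
        push_cast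
        rfl
      rw [e4]
    refine (measure_union_le _ _).trans ((add_le_add e1 e3).trans ?_)
    rw [← ENNReal.ofReal_add (by positivity) (by positivity)]
  refine (measure_mono hsub).trans (hvol.trans (ENNReal.ofReal_le_ofReal ?_))
  have h2 : (n : ℝ) * Real.log 2 ≤ Real.log (1 / P) := by
    have h3 : Real.log P ≤ Real.log ((1 / 2 : ℝ) ^ n) := Real.log_le_log h0 hn2
    rw [Real.log_pow, one_div, Real.log_inv] at h3
    rw [one_div, Real.log_inv]
    linarith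
  have h4 : (0 : ℝ) ≤ n := Nat.cast_nonneg n
  have h5 := Real.log_two_gt_d9
  have h6 : (n : ℝ) ≤ 2 * Real.log (1 / P) := by nlinarith
  nlinarith [mul_le_mul_of_nonneg_left h6 h0.le, mul_nonneg h4 h0.le]

end Pool.Agent.Helper18.PW
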