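import Pool.Agent.Helper18.PW.Abs

/-! Block PW-PICK: deterministic choice of the two kicks for a good base pair.

`ineq` (pure inequality): `l, r, l', r' ∈ [e₁, e₃]`, `l l' ≥ e₁ e₃`, `r r' ≥ e₁ e₃`, `0 < s < 1`. By symmetry (exchange of `l, l'` with `r, r'`) `l ≤ r`. If `l' ≤ r'` the product is `(l l') (r r')^s ≥ (e₁ e₃)^(1+s) ≥ e₁² e₃^(2s)` (as `(e₃/e₁)^(1-s) ≥ 1`).
If `r' ≤ l'` it is `l r^s r' l'^s = l^(1-s) (l l')^s r'^(1-s) (r r')^s ≥ e₁^(1-s) (e₁e₃)^s e₁^(1-s) (e₁e₃)^s = e₁² e₃^(2s)`.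

`pick1` (one base position, `x = pv q b`): `0 < d₁ ≤ d₂ ≤ 1`, all used positions except possibly `j₀` are at distance at least `d₂`, `j₀` at distance at least `d₁`, the other base position at distance at least `d₂`. Let `l` be the least level with `2/NN l ≤ d₂`; then `NN l ≤ 8/d₂` (`NN l = 2^(l+3)`).
 (a) `j₀` is a used position with `D = dist x (ps q j₀) ≤ d₂/64`: then `D ≤ 1/(8 NN l)`, by `hK.near` there is `l' ∈ {l, l+1}` with `|tc l' (cel l' x) (ps q j₀)| ≤ 1/2`; `NN l' ≤ 16/d₂`. Let `e` be the least natural number with `2^(-e) ≤ D`, so `2^(-e) ≥ D/2`. Type `sl l' j₀ e`, cost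
   `(3 + 1/|amp|)/(τ NN l' 2^(-e)) ≤ 3 B (NN l')^(1+s)/(τ NN l' D/2) ≤ 6 B (16/d₂)^s/(τ D) ≤ 96 B/(τ d₁ d₂^s)`.
 (b) otherwise all used positions and the other base position are at distance `≥ d₃ = d₂/64`; type `pl l''` with `l''` least with `2/NN l'' ≤ d₃`, `NN l'' ≤ 512/d₂`, cost `1 + 1/(2|amp|) ≤ B (NN l'')^(1+s) ≤ B (512/d₂)^(1+s) ≤ 512^2 B/(d₁ d₂^s)` (`τ ≤ 1`).
 The levels are at most `L` since `NN L ≥ 1024/d₁` (`hL`; `NN` is increasing), `e ≤ E` since `2^(-E) ≤ d₁` (`hE`).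

`pick`: for `q ∈ Gb`: for `b = false, true` and each side (`j.1 = false` past, `j.1 = true` future) let the side distance be `min e₃ (least distance of a used position of this side)`; this gives `l, r` (past, future) for `b = false` and `l', r'` for `b = true`, all in `[e₁, e₃]`, and the conditions of `ineq` hold by
the second condition of `Gb` (if one of `l, l'` is `e₃` use that the other is `≥ e₁`). For `b`: `d₁ = min l r`, `d₂ = max l r`, `j₀` = a nearest used position of the side with the smaller value (any index if there is none closer than `e₃`): a different used position of the same side has distance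
`≥ e₃ ≥ d₂` by the third condition (`j₀` is the nearest of its side), of the other side `≥ max l r = d₂`; the other base position `≥ e₃ ≥ d₂`. Then `pick1` twice and `ineq`. -/

set_option autoImplicit false
open MeasureTheory Real Set
open scoped ENNReal

namespace Pool.Agent.Helper18.PW

open Pool.Agent.Helper18.FD (NN NN_pos NN_ge uu cl lm cl_of_mem)
open Pool.Agent.Helper18.PV

variable {ι : Type} [DecidableEq ι] {K : Sz ι} {B s : ℝ}

theorem ineq {s e₁ e₃ l r l' r' : ℝ} (hs : 0 < s) (hs1 : s < 1) (h1 : 0 < e₁) (h13 : e₁ ≤ e₃)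
    (hl : e₁ ≤ l) (hl3 : l ≤ e₃) (hr : e₁ ≤ r) (hr3 : r ≤ e₃) (hl' : e₁ ≤ l') (hl'3 : l' ≤ e₃)
    (hr' : e₁ ≤ r') (hr'3 : r' ≤ e₃) (hll : e₁ * e₃ ≤ l * l') (hrr : e₁ * e₃ ≤ r * r') :
    e₁ ^ 2 * e₃ ^ (2 * s) ≤ (min l r * max l r ^ s) * (min l' r' * max l' r' ^ s) := by
  have h3 : 0 < e₃ := h1.trans_le h13
  have hP : 0 < e₁ * e₃ := mul_pos h1 h3
  have key : ∀ l r l' r' : ℝ, e₁ ≤ l → l ≤ e₃ → e₁ ≤ r → r ≤ e₃ → e₁ ≤ l' → l' ≤ e₃ → e₁ ≤ r' → r' ≤ e₃ →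
      e₁ * e₃ ≤ l * l' → e₁ * e₃ ≤ r * r' → l ≤ r →
      e₁ ^ 2 * e₃ ^ (2 * s) ≤ (min l r * max l r ^ s) * (min l' r' * max l' r' ^ s) := by
    intro l r l' r' hl hl3 hr hr3 hl' hl'3 hr' hr'3 hll hrr hlr
    have pl : 0 < l := h1.trans_le hl
    have pr : 0 < r := h1.trans_le hr
    have pl' : 0 < l' := h1.trans_le hl'
    have pr' : 0 < r' := h1.trans_le hr'
    rw [min_eq_left hlr, max_eq_right hlr]
    rcases le_total l' r' with h | h
    · rw [min_eq_left h, max_eq_right h]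
      have e1 : l * r ^ s * (l' * r' ^ s) = (l * l') * (r * r') ^ s := by
        rw [Real.mul_rpow pr.le pr'.le]
        ring
      rw [e1]
      have e2 : (e₁ * e₃) * (e₁ * e₃) ^ s ≤ (l * l') * (r * r') ^ s :=
        mul_le_mul hll (Real.rpow_le_rpow hP.le hrr hs.le) (Real.rpow_nonneg hP.le s) (mul_pos pl pl').le
      refine le_trans ?_ e2
      have e3 : e₁ ^ (1 - s) ≤ e₃ ^ (1 - s) := Real.rpow_le_rpow h1.le h13 (by linarith)
      have e4 : e₁ ^ 2 * e₃ ^ (2 * s) = (e₁ * e₁ ^ s * e₃ ^ (2 * s)) * e₁ ^ (1 - s) := by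
        have : e₁ ^ s * e₁ ^ (1 - s) = e₁ := by
          rw [← Real.rpow_add h1]
          norm_num
        calc e₁ ^ 2 * e₃ ^ (2 * s) = e₁ * e₁ * e₃ ^ (2 * s) := by ring
          _ = e₁ * (e₁ ^ s * e₁ ^ (1 - s)) * e₃ ^ (2 * s) := by rw [this]
          _ = _ := by ring
      have e5 : (e₁ * e₃) * (e₁ * e₃) ^ s = (e₁ * e₁ ^ s * e₃ ^ (2 * s)) * e₃ ^ (1 - s) := by
        have h2s : e₃ ^ (2 * s) = e₃ ^ s * e₃ ^ s := by
          rw [← Real.rpow_add h3]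
          congr 1
          ring
        have : e₃ ^ s * e₃ ^ (1 - s) = e₃ := by
          rw [← Real.rpow_add h3]
          norm_num
        calc (e₁ * e₃) * (e₁ * e₃) ^ s = e₁ * e₃ * (e₁ ^ s * e₃ ^ s) := by rw [Real.mul_rpow h1.le h3.le]
          _ = e₁ * (e₃ ^ s * e₃ ^ (1 - s)) * (e₁ ^ s * e₃ ^ s) := by rw [this]
          _ = _ := by rw [h2s]; ring
      rw [e4, e5]
      exact mul_le_mul_of_nonneg_left e3 (by positivity)
    · rw [min_eq_right h, max_eq_left h]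
      have e0 : ∀ x : ℝ, 0 < x → x ^ (1 - s) * x ^ s = x := by
        intro x hx
        rw [← Real.rpow_add hx]
        norm_num
      have e1 : l * r ^ s * (r' * l' ^ s) = l ^ (1 - s) * (l * l') ^ s * (r' ^ (1 - s) * (r * r') ^ s) := by
        rw [Real.mul_rpow pr.le pr'.le, Real.mul_rpow pl.le pl'.le]
        calc l * r ^ s * (r' * l' ^ s) = (l ^ (1 - s) * l ^ s) * r ^ s * ((r' ^ (1 - s) * r' ^ s) * l' ^ s) := by
              rw [e0 l pl, e0 r' pr']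
          _ = _ := by ring
      rw [e1]
      have e2 : e₁ ^ 2 * e₃ ^ (2 * s) = e₁ ^ (1 - s) * (e₁ * e₃) ^ s * (e₁ ^ (1 - s) * (e₁ * e₃) ^ s) := by
        have h2s : e₃ ^ (2 * s) = e₃ ^ s * e₃ ^ s := by
          rw [← Real.rpow_add h3]
          congr 1
          ring
        rw [Real.mul_rpow h1.le h3.le, h2s]
        calc e₁ ^ 2 * (e₃ ^ s * e₃ ^ s) = e₁ * e₁ * (e₃ ^ s * e₃ ^ s) := by ring
          _ = (e₁ ^ (1 - s) * e₁ ^ s) * (e₁ ^ (1 - s) * e₁ ^ s) * (e₃ ^ s * e₃ ^ s) := by rw [e0 e₁ h1]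
          _ = _ := by ring
      rw [e2]
      have hs' : 0 ≤ 1 - s := by linarith
      have f1 : e₁ ^ (1 - s) * (e₁ * e₃) ^ s ≤ l ^ (1 - s) * (l * l') ^ s :=
        mul_le_mul (Real.rpow_le_rpow h1.le hl hs') (Real.rpow_le_rpow hP.le hll hs.le)
          (Real.rpow_nonneg hP.le s) (Real.rpow_nonneg pl.le _)
      have f2 : e₁ ^ (1 - s) * (e₁ * e₃) ^ s ≤ r' ^ (1 - s) * (r * r') ^ s :=
        mul_le_mul (Real.rpow_le_rpow h1.le hr' hs') (Real.rpow_le_rpow hP.le hrr hs.le)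
          (Real.rpow_nonneg hP.le s) (Real.rpow_nonneg pr'.le _)
      exact mul_le_mul f1 f2 (by positivity) (by positivity)
  rcases le_total l r with h | h
  · exact key l r l' r' hl hl3 hr hr3 hl' hl'3 hr' hr'3 hll hrr h
  · have := key r l r' l' hr hr3 hl hl3 hr' hr'3 hl' hl'3 hrr hll h
    rwa [min_comm r l, max_comm r l, min_comm r' l', max_comm r' l'] at this

private theorem NNr6 (l : ℕ) : (NN l : ℝ) = 2 ^ (l + 3) := by
  unfold NN
  push_cast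
  ring

private theorem NNp6 (l : ℕ) : (0 : ℝ) < NN l := by
  rw [NNr6]
  positivity

private theorem NNs6 (l : ℕ) : (NN (l + 1) : ℝ) = 2 * NN l := by
  rw [NNr6, NNr6]
  ring

private theorem NNm6 {l l' : ℕ} (h : (NN l : ℝ) ≤ NN l') : l ≤ l' := by
  rw [NNr6, NNr6] at h
  have := (pow_le_pow_iff_right₀ (by norm_num : (1 : ℝ) < 2)).1 h
  omega

private theorem lev6 {δ : ℝ} {L : ℕ} (h0 : 0 < δ) (h1 : δ ≤ 1) (hL : 2 / (NN L : ℝ) ≤ δ) :
    ∃ l ≤ L, 2 / (NN l : ℝ) ≤ δ ∧ (NN l : ℝ) ≤ 8 / δ := by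
  classical
  have hex : ∃ l, 2 / (NN l : ℝ) ≤ δ := ⟨L, hL⟩
  refine ⟨Nat.find hex, Nat.find_min' hex hL, Nat.find_spec hex, ?_⟩
  rcases Nat.eq_zero_or_pos (Nat.find hex) with h | h
  · rw [h, NNr6, le_div_iff₀ h0]
    norm_num
    linarith
  · obtain ⟨k, hk⟩ : ∃ k, Nat.find hex = k + 1 := ⟨Nat.find hex - 1, by omega⟩
    have h2 := Nat.find_min hex (m := k) (by omega)
    rw [not_le, lt_div_iff₀ (NNp6 k)] at h2
    rw [hk, NNs6, le_div_iff₀ h0]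
    linarith

private theorem exp6 {D : ℝ} {E : ℕ} (h1 : D ≤ 1) (hE : (2 : ℝ)⁻¹ ^ E ≤ D) :
    ∃ e ≤ E, (2 : ℝ)⁻¹ ^ e ≤ D ∧ D / 2 ≤ (2 : ℝ)⁻¹ ^ e := by
  classical
  have hex : ∃ e, (2 : ℝ)⁻¹ ^ e ≤ D := ⟨E, hE⟩
  refine ⟨Nat.find hex, Nat.find_min' hex hE, Nat.find_spec hex, ?_⟩
  rcases Nat.eq_zero_or_pos (Nat.find hex) with h | h
  · rw [h, pow_zero]
    linarith
  · obtain ⟨k, hk⟩ : ∃ k, Nat.find hex = k + 1 := ⟨Nat.find hex - 1, by omega⟩
    have h2 := Nat.find_min hex (m := k) (by omega)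
    rw [not_le] at h2
    rw [hk, pow_succ]
    linarith

private theorem pl_mem6 {m n L E l : ℕ} (h : l ≤ L) : Ty.pl l ∈ tys m n L E := by
  unfold tys
  rw [Finset.mem_union]
  left
  exact Finset.mem_image_of_mem _ (Finset.mem_range.2 (by omega))

private theorem sl_mem6 {m n L E l e : ℕ} {j : Bool × ℕ} (h : l ≤ L) (hj : j ∈ us m n) (he : e ≤ E) :
    Ty.sl l j e ∈ tys m n L E := by
  unfold tys
  rw [Finset.mem_union]
  right
  refine Finset.mem_image.2 ⟨(l, j, e), ?_, rfl⟩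
  rw [Finset.mem_product, Finset.mem_product]
  exact ⟨Finset.mem_range.2 (Nat.lt_succ_of_le h), hj, Finset.mem_range.2 (Nat.lt_succ_of_le he)⟩

theorem pick1 (hK : K.Ok B s) {m n L E : ℕ} {τ d₁ d₂ : ℝ} (hτ : 0 < τ) (hτ1 : τ ≤ 1) (h1 : 0 < d₁)
    (h12 : d₁ ≤ d₂) (h2 : d₂ ≤ 1) (hL : 1024 / d₁ ≤ NN L) (hE : (2 : ℝ)⁻¹ ^ E ≤ d₁)
    {q : (ι → ℝ) × (T2 × T2)} (b : Bool) (j₀ : Bool × ℕ)
    (hj : ∀ j ∈ us m n, j ≠ j₀ → d₂ ≤ dist (pv q b) (ps K q j)) (hj₀ : j₀ ∈ us m n → d₁ ≤ dist (pv q b) (ps K q j₀))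
    (hb : d₂ ≤ dist (pv q b) (pv q (!b)))
    (hg : ∀ j ∈ us m n, ∀ l ≤ L, ∀ c < NN l, |K.tc l c (ps K q j)| ≤ 1 / 2 →
      gd τ (K.va l c q.1 (K.tc l c (ps K q j))) (K.tc l c (ps K q j))) :
    ∃ κ ∈ tys m n L E, q ∈ Cd K τ m n b κ ∧ Dt K τ κ ≤ 2 ^ 20 * B / (τ * (d₁ * d₂ ^ s)) := by
  have h2' : 0 < d₂ := h1.trans_le h12
  have hB : 1 ≤ B := hK.sy.hB
  have hs := hK.hs
  have hs1 := hK.hs1
  have hNL : 1024 / d₁ ≤ (NN L : ℝ) := hL
  have hNLp := NNp6 L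
  have hL1 : 1024 ≤ (NN L : ℝ) * d₁ := by rwa [div_le_iff₀ h1] at hNL
  have hden : 0 < τ * (d₁ * d₂ ^ s) := by positivity
  by_cases hcase : j₀ ∈ us m n ∧ dist (pv q b) (ps K q j₀) ≤ d₂ / 64
  · obtain ⟨hj0, hD⟩ := hcase
    have hD1 := hj₀ hj0
    obtain ⟨l, hl, hl1, hl2⟩ := lev6 (L := L) h2' h2 (by rw [div_le_iff₀ hNLp]; nlinarith)
    have hNl := NNp6 l
    rw [le_div_iff₀ h2'] at hl2
    have hnear : dist (pv q b) (ps K q j₀) ≤ 1 / (8 * (NN l : ℝ)) := by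
      refine hD.trans ?_
      rw [div_le_div_iff₀ (by norm_num) (by positivity)]
      nlinarith
    obtain ⟨l', hl', ht⟩ := hK.near l _ _ hnear
    have hge : (NN l : ℝ) ≤ NN l' := by
      rcases hl' with rfl | rfl
      · exact le_rfl
      · rw [NNs6]; linarith
    have hle : (NN l' : ℝ) * d₂ ≤ 16 := by
      rcases hl' with rfl | rfl
      · linarith
      · rw [NNs6]; nlinarith
    have hl'L : l' ≤ L := by
      apply NNm6
      have e1 : (NN l' : ℝ) * d₁ ≤ 16 := le_trans (mul_le_mul_of_nonneg_left h12 (NNp6 l').le) hle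
      have e2 : (NN l' : ℝ) * d₁ ≤ NN L * d₁ := by linarith
      exact le_of_mul_le_mul_right e2 h1
    obtain ⟨e, he, he1, he2⟩ := exp6 (D := dist (pv q b) (ps K q j₀)) (E := E)
      (by linarith) (hE.trans hD1)
    have hNl' := NNp6 l'
    have hfar : 2 / (NN l' : ℝ) ≤ d₂ := le_trans (div_le_div_of_nonneg_left (by norm_num) hNl hge) hl1
    refine ⟨Ty.sl l' j₀ e, sl_mem6 hl'L hj0 he, ?_, ?_⟩
    · refine ⟨hj0, ht, he1, ?_, ?_, ?_⟩
      · exact hg j₀ hj0 l' hl'L _ (hK.sy.cel_lt l' _) ht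
      · intro j hjm hjne
        exact hfar.trans (hj j hjm hjne)
      · exact hfar.trans hb
    · unfold Dt
      have hamp := hK.amp2 l'
      have hx : 0 < dist (pv q b) (ps K q j₀) := h1.trans_le hD1
      have hNs : (NN l' : ℝ) ^ (1 + s) = NN l' * (NN l' : ℝ) ^ s := by
        rw [Real.rpow_add hNl', Real.rpow_one]
      have h16 : (NN l' : ℝ) ^ s * d₂ ^ s ≤ 16 := by
        rw [← Real.mul_rpow hNl'.le h2'.le]
        calc ((NN l' : ℝ) * d₂) ^ s ≤ (16 : ℝ) ^ s := Real.rpow_le_rpow (by positivity) hle hs.le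
          _ ≤ (16 : ℝ) ^ (1 : ℝ) := Real.rpow_le_rpow_of_exponent_le (by norm_num) hs1.le
          _ = 16 := Real.rpow_one _
      rw [div_le_div_iff₀ (by positivity) hden]
      have hap : 0 ≤ 1 / |K.amp l'| := by positivity
      have hc1 : 3 + 1 / |K.amp l'| ≤ 3 * (B * (NN l' * (NN l' : ℝ) ^ s)) := by
        rw [← hNs]
        linarith
      have hs0 : 0 < (NN l' : ℝ) ^ s := Real.rpow_pos_of_pos hNl' s
      have hd0 : 0 < d₂ ^ s := Real.rpow_pos_of_pos h2' s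
      calc (3 + 1 / |K.amp l'|) * (τ * (d₁ * d₂ ^ s))
          ≤ (3 * (B * (NN l' * (NN l' : ℝ) ^ s))) * (τ * (d₁ * d₂ ^ s)) :=
            mul_le_mul_of_nonneg_right hc1 hden.le
        _ = 3 * B * τ * (NN l') * d₁ * ((NN l' : ℝ) ^ s * d₂ ^ s) := by ring
        _ ≤ 3 * B * τ * (NN l') * d₁ * 16 := by
            apply mul_le_mul_of_nonneg_left h16
            positivity
        _ = 48 * (B * τ * NN l') * d₁ := by ring
        _ ≤ 48 * (B * τ * NN l') * (2 * (2 : ℝ)⁻¹ ^ e) := by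
            apply mul_le_mul_of_nonneg_left _ (by positivity)
            linarith
        _ = 96 * (B * τ * NN l' * (2 : ℝ)⁻¹ ^ e) := by ring
        _ ≤ 2 ^ 20 * (B * τ * NN l' * (2 : ℝ)⁻¹ ^ e) := by
            apply mul_le_mul_of_nonneg_right (by norm_num)
            positivity
        _ = 2 ^ 20 * B * (τ * (NN l' * (2 : ℝ)⁻¹ ^ e)) := by ring
  · have hfar : ∀ j ∈ us m n, d₂ / 64 ≤ dist (pv q b) (ps K q j) := by
      intro j hjm
      by_cases hjj : j = j₀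
      · subst hjj
        rw [not_and, not_le] at hcase
        exact (hcase hjm).le
      · exact le_trans (by linarith) (hj j hjm hjj)
    obtain ⟨l, hl, hl1, hl2⟩ := lev6 (L := L) (δ := d₂ / 64) (by positivity) (by linarith)
      (by rw [div_le_iff₀ hNLp]; nlinarith)
    have hNl := NNp6 l
    rw [le_div_iff₀ (by positivity)] at hl2
    refine ⟨Ty.pl l, pl_mem6 hl, ?_, ?_⟩
    · exact ⟨fun j hjm => hl1.trans (hfar j hjm), hl1.trans (le_trans (by linarith) hb)⟩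
    · unfold Dt
      refine (hK.sy.amp_bd l).trans ?_
      have hNs : (NN l : ℝ) ^ (1 + s) = NN l * (NN l : ℝ) ^ s := by
        rw [Real.rpow_add hNl, Real.rpow_one]
      have hle : (NN l : ℝ) * d₂ ≤ 512 := by linarith
      have h512 : (NN l : ℝ) ^ s * d₂ ^ s ≤ 512 := by
        rw [← Real.mul_rpow hNl.le h2'.le]
        calc ((NN l : ℝ) * d₂) ^ s ≤ (512 : ℝ) ^ s := Real.rpow_le_rpow (by positivity) hle hs.le
          _ ≤ (512 : ℝ) ^ (1 : ℝ) := Real.rpow_le_rpow_of_exponent_le (by norm_num) hs1.le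
          _ = 512 := Real.rpow_one _
      have hs0 : 0 < (NN l : ℝ) ^ s := Real.rpow_pos_of_pos hNl s
      have hd0 : 0 < d₂ ^ s := Real.rpow_pos_of_pos h2' s
      rw [hNs, le_div_iff₀ hden]
      have hB0 : 0 ≤ B := by linarith
      calc B * (NN l * (NN l : ℝ) ^ s) * (τ * (d₁ * d₂ ^ s))
          = B * τ * (NN l * d₁) * ((NN l : ℝ) ^ s * d₂ ^ s) := by ring
        _ ≤ B * τ * (NN l * d₁) * 512 := mul_le_mul_of_nonneg_left h512 (by positivity)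
        _ ≤ B * τ * (NN l * d₂) * 512 := by
            apply mul_le_mul_of_nonneg_right _ (by norm_num)
            apply mul_le_mul_of_nonneg_left _ (by positivity)
            exact mul_le_mul_of_nonneg_left h12 hNl.le
        _ ≤ B * τ * 512 * 512 := by
            apply mul_le_mul_of_nonneg_right _ (by norm_num)
            exact mul_le_mul_of_nonneg_left hle (by positivity)
        _ ≤ B * 1 * 512 * 512 := by
            apply mul_le_mul_of_nonneg_right _ (by norm_num)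
            apply mul_le_mul_of_nonneg_right _ (by norm_num)
            exact mul_le_mul_of_nonneg_left hτ1 hB0
        _ ≤ 2 ^ 20 * B := by
            norm_num
            linarith

private theorem side6 {m n L : ℕ} {τ e₁ e₃ : ℝ} (h13 : e₁ ≤ e₃)
    {q : (ι → ℝ) × (T2 × T2)} (hq : q ∈ Gb K m n L τ e₁ e₃) (b σ : Bool) :
    ∃ (d : ℝ) (j₀ : Bool × ℕ), e₁ ≤ d ∧ d ≤ e₃ ∧ j₀.1 = σ ∧
      (∀ j ∈ us m n, j.1 = σ → d ≤ dist (pv q b) (ps K q j)) ∧
      (d = e₃ ∨ (j₀ ∈ us m n ∧ dist (pv q b) (ps K q j₀) = d)) ∧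
      (∀ j ∈ us m n, j.1 = σ → j ≠ j₀ → e₃ ≤ dist (pv q b) (ps K q j)) := by
  obtain ⟨g1, g2, g3, g4, g5⟩ := hq
  by_cases hne : ((us m n).filter fun j => j.1 = σ).Nonempty
  · obtain ⟨j₀, hj₀, hmin⟩ := Finset.exists_min_image _ (fun j => dist (pv q b) (ps K q j)) hne
    rw [Finset.mem_filter] at hj₀
    refine ⟨min e₃ (dist (pv q b) (ps K q j₀)), j₀, le_min h13 (g1 b j₀ hj₀.1), min_le_left _ _, hj₀.2, ?_, ?_, ?_⟩
    · intro j hj hjσ
      exact (min_le_right _ _).trans (hmin j (Finset.mem_filter.2 ⟨hj, hjσ⟩))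
    · rcases le_total e₃ (dist (pv q b) (ps K q j₀)) with h | h
      · exact Or.inl (min_eq_left h)
      · exact Or.inr ⟨hj₀.1, (min_eq_right h).symm⟩
    · intro j hj hjσ hjne
      have h1 := g3 b j hj j₀ hj₀.1 hjne (hjσ.trans hj₀.2.symm)
      rwa [max_eq_left (hmin j (Finset.mem_filter.2 ⟨hj, hjσ⟩))] at h1
  · refine ⟨e₃, (σ, 0), h13, le_rfl, rfl, ?_, Or.inl rfl, ?_⟩
    · intro j hj hjσ
      exact absurd ⟨j, Finset.mem_filter.2 ⟨hj, hjσ⟩⟩ hne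
    · intro j hj hjσ _
      exact absurd ⟨j, Finset.mem_filter.2 ⟨hj, hjσ⟩⟩ hne

private theorem one6 (hK : K.Ok B s) {m n L E : ℕ} {τ e₁ e₃ : ℝ} (hτ : 0 < τ) (hτ1 : τ ≤ 1) (h1 : 0 < e₁)
    (h3 : e₃ ≤ 1) (hL : 1024 / e₁ ≤ NN L) (hE : (2 : ℝ)⁻¹ ^ E ≤ e₁)
    {q : (ι → ℝ) × (T2 × T2)} (hq : q ∈ Gb K m n L τ e₁ e₃) (b : Bool) {l r : ℝ} {jl jr : Bool × ℕ}
    (hl : e₁ ≤ l) (hl3 : l ≤ e₃) (hjl : jl.1 = false) (cl1 : ∀ j ∈ us m n, j.1 = false → l ≤ dist (pv q b) (ps K q j))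
    (cl2 : ∀ j ∈ us m n, j.1 = false → j ≠ jl → e₃ ≤ dist (pv q b) (ps K q j))
    (hr : e₁ ≤ r) (hr3 : r ≤ e₃) (hjr : jr.1 = true) (cr1 : ∀ j ∈ us m n, j.1 = true → r ≤ dist (pv q b) (ps K q j))
    (cr2 : ∀ j ∈ us m n, j.1 = true → j ≠ jr → e₃ ≤ dist (pv q b) (ps K q j)) :
    ∃ κ ∈ tys m n L E, q ∈ Cd K τ m n b κ ∧ Dt K τ κ ≤ 2 ^ 20 * B / (τ * (min l r * max l r ^ s)) := by
  obtain ⟨g1, g2, g3, g4, g5⟩ := hq
  have hb : max l r ≤ dist (pv q b) (pv q (!b)) := by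
    refine (max_le hl3 hr3).trans ?_
    cases b
    · exact g4
    · rw [dist_comm]; exact g4
  have hm1 : e₁ ≤ min l r := le_min hl hr
  have hm0 : 0 < min l r := h1.trans_le hm1
  have hLL : 1024 / min l r ≤ NN L := (div_le_div_of_nonneg_left (by norm_num) h1 hm1).trans hL
  have hmm : min l r ≤ max l r := min_le_max
  have hM1 : max l r ≤ 1 := (max_le hl3 hr3).trans h3
  rcases le_total l r with hlr | hlr
  · refine pick1 hK hτ hτ1 hm0 hmm hM1 hLL (hE.trans hm1) b jl ?_ ?_ hb g5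
    · intro j hj hjne
      rcases hjb : j.1 with _ | _
      · exact (max_le hl3 hr3).trans (cl2 j hj hjb hjne)
      · rw [max_eq_right hlr]
        exact cr1 j hj hjb
    · intro hj
      exact (min_le_left _ _).trans (cl1 jl hj hjl)
  · refine pick1 hK hτ hτ1 hm0 hmm hM1 hLL (hE.trans hm1) b jr ?_ ?_ hb g5
    · intro j hj hjne
      rcases hjb : j.1 with _ | _
      · rw [max_eq_left hlr]
        exact cl1 j hj hjb
      · exact (max_le hl3 hr3).trans (cr2 j hj hjb hjne)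
    · intro hj
      exact (min_le_right _ _).trans (cr1 jr hj hjr)

private theorem Dt6 {τ : ℝ} (hτ : 0 < τ) (κ : Ty) : 0 ≤ Dt K τ κ := by
  cases κ with
  | pl l => unfold Dt; positivity
  | sl l j e => unfold Dt; positivity

theorem pick (hK : K.Ok B s) {m n L E : ℕ} {τ e₁ e₃ : ℝ} (hτ : 0 < τ) (hτ1 : τ ≤ 1) (h1 : 0 < e₁)
    (h13 : e₁ ≤ e₃) (h3 : e₃ ≤ 1) (hL : 1024 / e₁ ≤ NN L) (hE : (2 : ℝ)⁻¹ ^ E ≤ e₁)
    {q : (ι → ℝ) × (T2 × T2)} (hq : q ∈ Gb K m n L τ e₁ e₃) :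
    ∃ κ ∈ tys m n L E, ∃ κ' ∈ tys m n L E, q ∈ Cd K τ m n false κ ∧ q ∈ Cd K τ m n true κ' ∧
      Dt K τ κ * Dt K τ κ' ≤ 2 ^ 40 * B ^ 2 / (τ ^ 2 * (e₁ ^ 2 * e₃ ^ (2 * s))) := by
  obtain ⟨l, jl, a1, a2, a3, a4, a5, a6⟩ := side6 h13 hq false false
  obtain ⟨r, jr, b1, b2, b3, b4, b5, b6⟩ := side6 h13 hq false true
  obtain ⟨l', jl', c1, c2, c3, c4, c5, c6⟩ := side6 h13 hq true false
  obtain ⟨r', jr', d1, d2, d3, d4, d5, d6⟩ := side6 h13 hq true true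
  have h3' : 0 < e₃ := h1.trans_le h13
  have hprod : ∀ (x y : ℝ) (j j' : Bool × ℕ), e₁ ≤ x → e₁ ≤ y → j.1 = j'.1 →
      (x = e₃ ∨ (j ∈ us m n ∧ dist (pv q false) (ps K q j) = x)) →
      (y = e₃ ∨ (j' ∈ us m n ∧ dist (pv q true) (ps K q j') = y)) → e₁ * e₃ ≤ x * y := by
    intro x y j j' hx hy hjj hx' hy'
    rcases hx' with rfl | ⟨hj, rfl⟩
    · rw [mul_comm]
      exact mul_le_mul_of_nonneg_left hy h3'.le
    · rcases hy' with rfl | ⟨hj', rfl⟩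
      · exact mul_le_mul_of_nonneg_right hx h3'.le
      · exact hq.2.1 j hj j' hj' hjj
  have hll := hprod l l' jl jl' a1 c1 (a3.trans c3.symm) a5 c5
  have hrr := hprod r r' jr jr' b1 d1 (b3.trans d3.symm) b5 d5
  obtain ⟨κ, hκ, hκ1, hκ2⟩ := one6 hK hτ hτ1 h1 h3 hL hE hq false a1 a2 a3 a4 a6 b1 b2 b3 b4 b6
  obtain ⟨κ', hκ', hκ'1, hκ'2⟩ := one6 hK hτ hτ1 h1 h3 hL hE hq true c1 c2 c3 c4 c6 d1 d2 d3 d4 d6
  refine ⟨κ, hκ, κ', hκ', hκ1, hκ'1, ?_⟩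
  have hin := ineq hK.hs hK.hs1 h1 h13 a1 a2 b1 b2 c1 c2 d1 d2 hll hrr
  have hB0 : 0 < B := lt_of_lt_of_le one_pos hK.sy.hB
  have p1 : 0 < min l r * max l r ^ s :=
    mul_pos (h1.trans_le (le_min a1 b1)) (Real.rpow_pos_of_pos (h1.trans_le (a1.trans (le_max_left _ _))) s)
  have p2 : 0 < min l' r' * max l' r' ^ s :=
    mul_pos (h1.trans_le (le_min c1 d1)) (Real.rpow_pos_of_pos (h1.trans_le (c1.trans (le_max_left _ _))) s)
  have p3 : 0 < e₁ ^ 2 * e₃ ^ (2 * s) := by positivity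
  refine (mul_le_mul hκ2 hκ'2 (Dt6 hτ κ') (by positivity)).trans ?_
  rw [div_mul_div_comm]
  have e1 : (2 ^ 20 * B) * (2 ^ 20 * B) = 2 ^ 40 * B ^ 2 := by ring
  have e2 : τ * (min l r * max l r ^ s) * (τ * (min l' r' * max l' r' ^ s)) =
      τ ^ 2 * ((min l r * max l r ^ s) * (min l' r' * max l' r' ^ s)) := by ring
  rw [e1, e2]
  refine div_le_div_of_nonneg_left (by positivity) (by positivity) ?_
  exact mul_le_mul_of_nonneg_left hin (by positivity)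

end Pool.Agent.Helper18.PW
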