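import Pool.Agent.Helper18.PW.Dec
import Pool.Agent.Helper18.PW.Pick
import Pool.Agent.Helper18.PW.Ext
import Pool.Agent.Helper18.PW.Hyp

/-! Project PW: estimates for segments with a good base pair, probability of bad base pairs. -/

set_option autoImplicit false
open MeasureTheory Real Set
open scoped ENNReal

namespace Pool.Agent.Helper18.PW

open Pool.Agent.Helper18.FD (NN NN_pos NN_ge uu cl lm cl_of_mem)
open Pool.Agent.Helper18.PV

variable {ι : Type} [DecidableEq ι] {K : Sz ι} {B s : ℝ}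

lemma Dt_nonneg (K : Sz ι) {τ : ℝ} (hτ : 0 < τ) (κ : Ty) : 0 ≤ Dt K τ κ := by
  cases κ with
  | pl l => unfold Dt; positivity
  | sl l j e =>
    unfold Dt
    have : (0 : ℝ) < NN l := by exact_mod_cast NN_pos l
    positivity

lemma card_us (m n : ℕ) : (us m n).card ≤ m + n := by
  unfold us
  refine (Finset.card_union_le _ _).trans ?_
  rw [Finset.card_map, Finset.card_map, Nat.card_Ico, Nat.card_Ico]
  omega

lemma card_tys (m n L E : ℕ) : (tys m n L E).card ≤ (L + 1) * (1 + (m + n) * (E + 1)) := by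
  unfold tys
  refine (Finset.card_union_le _ _).trans ?_
  have h1 : ((Finset.range (L + 1)).image Ty.pl).card ≤ L + 1 :=
    Finset.card_image_le.trans (by rw [Finset.card_range])
  have h2 : (((Finset.range (L + 1)) ×ˢ (us m n) ×ˢ (Finset.range (E + 1))).image
      fun a => Ty.sl a.1 a.2.1 a.2.2).card ≤ (L + 1) * ((m + n) * (E + 1)) := by
    refine Finset.card_image_le.trans ?_
    rw [Finset.card_product, Finset.card_product, Finset.card_range, Finset.card_range]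
    exact Nat.mul_le_mul_left _ (Nat.mul_le_mul_right _ (card_us m n))
  calc _ ≤ (L + 1) + (L + 1) * ((m + n) * (E + 1)) := add_le_add h1 h2
    _ = _ := by ring

/-- segments with a good base pair and a test set -/
theorem base_est (hK : K.Ok B s) {τ : ℝ} (hτ : 0 < τ) (hτ1 : τ ≤ 1) {m n L E : ℕ} {e₁ e₃ : ℝ} (h1 : 0 < e₁)
    (h13 : e₁ ≤ e₃) (h3 : e₃ ≤ 1) (hL : 1024 / e₁ ≤ NN L) (hE : (2 : ℝ)⁻¹ ^ E ≤ e₁)
    {𝒯 : Set ((ι → ℝ) × (T2 × T2))} (hT : Tst K m n 𝒯) {δ : ℝ} (hδ0 : 0 ≤ δ)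
    (hδ : ((law ι).prod (volume : Measure (T2 × T2))) 𝒯 ≤ ENNReal.ofReal δ) :
    mu ι {p | (p.1, (tw K.toSy p.1 p.2.swap, tw K.toSy p.1 p.2)) ∈ Gb K m n L τ e₁ e₃ ∩ 𝒯} ≤
      ENNReal.ofReal ((((L : ℝ) + 1) * (1 + (m + n) * (E + 1))) ^ 2 *
        (2 ^ 40 * B ^ 2 / (τ ^ 2 * (e₁ ^ 2 * e₃ ^ (2 * s)))) * δ) := by
  obtain ⟨M, hM⟩ : ∃ M : ℝ, M = 2 ^ 40 * B ^ 2 / (τ ^ 2 * (e₁ ^ 2 * e₃ ^ (2 * s))) := ⟨_, rfl⟩
  rw [← hM]
  have he3 : 0 < e₃ := lt_of_lt_of_le h1 h13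
  have hM0 : 0 ≤ M := by rw [hM]; positivity
  obtain ⟨J, hJ⟩ : ∃ J : Finset (Ty × Ty), J = ((tys m n L E) ×ˢ (tys m n L E)).filter
      fun a => Dt K τ a.1 * Dt K τ a.2 ≤ M := ⟨_, rfl⟩
  obtain ⟨ks, hks⟩ : ∃ ks : Ty × Ty → Bool → Ty, ks = fun a b => if b then a.2 else a.1 := ⟨_, rfl⟩
  have hsub : {p : (ι → ℝ) × T2 | (p.1, (tw K.toSy p.1 p.2.swap, tw K.toSy p.1 p.2)) ∈ Gb K m n L τ e₁ e₃ ∩ 𝒯} ⊆
      ⋃ a ∈ J, {p | (p.1, (tw K.toSy p.1 p.2.swap, tw K.toSy p.1 p.2)) ∈ Sx K τ m n (ks a) 𝒯} := by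
    rintro p ⟨hp1, hp2⟩
    obtain ⟨κ, hκ, κ', hκ', c1, c2, c3⟩ := pick hK hτ hτ1 h1 h13 h3 hL hE hp1
    simp only [mem_iUnion]
    refine ⟨(κ, κ'), ?_, fun b => ?_, hp2⟩
    · rw [hJ]
      exact Finset.mem_filter.2 ⟨Finset.mem_product.2 ⟨hκ, hκ'⟩, by rw [hM]; exact c3⟩
    · rw [hks]
      cases b with
      | false => exact c1
      | true => exact c2
  have hone : ∀ a ∈ J, mu ι {p | (p.1, (tw K.toSy p.1 p.2.swap, tw K.toSy p.1 p.2)) ∈ Sx K τ m n (ks a) 𝒯} ≤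
      ENNReal.ofReal (M * δ) := by
    intro a ha
    rw [hJ] at ha
    have ha2 := (Finset.mem_filter.1 ha).2
    refine (dec_ty hK hτ hτ1 (ks a) hT).trans ?_
    rw [hks, ENNReal.ofReal_mul hM0, ← ENNReal.ofReal_mul (Dt_nonneg K hτ _)]
    exact mul_le_mul' (ENNReal.ofReal_le_ofReal ha2) hδ
  have hcard : (J.card : ℝ) ≤ (((L : ℝ) + 1) * (1 + (m + n) * (E + 1))) ^ 2 := by
    have h5 : J.card ≤ (tys m n L E).card * (tys m n L E).card := by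
      rw [hJ, ← Finset.card_product]
      exact Finset.card_filter_le _ _
    have h6 := card_tys m n L E
    have h7 : ((tys m n L E).card : ℝ) ≤ ((L : ℝ) + 1) * (1 + (m + n) * (E + 1)) := by exact_mod_cast h6
    calc (J.card : ℝ) ≤ ((tys m n L E).card : ℝ) * ((tys m n L E).card : ℝ) := by exact_mod_cast h5
      _ ≤ _ := by
        rw [sq]
        gcongr
  calc mu ι {p | (p.1, (tw K.toSy p.1 p.2.swap, tw K.toSy p.1 p.2)) ∈ Gb K m n L τ e₁ e₃ ∩ 𝒯}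
      ≤ mu ι (⋃ a ∈ J, {p | (p.1, (tw K.toSy p.1 p.2.swap, tw K.toSy p.1 p.2)) ∈ Sx K τ m n (ks a) 𝒯}) :=
        measure_mono hsub
    _ ≤ ∑ a ∈ J, mu ι {p | (p.1, (tw K.toSy p.1 p.2.swap, tw K.toSy p.1 p.2)) ∈ Sx K τ m n (ks a) 𝒯} :=
        measure_biUnion_finset_le _ _
    _ ≤ ∑ _a ∈ J, ENNReal.ofReal (M * δ) := Finset.sum_le_sum hone
    _ = ENNReal.ofReal (J.card * (M * δ)) := by
        rw [Finset.sum_const, nsmul_eq_mul, ENNReal.ofReal_mul (Nat.cast_nonneg _), ENNReal.ofReal_natCast]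
    _ ≤ _ := by
        apply ENNReal.ofReal_le_ofReal
        rw [mul_assoc]
        gcongr

/-! ### positions of a segment -/

/-- the triple (noise, past, future) at the base pair `(x_m, x_{m+1})` -/
noncomputable def qb (K : Sz ι) (m : ℕ) (p : (ι → ℝ) × T2) : (ι → ℝ) × (T2 × T2) :=
  (p.1, (tw K.toSy p.1 (wd K.toSy p.1 p.2 m, wd K.toSy p.1 p.2 (m + 1)),
    tw K.toSy p.1 (wd K.toSy p.1 p.2 (m + 1), wd K.toSy p.1 p.2 m)))

omit [DecidableEq ι] in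
lemma qb_pre (m : ℕ) (S : Set ((ι → ℝ) × (T2 × T2))) : {p : (ι → ℝ) × T2 | qb K m p ∈ S} =
    ((sk K.toSy)^[m]) ⁻¹' {p | (p.1, (tw K.toSy p.1 p.2.swap, tw K.toSy p.1 p.2)) ∈ S} := by
  ext p
  rw [mem_preimage, sk_iter, iter_eq]
  rfl

omit [DecidableEq ι] in
lemma qb_past (m : ℕ) (p : (ι → ℝ) × T2) {i : ℕ} (hi : i ≤ m) :
    wd K.toSy p.1 (qb K m p).2.1 i = wd K.toSy p.1 p.2 (m - i) := by
  show wd K.toSy p.1 (tw K.toSy p.1 (wd K.toSy p.1 p.2 m, wd K.toSy p.1 p.2 (m + 1))) i = _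
  rw [wd_tw, wd_rev p.1 p.2 m (i + 1) (by omega)]
  congr 1
  omega

omit [DecidableEq ι] in
lemma qb_fut (m : ℕ) (p : (ι → ℝ) × T2) (i : ℕ) :
    wd K.toSy p.1 (qb K m p).2.2 i = wd K.toSy p.1 p.2 (m + 1 + i) := by
  show wd K.toSy p.1 (tw K.toSy p.1 (wd K.toSy p.1 p.2 (m + 1), wd K.toSy p.1 p.2 m)) i = _
  have h4 := wd_iter (K := K.toSy) p.1 p.2 m (i + 1)
  rw [iter_eq] at h4
  rw [wd_tw, h4]
  congr 1
  omega

omit [DecidableEq ι] in
lemma pv_qb_false (m : ℕ) (p : (ι → ℝ) × T2) : pv (qb K m p) false = wd K.toSy p.1 p.2 m := rfl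

omit [DecidableEq ι] in
lemma pv_qb_true (m : ℕ) (p : (ι → ℝ) × T2) : pv (qb K m p) true = wd K.toSy p.1 p.2 (m + 1) := rfl

/-- the index of a position of `qb` -/
def ix (m : ℕ) (j : Bool × ℕ) : ℕ := if j.1 then m + 1 + j.2 else m - j.2

omit [DecidableEq ι] in
lemma ps_qb {m n : ℕ} (p : (ι → ℝ) × T2) {j : Bool × ℕ} (hj : j ∈ us m n) :
    ps K (qb K m p) j = wd K.toSy p.1 p.2 (ix m j) := by
  obtain ⟨b, i⟩ := j
  cases b with
  | false => exact qb_past m p (mem_us_false.1 hj).2.le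
  | true => exact qb_fut m p i

lemma ix_false {m n i : ℕ} (h : (false, i) ∈ us m n) : 1 ≤ ix m (false, i) ∧ ix m (false, i) < m := by
  have := mem_us_false.1 h
  show 1 ≤ m - i ∧ m - i < m
  omega

lemma ix_true {m n i : ℕ} (h : (true, i) ∈ us m n) :
    m + 2 ≤ ix m (true, i) ∧ ix m (true, i) < m + n + 2 := by
  have := mem_us_true.1 h
  show m + 2 ≤ m + 1 + i ∧ m + 1 + i < m + n + 2
  omega

/-- closeness products -/
noncomputable def bb (K : Sz ι) (i i' : ℕ) (P : ℝ) : ℝ :=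
  (mu ι).real {p | dist (wd K.toSy p.1 p.2 0) (wd K.toSy p.1 p.2 i) *
    dist (wd K.toSy p.1 p.2 1) (wd K.toSy p.1 p.2 i') < P}

omit [DecidableEq ι] in
lemma bb_mono (i i' : ℕ) : Monotone (bb K i i') := fun _ _ h =>
  measureReal_mono fun _ hp => lt_of_lt_of_le hp h

omit [DecidableEq ι] in
lemma bb_nonneg (i i' : ℕ) (P : ℝ) : 0 ≤ bb K i i' P := measureReal_nonneg

lemma meas_bb (hK : K.Ok B s) (a b c d : ℕ) (P : ℝ) :
    MeasurableSet {p : (ι → ℝ) × T2 | dist (wd K.toSy p.1 p.2 a) (wd K.toSy p.1 p.2 b) *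
    dist (wd K.toSy p.1 p.2 c) (wd K.toSy p.1 p.2 d) < P} :=
  measurableSet_lt ((meas_dist hK.sy a b).mul (meas_dist hK.sy c d)) measurable_const

/-- products: shift -/
lemma bb_shift (hK : K.Ok B s) (m i i' : ℕ) (P : ℝ) :
    mu ι {p | dist (wd K.toSy p.1 p.2 m) (wd K.toSy p.1 p.2 (m + i)) *
      dist (wd K.toSy p.1 p.2 (m + 1)) (wd K.toSy p.1 p.2 (m + i')) < P} = ENNReal.ofReal (bb K i i' P) := by
  have h1 : {p : (ι → ℝ) × T2 | dist (wd K.toSy p.1 p.2 m) (wd K.toSy p.1 p.2 (m + i)) *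
      dist (wd K.toSy p.1 p.2 (m + 1)) (wd K.toSy p.1 p.2 (m + i')) < P} =
      ((sk K.toSy)^[m]) ⁻¹' {p | dist (wd K.toSy p.1 p.2 0) (wd K.toSy p.1 p.2 i) *
        dist (wd K.toSy p.1 p.2 1) (wd K.toSy p.1 p.2 i') < P} := by
    ext p
    simp only [mem_ofPred_eq, mem_preimage, wd_sk, zero_add]
    rw [add_comm i, add_comm i', add_comm 1]
  rw [h1, stat_set hK.sy m (meas_bb hK 0 i 1 i' P), bb, Measure.real, ENNReal.ofReal_toReal (measure_ne_top _ _)]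

/-- reversal of a segment preserves the law -/
lemma rev_set (hK : K.Ok B s) (M : ℕ) {S : Set ((ι → ℝ) × T2)} (hS : MeasurableSet S) :
    mu ι {p | (p.1, (wd K.toSy p.1 p.2 M, wd K.toSy p.1 p.2 (M + 1))) ∈ S} = mu ι S := by
  have h1 : MeasurePreserving (fun p : (ι → ℝ) × T2 => (p.1, p.2.swap)) (mu ι) (mu ι) := by
    unfold mu
    exact (MeasurePreserving.id _).prod (Measure.measurePreserving_swap (μ := (volume : Measure Ci)) (ν := (volume : Measure Ci)))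
  have h2 : {p : (ι → ℝ) × T2 | (p.1, (wd K.toSy p.1 p.2 M, wd K.toSy p.1 p.2 (M + 1))) ∈ S} =
      ((sk K.toSy)^[M]) ⁻¹' ((fun p : (ι → ℝ) × T2 => (p.1, p.2.swap)) ⁻¹' S) := by
    ext p
    rw [mem_preimage, mem_preimage, sk_iter, iter_eq]
    rfl
  rw [h2, stat_set hK.sy M (h1.measurable hS), h1.measure_preimage hS.nullMeasurableSet]

/-- products: reversed segment -/
lemma bb_rev (hK : K.Ok B s) {m i i' : ℕ} (hi : i ≤ m + 1) (hi' : i' ≤ m + 1) (P : ℝ) :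
    mu ι {p | dist (wd K.toSy p.1 p.2 (m + 1)) (wd K.toSy p.1 p.2 (m + 1 - i)) *
      dist (wd K.toSy p.1 p.2 m) (wd K.toSy p.1 p.2 (m + 1 - i')) < P} = ENNReal.ofReal (bb K i i' P) := by
  have h1 : {p : (ι → ℝ) × T2 | dist (wd K.toSy p.1 p.2 (m + 1)) (wd K.toSy p.1 p.2 (m + 1 - i)) *
      dist (wd K.toSy p.1 p.2 m) (wd K.toSy p.1 p.2 (m + 1 - i')) < P} =
      {p | (p.1, (wd K.toSy p.1 p.2 m, wd K.toSy p.1 p.2 (m + 1))) ∈
        {p : (ι → ℝ) × T2 | dist (wd K.toSy p.1 p.2 0) (wd K.toSy p.1 p.2 i) *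
        dist (wd K.toSy p.1 p.2 1) (wd K.toSy p.1 p.2 i') < P}} := by
    ext p
    simp only [mem_ofPred_eq]
    rw [wd_rev p.1 p.2 m i hi, wd_rev p.1 p.2 m i' hi', wd_zero, wd_one]
  rw [h1, rev_set hK m (meas_bb hK 0 i 1 i' P), bb, Measure.real, ENNReal.ofReal_toReal (measure_ne_top _ _)]

end Pool.Agent.Helper18.PW
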