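import Pool.Agent.Helper18.PW.SK

/-! Project PW: double decoupling with two kicks of arbitrary types. -/

set_option autoImplicit false
open MeasureTheory Real Set
open scoped ENNReal

namespace Pool.Agent.Helper18.PW

open Pool.Agent.Helper18.FD (NN NN_pos NN_ge uu cl lm cl_of_mem)
open Pool.Agent.Helper18.PV

variable {ι : Type} [DecidableEq ι] {K : Sz ι} {B s : ℝ}

/-- general double decoupling -/
theorem dec_gen (hK : K.Ok B s) {S' : Set ((ι → ℝ) × (T2 × T2))} (hS : MeasurableSet S') {D1 D2 : ℝ≥0∞}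
    (hD1 : D1 ≠ ∞) (hD2 : D2 ≠ ∞)
    (k1 : ∀ x x' : Ci, law ι {ω | (ω, ((x + x - x' + K.F ω x, x), (x' + x' - x + K.F ω x', x'))) ∈ S'} ≤
      D1 * ((law ι).prod volume) {q : (ι → ℝ) × Ci | (q.1, ((q.2, x), (x' + x' - x + K.F q.1 x', x'))) ∈ S'})
    (k2 : ∀ x x' a : Ci, law ι {ω | (ω, ((a, x), (x' + x' - x + K.F ω x', x'))) ∈ S'} ≤
      D2 * ((law ι).prod volume) {q : (ι → ℝ) × Ci | (q.1, ((a, x), (q.2, x'))) ∈ S'}) :
    mu ι {p | (p.1, (tw K.toSy p.1 p.2.swap, tw K.toSy p.1 p.2)) ∈ S'} ≤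
      D1 * D2 * ((law ι).prod (volume : Measure (T2 × T2))) S' := by
  obtain ⟨G, hGd⟩ : ∃ G : (ι → ℝ) × (T2 × T2) → ℝ≥0∞, G = S'.indicator 1 := ⟨_, rfl⟩
  have hG : Measurable G := by rw [hGd]; exact measurable_one.indicator hS
  have hm : Measurable fun p : (ι → ℝ) × T2 => (p.1, (tw K.toSy p.1 p.2.swap, tw K.toSy p.1 p.2)) := by
    have e1 : Measurable fun p : (ι → ℝ) × T2 => (p.1, p.2.swap) :=
      measurable_fst.prodMk (measurable_swap.comp measurable_snd)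
    exact measurable_fst.prodMk (((meas_tw hK.sy).comp e1).prodMk (meas_tw hK.sy))
  have hpre : MeasurableSet {p : (ι → ℝ) × T2 | (p.1, (tw K.toSy p.1 p.2.swap, tw K.toSy p.1 p.2)) ∈ S'} := hm hS
  have key : ∀ z : T2, law ι ((fun ω => (ω, z)) ⁻¹' {p : (ι → ℝ) × T2 |
      (p.1, (tw K.toSy p.1 p.2.swap, tw K.toSy p.1 p.2)) ∈ S'}) ≤
      D1 * D2 * ∫⁻ ω, (∫⁻ w : T2, G (ω, ((w.1, z.2), (w.2, z.1)))) ∂(law ι) := by
    intro z
    have hF : Measurable fun ω : ι → ℝ => K.F ω z.1 := hK.sy.meas.comp (measurable_id.prodMk measurable_const)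
    have hF' : Measurable fun q : (ι → ℝ) × Ci => K.F q.1 z.1 := hF.comp measurable_fst
    have hm1 : MeasurableSet {q : (ι → ℝ) × Ci |
        (q.1, ((q.2, z.2), (z.1 + z.1 - z.2 + K.F q.1 z.1, z.1))) ∈ S'} := by
      have : Measurable fun q : (ι → ℝ) × Ci => (q.1, ((q.2, z.2), (z.1 + z.1 - z.2 + K.F q.1 z.1, z.1))) :=
        measurable_fst.prodMk ((measurable_snd.prodMk measurable_const).prodMk
          ((measurable_const.add hF').prodMk measurable_const))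
      exact this hS
    have hm2 : ∀ a : Ci, MeasurableSet {q : (ι → ℝ) × Ci | (q.1, ((a, z.2), (q.2, z.1))) ∈ S'} := by
      intro a
      have : Measurable fun q : (ι → ℝ) × Ci => (q.1, ((a, z.2), (q.2, z.1))) :=
        measurable_fst.prodMk (measurable_const.prodMk (measurable_snd.prodMk measurable_const))
      exact this hS
    have e0 := k1 z.2 z.1
    have e1 : (fun ω => (ω, z)) ⁻¹' {p : (ι → ℝ) × T2 |
        (p.1, (tw K.toSy p.1 p.2.swap, tw K.toSy p.1 p.2)) ∈ S'} =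
        {ω | (ω, ((z.2 + z.2 - z.1 + K.F ω z.2, z.2), (z.1 + z.1 - z.2 + K.F ω z.1, z.1))) ∈ S'} := rfl
    rw [e1]
    refine e0.trans ?_
    rw [mul_assoc]
    refine mul_le_mul_right ?_ _
    rw [Measure.prod_apply_symm hm1]
    have e2 : ∀ a : Ci, law ι ((fun ω => (ω, a)) ⁻¹' {q : (ι → ℝ) × Ci |
        (q.1, ((q.2, z.2), (z.1 + z.1 - z.2 + K.F q.1 z.1, z.1))) ∈ S'}) ≤
        D2 * ∫⁻ ω, (∫⁻ b : Ci, G (ω, ((a, z.2), (b, z.1)))) ∂(law ι) := by
      intro a
      refine (k2 z.2 z.1 a).trans ?_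
      refine mul_le_mul_right (le_of_eq ?_) _
      rw [Measure.prod_apply (hm2 a)]
      refine lintegral_congr fun ω => ?_
      rw [← lintegral_indicator_one (measurable_prodMk_left (hm2 a)), hGd]
      rfl
    calc ∫⁻ a : Ci, law ι ((fun ω => (ω, a)) ⁻¹' {q : (ι → ℝ) × Ci |
          (q.1, ((q.2, z.2), (z.1 + z.1 - z.2 + K.F q.1 z.1, z.1))) ∈ S'})
        ≤ ∫⁻ a : Ci, D2 * ∫⁻ ω, (∫⁻ b : Ci, G (ω, ((a, z.2), (b, z.1)))) ∂(law ι) := lintegral_mono e2
      _ = D2 * ∫⁻ a : Ci, ∫⁻ ω, (∫⁻ b : Ci, G (ω, ((a, z.2), (b, z.1)))) ∂(law ι) :=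
          lintegral_const_mul' _ _ hD2
      _ = D2 * ∫⁻ ω, (∫⁻ w : T2, G (ω, ((w.1, z.2), (w.2, z.1)))) ∂(law ι) := by
          congr 1
          have e3 : Measurable fun r : Ci × (ι → ℝ) => ∫⁻ b : Ci, G (r.2, ((r.1, z.2), (b, z.1))) := by
            have : Measurable fun r : (Ci × (ι → ℝ)) × Ci => G (r.1.2, ((r.1.1, z.2), (r.2, z.1))) := by
              apply hG.comp
              fun_prop
            exact this.lintegral_prod_right'
          rw [lintegral_lintegral_swap e3.aemeasurable]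
          refine lintegral_congr fun ω => ?_
          have e4 : Measurable fun w : T2 => G (ω, ((w.1, z.2), (w.2, z.1))) := by
            apply hG.comp
            fun_prop
          exact (lintegral_prod (μ := (volume : Measure Ci)) (ν := (volume : Measure Ci))
            (fun w : T2 => G (ω, ((w.1, z.2), (w.2, z.1)))) e4.aemeasurable).symm
  calc mu ι {p | (p.1, (tw K.toSy p.1 p.2.swap, tw K.toSy p.1 p.2)) ∈ S'}
      = ∫⁻ z : T2, law ι ((fun ω => (ω, z)) ⁻¹' {p : (ι → ℝ) × T2 |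
          (p.1, (tw K.toSy p.1 p.2.swap, tw K.toSy p.1 p.2)) ∈ S'}) := by
        rw [mu, Measure.prod_apply_symm hpre]
    _ ≤ ∫⁻ z : T2, D1 * D2 * ∫⁻ ω, (∫⁻ w : T2, G (ω, ((w.1, z.2), (w.2, z.1)))) ∂(law ι) :=
        lintegral_mono key
    _ = D1 * D2 * ∫⁻ z : T2, ∫⁻ ω, (∫⁻ w : T2, G (ω, ((w.1, z.2), (w.2, z.1)))) ∂(law ι) :=
        lintegral_const_mul' _ _ (ENNReal.mul_ne_top hD1 hD2)
    _ = D1 * D2 * ((law ι).prod (volume : Measure (T2 × T2))) S' := by
        rw [pm_int hG, hGd, lintegral_indicator_one hS]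

/-- the plain kick -/
theorem pkick (hK : K.Ok B s) (l : ℕ) (x : Ci) (g : Ci) {S : Set ((ι → ℝ) × Ci)} (hS : MeasurableSet S)
    (h : ∀ q ∈ S, ∀ u : ℝ, (Function.update q.1 (K.idx l (K.cel l x)) u, q.2) ∈ S) :
    law ι {ω | (ω, g + K.F ω x) ∈ S} ≤
      ENNReal.ofReal (1 + 1 / (2 * |K.amp l|)) * ((law ι).prod volume) S := by
  obtain ⟨i, hi⟩ : ∃ i, i = K.idx l (K.cel l x) := ⟨_, rfl⟩
  rw [← hi] at h
  obtain ⟨G, hGd⟩ : ∃ G : (ι → ℝ) × Ci → ℝ≥0∞, G = S.indicator 1 := ⟨_, rfl⟩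
  have hG : Measurable G := by rw [hGd]; exact measurable_one.indicator hS
  have hF : Measurable fun ω : ι → ℝ => (ω, g + K.F ω x) :=
    measurable_id.prodMk (measurable_const.add (hK.sy.meas.comp (measurable_id.prodMk measurable_const)))
  have hinv : ∀ (ω : ι → ℝ) (u : ℝ) (a : Ci), G (Function.update ω i u, a) = G (ω, a) := by
    intro ω u a
    have e1 : ((Function.update ω i u, a) ∈ S) ↔ ((ω, a) ∈ S) := by
      constructor
      · intro h3
        have h4 := h _ h3 (ω i)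
        simp only [Function.update_idem, Function.update_eq_self] at h4
        exact h4
      · intro h3
        exact h _ h3 u
    rw [hGd]
    by_cases h5 : (ω, a) ∈ S
    · rw [indicator_of_mem h5, indicator_of_mem (e1.2 h5)]; rfl
    · rw [indicator_of_notMem h5, indicator_of_notMem (fun h' => h5 (e1.1 h'))]
  have hH : Measurable fun ω : ι → ℝ => G (ω, g + K.F ω x) := hG.comp hF
  have e1 : law ι {ω | (ω, g + K.F ω x) ∈ S} = ∫⁻ ω, G (ω, g + K.F ω x) ∂(law ι) := by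
    have hset : MeasurableSet {ω : ι → ℝ | (ω, g + K.F ω x) ∈ S} := hF hS
    rw [← lintegral_indicator_one hset, hGd]
    rfl
  have e2 : ((law ι).prod volume) S = ∫⁻ ω, (∫⁻ a : Ci, G (ω, a)) ∂(law ι) := by
    rw [← lintegral_indicator_one hS, ← hGd]
    exact lintegral_prod _ hG.aemeasurable
  rw [e1, e2, res1 i hH, ← lintegral_const_mul' _ _ ENNReal.ofReal_ne_top]
  refine lintegral_mono fun ω => ?_
  have e3 : ∀ u : ℝ, G (Function.update ω i u, g + K.F (Function.update ω i u) x) =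
      G (ω, (g + K.F (Function.update ω i 0) x) + ((K.amp l * cl u : ℝ) : Ci)) := by
    intro u
    have h4 := hK.sy.on l ω u x
    rw [← hi] at h4
    rw [hinv, h4, add_assoc]
  simp only [e3]
  exact rand' (hK.sy.amp_ne l) _ (hG.comp (measurable_const.prodMk measurable_id))

/-! ### the kick of a given type at one of the two base positions -/

lemma mem_us_false {m n i : ℕ} : (false, i) ∈ us m n ↔ 1 ≤ i ∧ i < m := by
  unfold us
  rw [Finset.mem_union, Finset.mem_map, Finset.mem_map]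
  constructor
  · rintro (⟨a, ha, h⟩ | ⟨a, ha, h⟩)
    · have h2 : a = i := (Prod.ext_iff.1 h).2
      rw [← h2]
      exact Finset.mem_Ico.1 ha
    · have h2 : true = false := (Prod.ext_iff.1 h).1
      cases h2
  · intro h
    exact Or.inl ⟨i, Finset.mem_Ico.2 h, rfl⟩

lemma mem_us_true {m n i : ℕ} : (true, i) ∈ us m n ↔ 1 ≤ i ∧ i < n + 1 := by
  unfold us
  rw [Finset.mem_union, Finset.mem_map, Finset.mem_map]
  constructor
  · rintro (⟨a, ha, h⟩ | ⟨a, ha, h⟩)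
    · have h2 : false = true := (Prod.ext_iff.1 h).1
      cases h2
    · have h2 : a = i := (Prod.ext_iff.1 h).2
      rw [← h2]
      exact Finset.mem_Ico.1 ha
  · intro h
    exact Or.inr ⟨i, Finset.mem_Ico.2 h, rfl⟩

/-- test sets depend on the noise only through the two orbits -/
structure Tst (K : Sz ι) (m n : ℕ) (𝒯 : Set ((ι → ℝ) × (T2 × T2))) : Prop where
  meas : MeasurableSet 𝒯
  inv : ∀ (ω ω' : ι → ℝ) (α β : T2), (∀ i ≤ m, wd K.toSy ω' α i = wd K.toSy ω α i) →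
    (∀ i ≤ n + 1, wd K.toSy ω' β i = wd K.toSy ω β i) → (ω, (α, β)) ∈ 𝒯 → (ω', (α, β)) ∈ 𝒯

omit [DecidableEq ι] in
lemma ps_same {m n : ℕ} {ω ω' : ι → ℝ} {α β : T2}
    (h : ∀ j ∈ us m n, K.F ω' (ps K (ω, (α, β)) j) = K.F ω (ps K (ω, (α, β)) j)) :
    (∀ i ≤ m, wd K.toSy ω' α i = wd K.toSy ω α i) ∧ ∀ i ≤ n + 1, wd K.toSy ω' β i = wd K.toSy ω β i :=
  ⟨wd_congr fun i h1 h2 => h (false, i) (mem_us_false.2 ⟨h1, h2⟩),
    wd_congr fun i h1 h2 => h (true, i) (mem_us_true.2 ⟨h1, h2⟩)⟩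

omit [DecidableEq ι] in
lemma ps_eq {m n : ℕ} {ω ω' : ι → ℝ} {α β : T2} (h1 : ∀ i ≤ m, wd K.toSy ω' α i = wd K.toSy ω α i)
    (h2 : ∀ i ≤ n + 1, wd K.toSy ω' β i = wd K.toSy ω β i) {j : Bool × ℕ} (hj : j ∈ us m n) :
    ps K (ω', (α, β)) j = ps K (ω, (α, β)) j := by
  obtain ⟨b, i⟩ := j
  cases b with
  | false => exact h1 i (mem_us_false.1 hj).2.le
  | true => exact h2 i (mem_us_true.1 hj).2.le

omit [DecidableEq ι] in
/-- if the forces at the used positions other than `j₀` do not change, then the position `j₀` does not change -/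
lemma ps_eq_one {m n : ℕ} {ω ω' : ι → ℝ} {α β : T2} {j₀ : Bool × ℕ} (hj₀ : j₀ ∈ us m n)
    (h : ∀ j ∈ us m n, j ≠ j₀ → K.F ω' (ps K (ω, (α, β)) j) = K.F ω (ps K (ω, (α, β)) j)) :
    ps K (ω', (α, β)) j₀ = ps K (ω, (α, β)) j₀ := by
  obtain ⟨b, i⟩ := j₀
  cases b with
  | false =>
    have h0 := mem_us_false.1 hj₀
    exact wd_congr (n := i) (fun k h1 h2 => h (false, k) (mem_us_false.2 ⟨h1, by omega⟩)
      (fun h3 => by rw [Prod.mk.injEq] at h3; omega)) i le_rfl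
  | true =>
    have h0 := mem_us_true.1 hj₀
    exact wd_congr (n := i) (fun k h1 h2 => h (true, k) (mem_us_true.2 ⟨h1, by omega⟩)
      (fun h3 => by rw [Prod.mk.injEq] at h3; omega)) i le_rfl

omit [DecidableEq ι] in
lemma pv_eq (ω ω' : ι → ℝ) (w : T2 × T2) (b : Bool) : pv (ω', w) b = pv (ω, w) b := rfl

omit [DecidableEq ι] in
/-- the condition of a kick type depends on the noise only through the positions and the value of the kick at the neighbour -/
lemma Cd_congr {τ : ℝ} {m n : ℕ} {b : Bool} {κ : Ty} {ω ω' : ι → ℝ} {α β : T2}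
    (h1 : ∀ i ≤ m, wd K.toSy ω' α i = wd K.toSy ω α i) (h2 : ∀ i ≤ n + 1, wd K.toSy ω' β i = wd K.toSy ω β i)
    (h3 : ∀ l j₀ e, κ = Ty.sl l j₀ e →
      K.va l (K.cel l (pv (ω, (α, β)) b)) ω' (K.tc l (K.cel l (pv (ω, (α, β)) b)) (ps K (ω, (α, β)) j₀)) =
      K.va l (K.cel l (pv (ω, (α, β)) b)) ω (K.tc l (K.cel l (pv (ω, (α, β)) b)) (ps K (ω, (α, β)) j₀)))
    (h : (ω, (α, β)) ∈ Cd K τ m n b κ) : (ω', (α, β)) ∈ Cd K τ m n b κ := by
  have hp : ∀ j ∈ us m n, ps K (ω', (α, β)) j = ps K (ω, (α, β)) j := fun j hj => ps_eq h1 h2 hj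
  cases κ with
  | pl l =>
    obtain ⟨a1, a2⟩ := h
    refine ⟨fun j hj => ?_, a2⟩
    rw [hp j hj]
    exact a1 j hj
  | sl l j₀ e =>
    obtain ⟨a1, a2, a3, a4, a5, a6⟩ := h
    have h4 := h3 l j₀ e rfl
    have h5 := hp j₀ a1
    refine ⟨a1, ?_, ?_, ?_, fun j hj hj' => ?_, a6⟩
    · rw [h5]
      exact a2
    · rw [h5]
      exact a3
    · rw [h5, pv_eq ω ω', h4]
      exact a4
    · rw [hp j hj]
      exact a5 j hj hj'

/-- different cells for the two base positions -/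
lemma cell_ne (hK : K.Ok B s) {l l' : ℕ} {x x' : Ci} (h : 2 / (NN l : ℝ) ≤ dist x x') :
    ¬ (l' = l ∧ K.cel l' x' = K.cel l x) := by
  rintro ⟨rfl, h2⟩
  have hN : (0 : ℝ) < NN l' := by exact_mod_cast NN_pos l'
  have h3 := hK.inn l' x
  have h4 := hK.inn l' x'
  rw [h2] at h4
  have h5 := hK.td l' (K.cel l' x) x x' (hK.sy.cel_lt l' x) h3 h4
  have h6 : |K.tc l' (K.cel l' x) x - K.tc l' (K.cel l' x) x'| ≤ 1 := by
    have := abs_sub (K.tc l' (K.cel l' x) x) (K.tc l' (K.cel l' x) x')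
    linarith
  rw [div_le_iff₀ hN] at h
  linarith

/-- the event: types `κs` at the two base positions and a test set -/
def Sx (K : Sz ι) (τ : ℝ) (m n : ℕ) (κs : Bool → Ty) (𝒯 : Set ((ι → ℝ) × (T2 × T2))) :
    Set ((ι → ℝ) × (T2 × T2)) := {q | (∀ b, q ∈ Cd K τ m n b (κs b)) ∧ q ∈ 𝒯}

/-- a kick of type `κs b` at the base position `b` -/
theorem kick_b (hK : K.Ok B s) {τ : ℝ} (hτ : 0 < τ) (hτ1 : τ ≤ 1) {m n : ℕ} {κs : Bool → Ty}
    {𝒯 : Set ((ι → ℝ) × (T2 × T2))} (hT : Tst K m n 𝒯) (b : Bool) (x g : Ci) {P : (ι → ℝ) × Ci → T2 × T2}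
    (hPm : MeasurableSet {q : (ι → ℝ) × Ci | (q.1, P q) ∈ Sx K τ m n κs 𝒯})
    (hP1 : ∀ q, pv (q.1, P q) b = x)
    (hP2 : ∀ (ω ω' : ι → ℝ) (a : Ci), K.F ω' (pv (ω, P (ω, a)) (!b)) = K.F ω (pv (ω, P (ω, a)) (!b)) →
      P (ω', a) = P (ω, a)) :
    law ι {ω | (ω, P (ω, g + K.F ω x)) ∈ Sx K τ m n κs 𝒯} ≤
      ENNReal.ofReal (Dt K τ (κs b)) * ((law ι).prod volume) {q | (q.1, P q) ∈ Sx K τ m n κs 𝒯} := by
  -- invariance under a change of the cell of `x` which does not change the forces at the used positions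
  have main : ∀ (ω ω' : ι → ℝ) (a : Ci) (l c : ℕ) (u v : ℝ), c = K.cel l x → ω' = K.up l c u v ω →
      2 / (NN l : ℝ) ≤ dist x (pv (ω, P (ω, a)) (!b)) →
      (∀ j ∈ us m n, K.F ω' (ps K (ω, P (ω, a)) j) = K.F ω (ps K (ω, P (ω, a)) j)) →
      (∀ l₁ j₀ e, κs b = Ty.sl l₁ j₀ e → K.va l₁ (K.cel l₁ x) ω' (K.tc l₁ (K.cel l₁ x) (ps K (ω, P (ω, a)) j₀)) =
        K.va l₁ (K.cel l₁ x) ω (K.tc l₁ (K.cel l₁ x) (ps K (ω, P (ω, a)) j₀))) →
      (ω, P (ω, a)) ∈ Sx K τ m n κs 𝒯 → (ω', P (ω', a)) ∈ Sx K τ m n κs 𝒯 := by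
    intro ω ω' a l c u v hc hω' hd hF hv hm
    have e1 : P (ω', a) = P (ω, a) := by
      apply hP2
      rw [hω', hc]
      exact hK.off2 l _ ω u v x _ (hK.sy.cel_lt l x) (hK.inn l x) hd
    rw [e1]
    have hx : pv (ω, P (ω, a)) b = x := hP1 (ω, a)
    obtain ⟨α, β, hαβ⟩ : ∃ α β, P (ω, a) = (α, β) := ⟨_, _, rfl⟩
    rw [hαβ] at hF hv hm hx hd ⊢
    obtain ⟨w1, w2⟩ := ps_same hF
    obtain ⟨hm1, hm2⟩ := hm
    refine ⟨fun b' => ?_, hT.inv _ _ _ _ w1 w2 hm2⟩
    refine Cd_congr w1 w2 ?_ (hm1 b')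
    intro l₁ j₀ e hκ
    by_cases hb : b' = b
    · rw [hb] at hκ ⊢
      rw [hx]
      exact hv l₁ j₀ e hκ
    · have hb2 : b' = !b := by
        cases b <;> cases b' <;> simp_all
      rw [hb2, hω', hc]
      exact va_up_ne hK (cell_ne hK hd) u v _ ω
  rcases hκ : κs b with l | ⟨l, j₀, e⟩
  · -- plain kick
    refine pkick hK l x g hPm ?_
    rintro ⟨ω, a⟩ hq u
    have hq' : (ω, P (ω, a)) ∈ Sx K τ m n κs 𝒯 := hq
    have hc0 := hq'.1 b
    rw [hκ] at hc0
    obtain ⟨c1, c2⟩ := hc0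
    have hx : pv (ω, P (ω, a)) b = x := hP1 (ω, a)
    rw [hx] at c1 c2
    have e1 : Function.update ω (K.idx l (K.cel l x)) u = K.up l (K.cel l x) u (ω (K.i1 l (K.cel l x))) ω := by
      unfold Sz.up
      have h1 : ω (K.i1 l (K.cel l x)) = Function.update ω (K.idx l (K.cel l x)) u (K.i1 l (K.cel l x)) := by
        rw [Function.update_of_ne (hK.i01 l _ l _).symm]
      conv_rhs => rw [h1, Function.update_eq_self]
    refine main ω _ a l (K.cel l x) u (ω (K.i1 l (K.cel l x))) rfl e1 c2 (fun j hj => ?_) ?_ hq'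
    · rw [e1]
      exact hK.off2 l _ ω u _ x _ (hK.sy.cel_lt l x) (hK.inn l x) (c1 j hj)
    · intro l₁ j₀ e h3
      rw [hκ] at h3
      cases h3
  · -- slope kick
    obtain ⟨c, hc⟩ : ∃ c, c = K.cel l x := ⟨_, rfl⟩
    have hcN : c < NN l := by rw [hc]; exact hK.sy.cel_lt l x
    have hcx : |K.tc l c x| ≤ 1 / 2 := by rw [hc]; exact hK.inn l x
    have hη : (0 : ℝ) < (2 : ℝ)⁻¹ ^ e := by positivity
    have hN : (0 : ℝ) < NN l := by exact_mod_cast NN_pos l
    -- conditions for points of the set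
    have cond : ∀ q : (ι → ℝ) × Ci, (q.1, P q) ∈ Sx K τ m n κs 𝒯 → j₀ ∈ us m n ∧
        |K.tc l c (ps K (q.1, P q) j₀)| ≤ 1 / 2 ∧ (2 : ℝ)⁻¹ ^ e ≤ dist x (ps K (q.1, P q) j₀) ∧
        gd τ (K.va l c q.1 (K.tc l c (ps K (q.1, P q) j₀))) (K.tc l c (ps K (q.1, P q) j₀)) ∧
        (∀ j ∈ us m n, j ≠ j₀ → 2 / (NN l : ℝ) ≤ dist x (ps K (q.1, P q) j)) ∧
        2 / (NN l : ℝ) ≤ dist x (pv (q.1, P q) (!b)) := by
      intro q hq
      have hc0 := hq.1 b
      rw [hκ] at hc0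
      have hx : pv (q.1, P q) b = x := hP1 q
      have hc1 : q.1 = q.1 := rfl
      obtain ⟨a1, a2, a3, a4, a5, a6⟩ := hc0
      rw [hx] at a2 a3 a4 a5 a6
      rw [← hc] at a2 a4
      exact ⟨a1, a2, a3, a4, a5, a6⟩
    refine skick hK hcN hcx hη hτ hτ1 g hPm (T := fun q => K.tc l c (ps K (q.1, P q) j₀)) ?_ ?_ ?_ ?_
    · intro q hq u v
      obtain ⟨a1, a2, a3, a4, a5, a6⟩ := cond q hq
      show K.tc l c (ps K (K.up l c u v q.1, P (K.up l c u v q.1, q.2)) j₀) = K.tc l c (ps K (q.1, P q) j₀)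
      have e1 : P (K.up l c u v q.1, q.2) = P q :=
        hP2 q.1 _ q.2 (hK.off2 l c q.1 u v x _ hcN hcx a6)
      rw [e1]
      congr 1
      obtain ⟨α, β, hαβ⟩ : ∃ α β, P q = (α, β) := ⟨_, _, rfl⟩
      rw [hαβ] at a5 ⊢
      exact ps_eq_one a1 fun j hj hj' => hK.off2 l c q.1 u v x _ hcN hcx (a5 j hj hj')
    · intro q hq
      obtain ⟨a1, a2, a3, a4, a5, a6⟩ := cond q hq
      refine ⟨a2, ?_⟩
      have h5 := hK.td l c x _ hcN hcx a2
      rw [abs_sub_comm]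
      refine le_trans ?_ h5
      gcongr
    · intro q hq
      exact (cond q hq).2.2.2.1
    · intro q hq u hu v hv huv
      obtain ⟨a1, a2, a3, a4, a5, a6⟩ := cond q hq
      have hclu : cl u = u := cl_of_mem hu
      have hclv : cl v = v := cl_of_mem hv
      have hval : cl u + cl v * K.tc l c (ps K (q.1, P q) j₀) =
          K.va l c q.1 (K.tc l c (ps K (q.1, P q) j₀)) := by
        rw [hclu, hclv]
        exact huv
      refine main q.1 _ q.2 l c u v hc rfl a6 (fun j hj => ?_) ?_ hq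
      · by_cases hj0 : j = j₀
        · rw [hj0]
          exact F_up hK hcN a2 hval
        · exact hK.off2 l c q.1 u v x _ hcN hcx (a5 j hj hj0)
      · intro l₁ j₁ e₁ h3
        rw [hκ] at h3
        obtain ⟨rfl, rfl, rfl⟩ := Ty.sl.inj h3
        rw [← hc, va_up hK]
        exact hval

/-! ### measurability -/

lemma meas_ps (hK : K.Ok B s) (j : Bool × ℕ) : Measurable fun q : (ι → ℝ) × (T2 × T2) => ps K q j := by
  obtain ⟨b, i⟩ := j
  cases b with
  | false => exact (meas_wd hK.sy i).comp (measurable_fst.prodMk (measurable_fst.comp measurable_snd))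
  | true => exact (meas_wd hK.sy i).comp (measurable_fst.prodMk (measurable_snd.comp measurable_snd))

omit [DecidableEq ι] in
lemma meas_pv (b : Bool) : Measurable fun q : (ι → ℝ) × (T2 × T2) => pv q b := by
  cases b with
  | false => exact measurable_snd.comp (measurable_fst.comp measurable_snd)
  | true => exact measurable_snd.comp (measurable_snd.comp measurable_snd)

lemma meas_tcc (hK : K.Ok B s) (l : ℕ) (b : Bool) (j : Bool × ℕ) :
    Measurable fun q : (ι → ℝ) × (T2 × T2) => K.tc l (K.cel l (pv q b)) (ps K q j) := by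
  have h1 : Measurable fun r : ℕ × Ci => K.tc l r.1 r.2 :=
    measurable_from_prod_countable_right fun c => hK.mtc l c
  exact h1.comp (((hK.sy.mcel l).comp (meas_pv b)).prodMk (meas_ps hK j))

lemma meas_vac (hK : K.Ok B s) (l : ℕ) (b : Bool) (j : Bool × ℕ) :
    Measurable fun q : (ι → ℝ) × (T2 × T2) =>
      K.va l (K.cel l (pv q b)) q.1 (K.tc l (K.cel l (pv q b)) (ps K q j)) := by
  have h1 : Measurable fun r : ℕ × ((ι → ℝ) × ℝ) => K.va l r.1 r.2.1 r.2.2 :=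
    measurable_from_prod_countable_right fun c => meas_va K l c
  exact h1.comp (((hK.sy.mcel l).comp (meas_pv b)).prodMk (measurable_fst.prodMk (meas_tcc hK l b j)))

lemma meas_gd (τ : ℝ) : MeasurableSet {w : ℝ × ℝ | gd τ w.1 w.2} := by
  unfold gd
  exact measurableSet_le (measurable_fst.abs) (measurable_const.add (measurable_snd.abs.mul measurable_const))

lemma meas_Cd (hK : K.Ok B s) (τ : ℝ) (m n : ℕ) (b : Bool) (κ : Ty) : MeasurableSet (Cd K τ m n b κ) := by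
  cases κ with
  | pl l =>
    refine MeasurableSet.inter ?_ (measurableSet_le measurable_const ((meas_pv b).dist (meas_pv (!b))))
    show MeasurableSet {q : (ι → ℝ) × (T2 × T2) | ∀ j ∈ us m n, 2 / (NN l : ℝ) ≤ dist (pv q b) (ps K q j)}
    simp only [ofPred_forall]
    exact MeasurableSet.iInter fun j => MeasurableSet.iInter fun _ =>
      measurableSet_le measurable_const ((meas_pv b).dist (meas_ps hK j))
  | sl l j₀ e =>
    refine MeasurableSet.inter (MeasurableSet.const _) (MeasurableSet.inter ?_ (MeasurableSet.inter ?_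
      (MeasurableSet.inter ?_ (MeasurableSet.inter ?_ ?_))))
    · exact measurableSet_le (meas_tcc hK l b j₀).abs measurable_const
    · exact measurableSet_le measurable_const ((meas_pv b).dist (meas_ps hK j₀))
    · exact ((meas_vac hK l b j₀).prodMk (meas_tcc hK l b j₀)) (meas_gd τ)
    · show MeasurableSet {q : (ι → ℝ) × (T2 × T2) | ∀ j ∈ us m n, j ≠ j₀ → 2 / (NN l : ℝ) ≤ dist (pv q b) (ps K q j)}
      simp only [ofPred_forall]
      exact MeasurableSet.iInter fun j => MeasurableSet.iInter fun _ => MeasurableSet.iInter fun _ =>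
        measurableSet_le measurable_const ((meas_pv b).dist (meas_ps hK j))
    · exact measurableSet_le measurable_const ((meas_pv b).dist (meas_pv (!b)))

lemma meas_Sx (hK : K.Ok B s) (τ : ℝ) {m n : ℕ} (κs : Bool → Ty) {𝒯 : Set ((ι → ℝ) × (T2 × T2))}
    (hT : Tst K m n 𝒯) : MeasurableSet (Sx K τ m n κs 𝒯) := by
  refine MeasurableSet.inter ?_ hT.meas
  show MeasurableSet {q : (ι → ℝ) × (T2 × T2) | ∀ b, q ∈ Cd K τ m n b (κs b)}
  simp only [ofPred_forall]
  exact MeasurableSet.iInter fun b => meas_Cd hK τ m n b (κs b)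

/-- double decoupling with kicks of given types -/
theorem dec_ty (hK : K.Ok B s) {τ : ℝ} (hτ : 0 < τ) (hτ1 : τ ≤ 1) {m n : ℕ} (κs : Bool → Ty)
    {𝒯 : Set ((ι → ℝ) × (T2 × T2))} (hT : Tst K m n 𝒯) :
    mu ι {p | (p.1, (tw K.toSy p.1 p.2.swap, tw K.toSy p.1 p.2)) ∈ Sx K τ m n κs 𝒯} ≤
      ENNReal.ofReal (Dt K τ (κs false)) * ENNReal.ofReal (Dt K τ (κs true)) *
        ((law ι).prod (volume : Measure (T2 × T2))) 𝒯 := by
  have hS := meas_Sx hK τ κs hT
  refine (dec_gen (D1 := ENNReal.ofReal (Dt K τ (κs false))) (D2 := ENNReal.ofReal (Dt K τ (κs true))) hK hS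
    ENNReal.ofReal_ne_top ENNReal.ofReal_ne_top ?_ ?_).trans ?_
  · intro x x'
    have hF : Measurable fun q : (ι → ℝ) × Ci => K.F q.1 x' :=
      hK.sy.meas.comp (measurable_fst.prodMk measurable_const)
    have hP : Measurable fun q : (ι → ℝ) × Ci => (q.1, (((q.2, x), (x' + x' - x + K.F q.1 x', x')) : T2 × T2)) :=
      measurable_fst.prodMk ((measurable_snd.prodMk measurable_const).prodMk
        ((measurable_const.add hF).prodMk measurable_const))
    exact kick_b hK hτ hτ1 hT false x (x + x - x')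
      (P := fun q => ((q.2, x), (x' + x' - x + K.F q.1 x', x'))) (hP hS) (fun _ => rfl)
      (fun ω ω' a h => by
        have h' : K.F ω' x' = K.F ω x' := h
        show ((a, x), (x' + x' - x + K.F ω' x', x')) = ((a, x), (x' + x' - x + K.F ω x', x'))
        rw [h'])
  · intro x x' a
    have hP : Measurable fun q : (ι → ℝ) × Ci => (q.1, (((a, x), (q.2, x')) : T2 × T2)) :=
      measurable_fst.prodMk (measurable_const.prodMk (measurable_snd.prodMk measurable_const))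
    exact kick_b hK hτ hτ1 hT true x' (x' + x' - x)
      (P := fun q => ((a, x), (q.2, x'))) (hP hS) (fun _ => rfl) (fun _ _ _ _ => rfl)
  · exact mul_le_mul_right (measure_mono fun q hq => hq.2) _

end Pool.Agent.Helper18.PW
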