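import Pool.Agent.Helper18.PV.Rec

/-! Block PW-REC: solution of the closeness recursion for all `0 < s < 1`. (Real analysis only; compare `PV/Rec.lean`, `FD/Rec.lean` in `Pool/Agent/Helper18`, whose final part can be copied.)

`q g ρ` = probability that two positions at gap `g` are closer than `ρ`, `b i i' P` = probability that `dist (x_0, x_i) dist (x_1, x_i') < P`.

Notation `θ = 1 + s`, `R = 2 (1 + 2 s)/(2 + s) = 2 (θ + s)/(1 + θ)`: `θ ≤ R < 2` (`s < 1`). Choose `R'` with `R < R' < 2`, `δ₀ = R' - R`. `Λ = 1 + 2 log B ≥ 1`. Levels: `K_n = 2^n + 2`, `n ≥ 0` (`K_0 = 3, K_1 = 4, K_2 = 6`).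
If `k ≤ 2^(n+1) + 3` then `k/2 + 1 ≤ K_n` and `k/4 + 1 ≤ K_(n-1)` (`n ≥ 1`), `k/4 + 1 ≤ 2` for `n = 0` (omega after `n = 0, 1` or `2^n = 4 * 2^(n-2)`).
Thresholds (affine in `t`): `X_0 t = M₀ (t + Λ)`, `X_(n+1) t = R' X_n t' + M₁ (t' + Λ)`, `t' = t + M₂ (n + 2)`, `M₂, M₀, M₁` large constants depending on `s, C₀` chosen in this order (`M₂ ≥ 2`).
Claim by induction (pairs `n, n-1`): (A_n) `q g (exp (-x)) ≤ exp (-t)` for `1 ≤ g ≤ K_n`, `t ≥ 0`, `x ≥ X_n t`; (B_n) `b i i' (exp (-y)) ≤ exp (-t)` for `2 ≤ i ≤ K_n`, `2 ≤ i'`, `i' - 1 ≤ K_n`, `t ≥ 0`, `y ≥ (1 + 1/θ) X_n t`.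
`n = 0`: `q 1, q 2 ≤ 3 ρ`; `q 3`: `hA` with `k = 3`, `η = e₁ = e₃ = ε/100`, `τ = ε`, `ε = exp (-(t + M₂))` (there `b i i' (e₁ e₃) ≤ q i e₁ + q (i'-1) e₃` by `hbt`, gaps `≤ 2`), so `q 3 (exp (-x)) ≤ exp (-t)` for `x ≥ C (t + Λ)`; `b i i' P ≤ q i (P^(1/2)) + q (i'-1) (P^(1/2))` (`hbt`).
Step: given `t ≥ 0`, `3 ≤ k ≤ K_(n+1)` (smaller gaps by monotonicity of `X` in `n`): `X = X_n t'`, `ε = exp (-t')`, `e₁ = exp (-X)`, `e₃ = exp (-X/θ)`, `τ = exp (-t')/(1 + X)`, `η = exp (-h)`, `h = (2 + 2s/θ) X/(1 + θ) ≥ X`. Hypotheses of `hA`: `η ≤ e₁` so `q g η, q g e₁ ≤ ε` by (A_n);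
 `2 e₃ ≤ exp (-X_(n-1) t')` since `X_n/θ - log 2 ≥ X_(n-1)` (`R' ≥ θ`, `M₁ ≥ θ log 2`; for `n = 0` directly from `q 1, q 2 ≤ 3ρ`), `b i i' (e₁ e₃) ≤ ε` by (B_n). The four terms of `hA` at `ρ = exp (-r)` are each `≤ exp (-t)/4` if `r ≥ θ h + (log-terms) = R X + C (t' + n + Λ) + 6 log (1 + X)`, and
 `6 log (1 + X) ≤ δ₀ X + C`, so `r ≥ X_(n+1) t` suffices (`(2 + 2s/θ) X = (1 + θ) h`, `θ h = R X`; `C₀ k^3 ε ≤ exp (-t)/4` by the choice of `M₂`).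
 (B_(n+1)), `y ≥ (1 + 1/θ) X_(n+1) t`: if `i ≤ K_n` and `i' - 1 ≤ K_n`: (B_n). If exactly one of them is `≤ K_n`, say `i`: `hbt` with `δ = exp (-X_n (t+1))`: `q i δ ≤ exp (-(t+1))`, `q (i'-1) (P/δ) ≤ exp (-(t+1))` as `y - X_n (t+1) ≥ X_(n+1) (t+1)`, i.e. `X_(n+1) t/θ - X_n (t+1) ≥ X_(n+1)(t+1) - X_(n+1) t`
 (affine functions: with `X_n t = a_n t + b_n`: `a_(n+1) = R' a_n + M₁`, `b_(n+1) = R' (a_n M₂ (n+2) + b_n) + M₁ (M₂ (n+2) + Λ)`; enough `b_(n+1)/θ - b_n ≥ a_n + a_(n+1)`, from `R' ≥ θ`, `M₂` large); if `i' - 1 ≤ K_n < i` take `δ = P exp (X_n (t+1))`. If both are `> K_n`: `hB` with `k = max i i' ≤ 2^(n+1) + 3`,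
 same parameters: need `y - log (1 + y) ≥ (2 + 2s/θ) X + 6 log (1 + X) + C (t' + n + Λ)`, and `(1 + 1/θ) R = 2 + 2 s/θ`, the surplus `(1 + 1/θ)(δ₀ X + M₁ (t' + Λ))` covers the logarithms.
End: `a_n ≤ C R'^n`, `b_n ≤ C (n+1)^2 R'^n Λ`; for `g ≤ K` take `n` with `K ≤ 2^n + 2`, `2^n ≤ 2 K` and absorb `(n+1)^2 ≤ C' 2^(δ n)`: `β = log R'/log 2 + δ < 1`. -/

set_option autoImplicit false
open Real Set

namespace Pool.Agent.Helper18.PW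

open Pool.Agent.Helper18.FD (NN NN_pos NN_ge)

private lemma two_le_e99 : (2 : ℝ) ≤ Real.exp 1 := by
  have := Real.add_one_le_exp (1 : ℝ)
  linarith

private lemma six_le_e99 : (6 : ℝ) ≤ Real.exp 2 := by
  have h := Real.exp_one_gt_d9
  have h2 : Real.exp 2 = Real.exp 1 ^ 2 := by rw [← Real.exp_nat_mul]; norm_num
  rw [h2]
  nlinarith

private lemma logExp99 (X : ℝ) : Real.log (1 / Real.exp (-X)) = X := by
  rw [one_div, ← Real.exp_neg, neg_neg, Real.log_exp]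

private lemma comm99 {s C₀ B k X Y t' w : ℝ} (hX : 0 ≤ X) :
    C₀ * B ^ 2 * k ^ 3 * (1 + Real.log (1 / Real.exp (-X))) ^ 4 * w /
      ((Real.exp (-t') / (1 + X)) ^ 2 * Real.exp (-X) ^ 2 * Real.exp (-Y) ^ (2 * s)) =
    C₀ * B ^ 2 * k ^ 3 * (1 + X) ^ 6 * (w * Real.exp (2 * t' + 2 * X + 2 * s * Y)) := by
  rw [logExp99]
  have h1 : (0 : ℝ) < 1 + X := by linarith
  have h2 : Real.exp (-Y) ^ (2 * s) = Real.exp (-(2 * s * Y)) := by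
    rw [← Real.exp_mul]; congr 1; ring
  have h3 : Real.exp (-X) ^ 2 = Real.exp (-(2 * X)) := by
    rw [← Real.exp_nat_mul]; congr 1; push_cast; ring
  have h4 : Real.exp (-t') ^ 2 = Real.exp (-(2 * t')) := by
    rw [← Real.exp_nat_mul]; congr 1; push_cast; ring
  rw [div_pow, h2, h3, h4, Real.exp_add, Real.exp_add, Real.exp_neg, Real.exp_neg, Real.exp_neg]
  have e1 := (Real.exp_pos (2 * t')).ne'
  have e2 := (Real.exp_pos (2 * X)).ne'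
  have e3 := (Real.exp_pos (2 * s * Y)).ne'
  field_simp

private lemma last99 {C₀ k X t' : ℝ} (hC : 1 ≤ C₀) (hk : 1 ≤ k) (hX : 0 ≤ X) (ht : 0 ≤ t') :
    C₀ * k ^ 2 * (1 + Real.log (1 / Real.exp (-X))) * (Real.exp (-t') / (1 + X)) ^ 2 ≤
      C₀ * k ^ 3 * Real.exp (-t') := by
  rw [logExp99]
  have h1 : (1 : ℝ) ≤ 1 + X := by linarith
  have h2 : (1 + X) * (Real.exp (-t') / (1 + X)) ^ 2 ≤ Real.exp (-t') := by
    have h3 : Real.exp (-t') ≤ 1 := Real.exp_le_one_iff.2 (by linarith)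
    have h0 := Real.exp_pos (-t')
    have h5 : (1 + X) * (Real.exp (-t') / (1 + X)) ^ 2 = Real.exp (-t') * Real.exp (-t') / (1 + X) := by
      have : (1 + X) ≠ 0 := by linarith
      field_simp
    rw [h5, div_le_iff₀ (by linarith)]
    nlinarith
  have h4 : C₀ * k ^ 2 ≤ C₀ * k ^ 3 := by
    apply mul_le_mul_of_nonneg_left _ (by linarith)
    exact pow_le_pow_right₀ hk (by norm_num)
  calc C₀ * k ^ 2 * (1 + X) * (Real.exp (-t') / (1 + X)) ^ 2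
      = C₀ * k ^ 2 * ((1 + X) * (Real.exp (-t') / (1 + X)) ^ 2) := by ring
    _ ≤ C₀ * k ^ 3 * Real.exp (-t') := mul_le_mul h4 h2 (by positivity) (by positivity)

private def HA99 (s C₀ B : ℝ) (q : ℕ → ℝ → ℝ) (b : ℕ → ℕ → ℝ → ℝ) : Prop :=
  ∀ k : ℕ, 3 ≤ k → ∀ ρ η e₁ e₃ τ ε : ℝ, 0 < ρ → 0 < η → η ≤ 1 → 0 < e₁ → e₁ ≤ e₃ → e₃ ≤ 1 → 0 < τ → τ ≤ 1 →
        0 ≤ ε → (∀ g : ℕ, 1 ≤ g → g ≤ k / 2 + 1 → q g η ≤ ε) → (∀ g : ℕ, 1 ≤ g → g ≤ k / 2 + 1 → q g e₁ ≤ ε) →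
        (∀ g : ℕ, 1 ≤ g → g ≤ k / 4 + 1 → q g (2 * e₃) ≤ ε) →
        (∀ i i' : ℕ, 2 ≤ i → i ≤ k / 2 + 1 → 2 ≤ i' → i' ≤ k / 2 + 2 → b i i' (e₁ * e₃) ≤ ε) →
        q k ρ ≤ C₀ * B * ρ / η ^ (1 + s) +
          C₀ * B ^ 2 * k ^ 3 * (1 + Real.log (1 / e₁)) ^ 4 * ρ * η / (τ ^ 2 * e₁ ^ 2 * e₃ ^ (2 * s)) +
          C₀ * k ^ 3 * ε + C₀ * k ^ 2 * (1 + Real.log (1 / e₁)) * τ ^ 2

private def HB99 (s C₀ B : ℝ) (q : ℕ → ℝ → ℝ) (b : ℕ → ℕ → ℝ → ℝ) : Prop :=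
  ∀ i i' k : ℕ, 3 ≤ k → k = max i i' → k / 2 + 1 ≤ i → k / 2 + 1 ≤ i' → ∀ P e₁ e₃ τ ε : ℝ, 0 < P → P ≤ 1 →
        0 < e₁ → e₁ ≤ e₃ → e₃ ≤ 1 → 0 < τ → τ ≤ 1 → 0 ≤ ε → (∀ g : ℕ, 1 ≤ g → g ≤ k / 2 + 1 → q g e₁ ≤ ε) →
        (∀ g : ℕ, 1 ≤ g → g ≤ k / 4 + 1 → q g (2 * e₃) ≤ ε) →
        (∀ i i' : ℕ, 2 ≤ i → i ≤ k / 2 + 1 → 2 ≤ i' → i' ≤ k / 2 + 2 → b i i' (e₁ * e₃) ≤ ε) →
        b i i' P ≤ C₀ * B ^ 2 * k ^ 3 * (1 + Real.log (1 / e₁)) ^ 4 * (P * (1 + Real.log (1 / P))) /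
            (τ ^ 2 * e₁ ^ 2 * e₃ ^ (2 * s)) +
          C₀ * k ^ 3 * ε + C₀ * k ^ 2 * (1 + Real.log (1 / e₁)) * τ ^ 2

private lemma tau99 {X t' : ℝ} (hX : 0 ≤ X) (ht : 0 ≤ t') :
    0 < Real.exp (-t') / (1 + X) ∧ Real.exp (-t') / (1 + X) ≤ 1 := by
  have h3 : Real.exp (-t') ≤ 1 := Real.exp_le_one_iff.2 (by linarith)
  have h0 := Real.exp_pos (-t')
  refine ⟨by positivity, ?_⟩
  rw [div_le_one (by linarith)]
  linarith

private lemma useA99 {s C₀ B : ℝ} {q : ℕ → ℝ → ℝ} {b : ℕ → ℕ → ℝ → ℝ} (hC : 1 ≤ C₀) (hB : 1 ≤ B)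
    (H : HA99 s C₀ B q b) (k : ℕ) (hk : 3 ≤ k) (X Y h r t' : ℝ) (hY : 0 ≤ Y) (hYX : Y ≤ X)
    (hh : 0 ≤ h) (ht : 0 ≤ t')
    (h1 : ∀ g, 1 ≤ g → g ≤ k / 2 + 1 → q g (Real.exp (-h)) ≤ Real.exp (-t'))
    (h2 : ∀ g, 1 ≤ g → g ≤ k / 2 + 1 → q g (Real.exp (-X)) ≤ Real.exp (-t'))
    (h3 : ∀ g, 1 ≤ g → g ≤ k / 4 + 1 → q g (2 * Real.exp (-Y)) ≤ Real.exp (-t'))
    (h4 : ∀ i i', 2 ≤ i → i ≤ k / 2 + 1 → 2 ≤ i' → i' ≤ k / 2 + 2 →
      b i i' (Real.exp (-X) * Real.exp (-Y)) ≤ Real.exp (-t')) :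
    q k (Real.exp (-r)) ≤ C₀ * B ^ 2 * k ^ 3 * (1 + X) ^ 6 * Real.exp (-r + (1 + s) * h) +
      C₀ * B ^ 2 * k ^ 3 * (1 + X) ^ 6 * Real.exp (-r - h + (2 * t' + 2 * X + 2 * s * Y)) +
      2 * (C₀ * k ^ 3 * Real.exp (-t')) := by
  have hX : 0 ≤ X := hY.trans hYX
  obtain ⟨h5, h6⟩ := tau99 hX ht
  have key := H k hk (Real.exp (-r)) (Real.exp (-h)) (Real.exp (-X)) (Real.exp (-Y))
    (Real.exp (-t') / (1 + X)) (Real.exp (-t')) (Real.exp_pos _) (Real.exp_pos _)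
    (Real.exp_le_one_iff.2 (by linarith)) (Real.exp_pos _) (Real.exp_le_exp.2 (by linarith))
    (Real.exp_le_one_iff.2 (by linarith)) h5 h6 (Real.exp_pos _).le h1 h2 h3 h4
  have hk1 : (1 : ℝ) ≤ k := by
    have : 1 ≤ k := by omega
    exact_mod_cast this
  have e1 := last99 hC hk1 hX ht
  have e2 : C₀ * B ^ 2 * k ^ 3 * (1 + Real.log (1 / Real.exp (-X))) ^ 4 * Real.exp (-r) * Real.exp (-h) /
      ((Real.exp (-t') / (1 + X)) ^ 2 * Real.exp (-X) ^ 2 * Real.exp (-Y) ^ (2 * s)) =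
      C₀ * B ^ 2 * k ^ 3 * (1 + X) ^ 6 * Real.exp (-r - h + (2 * t' + 2 * X + 2 * s * Y)) := by
    have := comm99 (s := s) (C₀ := C₀) (B := B) (k := k) (X := X) (Y := Y) (t' := t')
      (w := Real.exp (-r) * Real.exp (-h)) hX
    rw [mul_assoc (C₀ * B ^ 2 * k ^ 3 * (1 + Real.log (1 / Real.exp (-X))) ^ 4), this]
    congr 1
    rw [← Real.exp_add, ← Real.exp_add]
    congr 1
  have e3 : C₀ * B * Real.exp (-r) / Real.exp (-h) ^ (1 + s) ≤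
      C₀ * B ^ 2 * k ^ 3 * (1 + X) ^ 6 * Real.exp (-r + (1 + s) * h) := by
    have f1 : C₀ * B * Real.exp (-r) / Real.exp (-h) ^ (1 + s) =
        C₀ * B * Real.exp (-r + (1 + s) * h) := by
      rw [← Real.exp_mul, Real.exp_add, mul_div_assoc]
      congr 1
      rw [div_eq_mul_inv, ← Real.exp_neg]
      congr 2
      ring
    rw [f1]
    apply mul_le_mul_of_nonneg_right _ (Real.exp_pos _).le
    have g1 : (1 : ℝ) ≤ (k : ℝ) ^ 3 := one_le_pow₀ hk1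
    have g2 : (1 : ℝ) ≤ (1 + X) ^ 6 := one_le_pow₀ (by linarith)
    have g3 : B ≤ B ^ 2 := by nlinarith
    calc C₀ * B = C₀ * B * 1 * 1 := by ring
      _ ≤ C₀ * B ^ 2 * k ^ 3 * (1 + X) ^ 6 := by gcongr
  rw [e2] at key
  linarith

private lemma useB99 {s C₀ B : ℝ} {q : ℕ → ℝ → ℝ} {b : ℕ → ℕ → ℝ → ℝ} (hC : 1 ≤ C₀)
    (H : HB99 s C₀ B q b) (i i' k : ℕ) (hk : 3 ≤ k) (hki : k = max i i') (hk1 : k / 2 + 1 ≤ i)
    (hk2 : k / 2 + 1 ≤ i') (X Y y t' : ℝ) (hY : 0 ≤ Y) (hYX : Y ≤ X)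
    (hy : 0 ≤ y) (ht : 0 ≤ t')
    (h2 : ∀ g, 1 ≤ g → g ≤ k / 2 + 1 → q g (Real.exp (-X)) ≤ Real.exp (-t'))
    (h3 : ∀ g, 1 ≤ g → g ≤ k / 4 + 1 → q g (2 * Real.exp (-Y)) ≤ Real.exp (-t'))
    (h4 : ∀ i i', 2 ≤ i → i ≤ k / 2 + 1 → 2 ≤ i' → i' ≤ k / 2 + 2 →
      b i i' (Real.exp (-X) * Real.exp (-Y)) ≤ Real.exp (-t')) :
    b i i' (Real.exp (-y)) ≤
      C₀ * B ^ 2 * k ^ 3 * (1 + X) ^ 6 * ((1 + y) * Real.exp (-y + (2 * t' + 2 * X + 2 * s * Y))) +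
      2 * (C₀ * k ^ 3 * Real.exp (-t')) := by
  have hX : 0 ≤ X := hY.trans hYX
  obtain ⟨h5, h6⟩ := tau99 hX ht
  have key := H i i' k hk hki hk1 hk2 (Real.exp (-y)) (Real.exp (-X)) (Real.exp (-Y))
    (Real.exp (-t') / (1 + X)) (Real.exp (-t')) (Real.exp_pos _)
    (Real.exp_le_one_iff.2 (by linarith)) (Real.exp_pos _) (Real.exp_le_exp.2 (by linarith))
    (Real.exp_le_one_iff.2 (by linarith)) h5 h6 (Real.exp_pos _).le h2 h3 h4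
  have hk1 : (1 : ℝ) ≤ k := by
    have : 1 ≤ k := by omega
    exact_mod_cast this
  have e1 := last99 hC hk1 hX ht
  have e2 := comm99 (s := s) (C₀ := C₀) (B := B) (k := k) (X := X) (Y := Y) (t' := t')
      (w := Real.exp (-y) * (1 + Real.log (1 / Real.exp (-y)))) hX
  rw [e2, logExp99 y] at key
  have e3 : Real.exp (-y) * (1 + y) * Real.exp (2 * t' + 2 * X + 2 * s * Y) =
      (1 + y) * Real.exp (-y + (2 * t' + 2 * X + 2 * s * Y)) := by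
    rw [Real.exp_add (-y)]; ring
  rw [e3] at key
  linarith

/-- the polynomial factors -/
private lemma gb99 {C₀ δ : ℝ} (hC : 1 ≤ C₀) (hδ : 0 < δ) : ∃ C₄ : ℝ, 0 < C₄ ∧
    ∀ (B X t' : ℝ) (n k : ℕ), 1 ≤ B → k ≤ 2 ^ (n + 3) → (n : ℝ) ≤ t' → 0 ≤ X →
      4 * (C₀ * B ^ 2 * (k : ℝ) ^ 3 * (1 + X) ^ 6) ≤
        Real.exp (δ * X + C₄ * (t' + (1 + 2 * Real.log B))) := by
  set c : ℝ := 4 * C₀ * (1 + 6 / δ) ^ 6 with hc
  have hc0 : 0 < c := by positivity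
  refine ⟨c + 13, by positivity, fun B X t' n k hB hk hn hX => ?_⟩
  have hn0 : (0 : ℝ) ≤ n := Nat.cast_nonneg n
  have hlB : 0 ≤ Real.log B := Real.log_nonneg hB
  have h1 : 1 + X ≤ (1 + 6 / δ) * Real.exp (δ * X / 6) := by
    have h2 := Real.add_one_le_exp (δ * X / 6)
    have h3 : (1 + 6 / δ) * (δ * X / 6 + 1) = 1 + X + δ * X / 6 + 6 / δ := by
      field_simp
      ring
    have h4 : (1 + 6 / δ) * (δ * X / 6 + 1) ≤ (1 + 6 / δ) * Real.exp (δ * X / 6) :=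
      mul_le_mul_of_nonneg_left h2 (by positivity)
    have h5 : 0 ≤ δ * X / 6 + 6 / δ := by positivity
    linarith
  have h2 : (1 + X) ^ 6 ≤ (1 + 6 / δ) ^ 6 * Real.exp (δ * X) := by
    calc (1 + X) ^ 6 ≤ ((1 + 6 / δ) * Real.exp (δ * X / 6)) ^ 6 := by gcongr
      _ = (1 + 6 / δ) ^ 6 * Real.exp (δ * X) := by
        rw [mul_pow, ← Real.exp_nat_mul]
        congr 2
        push_cast
        ring
  have h3 : (k : ℝ) ^ 3 ≤ Real.exp (3 * (n + 3)) := by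
    have h4 : (k : ℝ) ≤ Real.exp ((n : ℝ) + 3) := by
      calc (k : ℝ) ≤ 2 ^ (n + 3) := by exact_mod_cast hk
        _ ≤ Real.exp 1 ^ (n + 3) := pow_le_pow_left₀ (by norm_num) two_le_e99 _
        _ = Real.exp ((n : ℝ) + 3) := by
          rw [← Real.exp_nat_mul]
          congr 1
          push_cast
          ring
    calc (k : ℝ) ^ 3 ≤ Real.exp ((n : ℝ) + 3) ^ 3 := by gcongr
      _ = Real.exp (3 * (n + 3)) := by
        rw [← Real.exp_nat_mul]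
        congr 1
  have h4 : B ^ 2 = Real.exp (2 * Real.log B) := by
    rw [two_mul, Real.exp_add, Real.exp_log (by linarith)]
    ring
  have h5 : c ≤ Real.exp c := by
    have := Real.add_one_le_exp c
    linarith
  calc 4 * (C₀ * B ^ 2 * (k : ℝ) ^ 3 * (1 + X) ^ 6)
      ≤ 4 * (C₀ * Real.exp (2 * Real.log B) * Real.exp (3 * (n + 3)) *
          ((1 + 6 / δ) ^ 6 * Real.exp (δ * X))) := by
        rw [h4]
        gcongr
    _ = c * (Real.exp (2 * Real.log B) * Real.exp (3 * (n + 3)) * Real.exp (δ * X)) := by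
        rw [hc]; ring
    _ ≤ Real.exp c * (Real.exp (2 * Real.log B) * Real.exp (3 * (n + 3)) * Real.exp (δ * X)) := by
        gcongr
    _ = Real.exp (c + (2 * Real.log B + 3 * (n + 3) + δ * X)) := by
        rw [Real.exp_add, Real.exp_add, Real.exp_add]
    _ ≤ Real.exp (δ * X + (c + 13) * (t' + (1 + 2 * Real.log B))) := by
        apply Real.exp_le_exp.2
        have g1 : c * 1 ≤ c * (t' + (1 + 2 * Real.log B)) :=
          mul_le_mul_of_nonneg_left (by linarith) hc0.le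
        nlinarith

private lemma logy99 {δ : ℝ} (hδ : 0 < δ) (y : ℝ) (hy : 0 ≤ y) :
    1 + y ≤ Real.exp (δ * y / 8 + (1 + 8 / δ)) := by
  have h2 := Real.add_one_le_exp (δ * y / 8)
  have h3 : (1 + 8 / δ) * (δ * y / 8 + 1) = 1 + y + δ * y / 8 + 8 / δ := by
    field_simp
    ring
  have h4 : (1 + 8 / δ) * (δ * y / 8 + 1) ≤ Real.exp (1 + 8 / δ) * Real.exp (δ * y / 8) := by
    have := Real.add_one_le_exp (1 + 8 / δ)
    have h0 : 0 < 8 / δ := by positivity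
    apply mul_le_mul (by linarith) h2 (by positivity) (Real.exp_pos _).le
  rw [add_comm (δ * y / 8), Real.exp_add]
  have h5 : 0 ≤ δ * y / 8 + 8 / δ := by positivity
  linarith

private lemma expk99 {C₀ : ℝ} (hC : 1 ≤ C₀) (n k : ℕ) (hk : k ≤ 2 ^ (n + 3)) (t : ℝ) :
    2 * (C₀ * (k : ℝ) ^ 3 * Real.exp (-(t + (4 * C₀ + 5) * (n + 2)))) ≤ Real.exp (-t) / 2 := by
  have hn0 : (0 : ℝ) ≤ n := Nat.cast_nonneg n
  have h4 : (k : ℝ) ≤ Real.exp ((n : ℝ) + 3) := by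
    calc (k : ℝ) ≤ 2 ^ (n + 3) := by exact_mod_cast hk
      _ ≤ Real.exp 1 ^ (n + 3) := pow_le_pow_left₀ (by norm_num) two_le_e99 _
      _ = Real.exp ((n : ℝ) + 3) := by
        rw [← Real.exp_nat_mul]
        congr 1
        push_cast
        ring
  have h3 : (k : ℝ) ^ 3 ≤ Real.exp (3 * (n + 3)) := by
    calc (k : ℝ) ^ 3 ≤ Real.exp ((n : ℝ) + 3) ^ 3 := by gcongr
      _ = Real.exp (3 * (n + 3)) := by
        rw [← Real.exp_nat_mul]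
        congr 1
  have h5 : 4 * C₀ ≤ Real.exp (4 * C₀) := by
    have := Real.add_one_le_exp (4 * C₀)
    linarith
  have h6 : 4 * C₀ * (k : ℝ) ^ 3 * Real.exp (-(t + (4 * C₀ + 5) * (n + 2))) ≤ Real.exp (-t) := by
    calc 4 * C₀ * (k : ℝ) ^ 3 * Real.exp (-(t + (4 * C₀ + 5) * (n + 2)))
        ≤ Real.exp (4 * C₀) * Real.exp (3 * (n + 3)) * Real.exp (-(t + (4 * C₀ + 5) * (n + 2))) := by
          gcongr
      _ = Real.exp (4 * C₀ + 3 * (n + 3) + -(t + (4 * C₀ + 5) * (n + 2))) := by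
          rw [Real.exp_add, Real.exp_add]
      _ ≤ Real.exp (-t) := by
          apply Real.exp_le_exp.2
          nlinarith
  linarith

private lemma fin99 {G g u t : ℝ} (h : 4 * G ≤ Real.exp g) (hu : g + u ≤ -t) :
    G * Real.exp u ≤ Real.exp (-t) / 4 := by
  have h1 : 4 * G * Real.exp u ≤ Real.exp g * Real.exp u :=
    mul_le_mul_of_nonneg_right h (Real.exp_pos _).le
  rw [← Real.exp_add] at h1
  have h2 : Real.exp (g + u) ≤ Real.exp (-t) := Real.exp_le_exp.2 hu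
  linarith

private lemma stepA99 {s C₀ B δ C₄ Λ : ℝ} {q : ℕ → ℝ → ℝ} {b : ℕ → ℕ → ℝ → ℝ} (hC : 1 ≤ C₀)
    (hB : 1 ≤ B) (H : HA99 s C₀ B q b)
    (hG : ∀ (X t' : ℝ) (n k : ℕ), k ≤ 2 ^ (n + 3) → (n : ℝ) ≤ t' → 0 ≤ X →
      4 * (C₀ * B ^ 2 * (k : ℝ) ^ 3 * (1 + X) ^ 6) ≤ Real.exp (δ * X + C₄ * (t' + Λ)))
    (n k : ℕ) (hk : 3 ≤ k) (hkn : k ≤ 2 ^ (n + 3)) (t t' X Y h r : ℝ) (ht : 0 ≤ t)
    (ht' : t' = t + (4 * C₀ + 5) * (n + 2)) (hY : 0 ≤ Y) (hYX : Y ≤ X) (hh : 0 ≤ h)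
    (u1 : δ * X + C₄ * (t' + Λ) + (-r + (1 + s) * h) ≤ -t)
    (u2 : δ * X + C₄ * (t' + Λ) + (-r - h + (2 * t' + 2 * X + 2 * s * Y)) ≤ -t)
    (h1 : ∀ g, 1 ≤ g → g ≤ k / 2 + 1 → q g (Real.exp (-h)) ≤ Real.exp (-t'))
    (h2 : ∀ g, 1 ≤ g → g ≤ k / 2 + 1 → q g (Real.exp (-X)) ≤ Real.exp (-t'))
    (h3 : ∀ g, 1 ≤ g → g ≤ k / 4 + 1 → q g (2 * Real.exp (-Y)) ≤ Real.exp (-t'))
    (h4 : ∀ i i', 2 ≤ i → i ≤ k / 2 + 1 → 2 ≤ i' → i' ≤ k / 2 + 2 →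
      b i i' (Real.exp (-X) * Real.exp (-Y)) ≤ Real.exp (-t')) :
    q k (Real.exp (-r)) ≤ Real.exp (-t) := by
  have hn0 : (0 : ℝ) ≤ n := Nat.cast_nonneg n
  have hnt : (n : ℝ) ≤ t' := by rw [ht']; nlinarith
  have ht0 : 0 ≤ t' := hn0.trans hnt
  have key := useA99 hC hB H k hk X Y h r t' hY hYX hh ht0 h1 h2 h3 h4
  have g1 := hG X t' n k hkn hnt (hY.trans hYX)
  have g2 := fin99 g1 u1
  have g3 := fin99 g1 u2
  have g4 := expk99 hC n k hkn t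
  rw [← ht'] at g4
  linarith

private lemma stepB99 {s C₀ B δ C₄ Λ : ℝ} {q : ℕ → ℝ → ℝ} {b : ℕ → ℕ → ℝ → ℝ} (hC : 1 ≤ C₀)
    (hB : 1 ≤ B) (hδ : 0 < δ) (H : HB99 s C₀ B q b)
    (hG : ∀ (X t' : ℝ) (n k : ℕ), k ≤ 2 ^ (n + 3) → (n : ℝ) ≤ t' → 0 ≤ X →
      4 * (C₀ * B ^ 2 * (k : ℝ) ^ 3 * (1 + X) ^ 6) ≤ Real.exp (δ * X + C₄ * (t' + Λ)))
    (n i i' k : ℕ) (hk : 3 ≤ k) (hkn : k ≤ 2 ^ (n + 3)) (hki : k = max i i') (hk1 : k / 2 + 1 ≤ i)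
    (hk2 : k / 2 + 1 ≤ i') (t t' X Y y : ℝ) (ht : 0 ≤ t)
    (ht' : t' = t + (4 * C₀ + 5) * (n + 2)) (hY : 0 ≤ Y) (hYX : Y ≤ X) (hy : 0 ≤ y)
    (u1 : δ * X + C₄ * (t' + Λ) + ((δ * y / 8 + (1 + 8 / δ)) + (-y + (2 * t' + 2 * X + 2 * s * Y))) ≤ -t)
    (h2 : ∀ g, 1 ≤ g → g ≤ k / 2 + 1 → q g (Real.exp (-X)) ≤ Real.exp (-t'))
    (h3 : ∀ g, 1 ≤ g → g ≤ k / 4 + 1 → q g (2 * Real.exp (-Y)) ≤ Real.exp (-t'))
    (h4 : ∀ i i', 2 ≤ i → i ≤ k / 2 + 1 → 2 ≤ i' → i' ≤ k / 2 + 2 →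
      b i i' (Real.exp (-X) * Real.exp (-Y)) ≤ Real.exp (-t')) :
    b i i' (Real.exp (-y)) ≤ Real.exp (-t) := by
  have hn0 : (0 : ℝ) ≤ n := Nat.cast_nonneg n
  have hnt : (n : ℝ) ≤ t' := by rw [ht']; nlinarith
  have ht0 : 0 ≤ t' := hn0.trans hnt
  have hX := hY.trans hYX
  have key := useB99 hC H i i' k hk hki hk1 hk2 X Y y t' hY hYX hy ht0 h2 h3 h4
  have g1 := hG X t' n k hkn hnt hX
  have g2 := fin99 g1 u1
  have g4 := expk99 hC n k hkn t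
  rw [← ht'] at g4
  have g5 : C₀ * B ^ 2 * (k : ℝ) ^ 3 * (1 + X) ^ 6 * ((1 + y) * Real.exp (-y + (2 * t' + 2 * X + 2 * s * Y)))
      ≤ C₀ * B ^ 2 * (k : ℝ) ^ 3 * (1 + X) ^ 6 *
        Real.exp ((δ * y / 8 + (1 + 8 / δ)) + (-y + (2 * t' + 2 * X + 2 * s * Y))) := by
    rw [Real.exp_add (δ * y / 8 + (1 + 8 / δ))]
    have := logy99 hδ y hy
    gcongr
  linarith [Real.exp_pos (-t)]

private noncomputable def XX99 (A ϱ M Λ : ℝ) (n : ℕ) (t : ℝ) : ℝ :=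
  A * ϱ ^ n * (t + M * Λ * ((n : ℝ) + 2) ^ 2)

private lemma XX_add99 (A ϱ M Λ : ℝ) (n : ℕ) (t c : ℝ) :
    XX99 A ϱ M Λ n (t + c) = XX99 A ϱ M Λ n t + A * ϱ ^ n * c := by
  unfold XX99
  ring

private lemma XX_succ99 {A ϱ M Λ : ℝ} (hA : 0 < A) (hϱ : 1 < ϱ) (hM : 2 ≤ M) (hΛ : 1 ≤ Λ) (n : ℕ)
    (t : ℝ) : ϱ * XX99 A ϱ M Λ n (t + M * (n + 2)) ≤ XX99 A ϱ M Λ (n + 1) t := by
  unfold XX99
  have hn0 : (0 : ℝ) ≤ n := Nat.cast_nonneg n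
  have h1 : t + M * (n + 2) + M * Λ * ((n : ℝ) + 2) ^ 2 ≤ t + M * Λ * (((n + 1 : ℕ) : ℝ) + 2) ^ 2 := by
    push_cast
    have h2 : M * Λ * ((n : ℝ) + 1 + 2) ^ 2 = M * Λ * ((n : ℝ) + 2) ^ 2 + M * Λ * (2 * n + 5) := by ring
    have h3 : M * 1 * (n + 2) ≤ M * Λ * (2 * n + 5) := by
      gcongr
      · linarith
      · norm_num
    linarith
  have h4 : 0 ≤ ϱ * (A * ϱ ^ n) := by positivity
  calc ϱ * (A * ϱ ^ n * (t + M * (n + 2) + M * Λ * ((n : ℝ) + 2) ^ 2))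
      = ϱ * (A * ϱ ^ n) * (t + M * (n + 2) + M * Λ * ((n : ℝ) + 2) ^ 2) := by ring
    _ ≤ ϱ * (A * ϱ ^ n) * (t + M * Λ * (((n + 1 : ℕ) : ℝ) + 2) ^ 2) :=
        mul_le_mul_of_nonneg_left h1 h4
    _ = _ := by rw [pow_succ]; ring

private lemma XX_ge99 {A ϱ M Λ : ℝ} (hA : 0 < A) (hϱ : 1 < ϱ) (hM : 2 ≤ M) (hΛ : 1 ≤ Λ) (n : ℕ)
    {t : ℝ} (ht : 0 ≤ t) : A * (t + Λ) ≤ XX99 A ϱ M Λ n t := by
  unfold XX99
  have hn0 : (0 : ℝ) ≤ n := Nat.cast_nonneg n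
  have h1 : (1 : ℝ) ≤ ϱ ^ n := one_le_pow₀ hϱ.le
  have h2 : Λ ≤ M * Λ * ((n : ℝ) + 2) ^ 2 := by
    have h3 : (1 : ℝ) ≤ ((n : ℝ) + 2) ^ 2 := one_le_pow₀ (by linarith)
    calc Λ = 1 * Λ * 1 := by ring
      _ ≤ M * Λ * ((n : ℝ) + 2) ^ 2 := by gcongr; linarith
  calc A * (t + Λ) = A * 1 * (t + Λ) := by ring
    _ ≤ A * ϱ ^ n * (t + M * Λ * ((n : ℝ) + 2) ^ 2) := by gcongr

private def AA99 (q : ℕ → ℝ → ℝ) (N : ℕ) (X : ℝ → ℝ) : Prop :=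
  ∀ g : ℕ, 1 ≤ g → g ≤ N → ∀ t x : ℝ, 0 ≤ t → X t ≤ x → q g (Real.exp (-x)) ≤ Real.exp (-t)

private def BB99 (b : ℕ → ℕ → ℝ → ℝ) (N : ℕ) (X : ℝ → ℝ) : Prop :=
  ∀ i i' : ℕ, 2 ≤ i → i ≤ N → 2 ≤ i' → i' ≤ N + 1 → ∀ t y : ℝ, 0 ≤ t → X t ≤ y →
    b i i' (Real.exp (-y)) ≤ Real.exp (-t)

private lemma split99 {q : ℕ → ℝ → ℝ} {b : ℕ → ℕ → ℝ → ℝ}
    (hbt : ∀ i i' : ℕ, 2 ≤ i → 2 ≤ i' → ∀ P δ : ℝ, 0 < P → 0 < δ →
      b i i' P ≤ q i δ + q (i' - 1) (P / δ)) (i i' : ℕ) (hi : 2 ≤ i) (hi' : 2 ≤ i') (y v t : ℝ)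
    (h1 : q i (Real.exp (-v)) ≤ Real.exp (-(t + 1)))
    (h2 : q (i' - 1) (Real.exp (-(y - v))) ≤ Real.exp (-(t + 1))) :
    b i i' (Real.exp (-y)) ≤ Real.exp (-t) := by
  have h := hbt i i' hi hi' (Real.exp (-y)) (Real.exp (-v)) (Real.exp_pos _) (Real.exp_pos _)
  rw [← Real.exp_sub, show -y - -v = -(y - v) by ring] at h
  have h3 : 2 * Real.exp (-(t + 1)) ≤ Real.exp (-t) := by
    have h4 : Real.exp (-t) = Real.exp 1 * Real.exp (-(t + 1)) := by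
      rw [← Real.exp_add]; congr 1; ring
    rw [h4]
    exact mul_le_mul_of_nonneg_right two_le_e99 (Real.exp_pos _).le
  linarith

/-- gaps at most three -/
private lemma base99 {s C₀ B δ C₄ Λ : ℝ} {q : ℕ → ℝ → ℝ} {b : ℕ → ℕ → ℝ → ℝ} (hs : 0 < s)
    (hs1 : s < 1) (hC : 1 ≤ C₀) (hB : 1 ≤ B) (hΛ : 1 ≤ Λ) (hδ1 : δ ≤ 1) (hC₄ : 0 < C₄)
    (H : HA99 s C₀ B q b)
    (hG : ∀ (X t' : ℝ) (n k : ℕ), k ≤ 2 ^ (n + 3) → (n : ℝ) ≤ t' → 0 ≤ X →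
      4 * (C₀ * B ^ 2 * (k : ℝ) ^ 3 * (1 + X) ^ 6) ≤ Real.exp (δ * X + C₄ * (t' + Λ)))
    (h1 : ∀ ρ, 0 < ρ → q 1 ρ ≤ 3 * ρ) (h2 : ∀ ρ, 0 < ρ → q 2 ρ ≤ 3 * ρ)
    (hbt : ∀ i i' : ℕ, 2 ≤ i → 2 ≤ i' → ∀ P δ : ℝ, 0 < P → 0 < δ →
      b i i' P ≤ q i δ + q (i' - 1) (P / δ)) :
    AA99 q 3 fun t => (C₄ + 11) * (1 + 2 * (4 * C₀ + 5)) * (t + Λ) := by
  have small : ∀ g : ℕ, 1 ≤ g → g ≤ 2 → ∀ t' c x : ℝ, c ≤ 2 → 0 < c → t' + 2 ≤ x →
      q g (c * Real.exp (-x)) ≤ Real.exp (-t') := by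
    intro g hg1 hg2 t' c x hc hc0 hx
    have e1 : q g (c * Real.exp (-x)) ≤ 3 * (c * Real.exp (-x)) := by
      have : g = 1 ∨ g = 2 := by omega
      rcases this with rfl | rfl
      · exact h1 _ (by positivity)
      · exact h2 _ (by positivity)
    have e2 : Real.exp 2 * Real.exp (-x) ≤ Real.exp (-t') := by
      rw [← Real.exp_add]
      exact Real.exp_le_exp.2 (by linarith)
    have e3 := Real.exp_pos (-x)
    have e4 := six_le_e99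
    nlinarith
  intro g hg1 hg2 t x ht hx
  simp only at hx
  have hK : (1 : ℝ) ≤ (C₄ + 11) * (1 + 2 * (4 * C₀ + 5)) := by nlinarith
  rcases Nat.lt_or_ge g 3 with hg | hg
  · have := small g hg1 (by omega) t 1 x (by norm_num) (by norm_num) (by nlinarith)
    simpa using this
  · have hg3 : g = 3 := by omega
    subst hg3
    set t' : ℝ := t + (4 * C₀ + 5) * (((0 : ℕ) : ℝ) + 2) with ht'
    have ht'2 : t' = t + 2 * (4 * C₀ + 5) := by rw [ht']; push_cast; ring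
    have ht0 : 0 ≤ t' := by rw [ht'2]; linarith
    have hxx : (C₄ + 11) * (t' + Λ) ≤ x := by
      refine le_trans ?_ hx
      rw [mul_assoc]
      apply mul_le_mul_of_nonneg_left _ (by linarith)
      rw [ht'2]
      nlinarith
    have hsX : s * (t' + 2) ≤ 1 * (t' + 2) := mul_le_mul_of_nonneg_right hs1.le (by linarith)
    have hδX : δ * (t' + 2) ≤ 1 * (t' + 2) := mul_le_mul_of_nonneg_right hδ1 (by linarith)
    refine stepA99 (q := q) (b := b) (Y := t' + 2) hC hB H hG 0 3 le_rfl (by norm_num) t t' (t' + 2)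
      (t' + 2) x ht ht' (by linarith) le_rfl (by linarith) ?_ ?_ ?_ ?_ ?_ ?_
    · nlinarith
    · nlinarith
    · intro g hg1 hg2
      have := small g hg1 (by omega) t' 1 (t' + 2) (by norm_num) (by norm_num) le_rfl
      simpa using this
    · intro g hg1 hg2
      have := small g hg1 (by omega) t' 1 (t' + 2) (by norm_num) (by norm_num) le_rfl
      simpa using this
    · intro g hg1 hg2
      exact small g hg1 (by omega) t' 2 (t' + 2) (by norm_num) (by norm_num) le_rfl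
    · intro i i' hi1 hi2 hi3 hi4
      have hP : 0 < Real.exp (-(t' + 2)) := Real.exp_pos _
      have e1 := hbt i i' hi1 hi3 (Real.exp (-(t' + 2)) * Real.exp (-(t' + 2))) (Real.exp (-(t' + 2)))
        (by positivity) hP
      rw [mul_div_assoc, div_self hP.ne', mul_one] at e1
      have e2 : q i (Real.exp (-(t' + 2))) ≤ 3 * Real.exp (-(t' + 2)) := by
        have : i = 2 := by omega
        rw [this]
        exact h2 _ hP
      have e3 : q (i' - 1) (Real.exp (-(t' + 2))) ≤ 3 * Real.exp (-(t' + 2)) := by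
        have : i' - 1 = 1 ∨ i' - 1 = 2 := by omega
        rcases this with h | h <;> rw [h]
        · exact h1 _ hP
        · exact h2 _ hP
      have e4 : Real.exp 2 * Real.exp (-(t' + 2)) = Real.exp (-t') := by
        rw [← Real.exp_add]; congr 1; ring
      have e5 := six_le_e99
      nlinarith

private lemma main99 {s C₀ B δ C₄ Λ A R ϱ c : ℝ} {q : ℕ → ℝ → ℝ} {b : ℕ → ℕ → ℝ → ℝ} (hs : 0 < s)
    (hs1 : s < 1) (hC : 1 ≤ C₀) (hB : 1 ≤ B) (hΛ : 1 ≤ Λ) (hδ : 0 < δ) (hδ1 : δ ≤ 1) (hC₄ : 0 < C₄)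
    (hc : c * (1 + s) = 1) (hc2 : 1 / 2 ≤ c) (hc1 : c ≤ 1) (hR : (1 + c) * R = 2 + 2 * s * c)
    (hR1 : 1 ≤ c * R) (hR0 : 1 < R) (hϱ : ϱ = R + 2 * δ) (hϱ2 : ϱ < 2)
    (hA1 : 4 * ((C₄ + 11) * (1 + 2 * (4 * C₀ + 5))) ≤ A)
    (hA2 : C₄ + 3 + (1 + 8 / δ) ≤ δ / 2 * A)
    (hmono : ∀ k, Monotone (q k))
    (H : HA99 s C₀ B q b) (H' : HB99 s C₀ B q b)
    (hG : ∀ (X t' : ℝ) (n k : ℕ), k ≤ 2 ^ (n + 3) → (n : ℝ) ≤ t' → 0 ≤ X →
      4 * (C₀ * B ^ 2 * (k : ℝ) ^ 3 * (1 + X) ^ 6) ≤ Real.exp (δ * X + C₄ * (t' + Λ)))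
    (h1 : ∀ ρ, 0 < ρ → q 1 ρ ≤ 3 * ρ) (h2 : ∀ ρ, 0 < ρ → q 2 ρ ≤ 3 * ρ)
    (hbt : ∀ i i' : ℕ, 2 ≤ i → 2 ≤ i' → ∀ P δ : ℝ, 0 < P → 0 < δ →
      b i i' P ≤ q i δ + q (i' - 1) (P / δ)) (n : ℕ) :
    AA99 q (2 ^ n + 2) (XX99 A ϱ (4 * C₀ + 5) Λ n) ∧
      AA99 q (2 ^ n / 2 + 2) (fun t => c * XX99 A ϱ (4 * C₀ + 5) Λ n t - 1) ∧
      BB99 b (2 ^ n + 2) (fun t => (1 + c) * XX99 A ϱ (4 * C₀ + 5) Λ n t) := by
  have hM₀ : (1 : ℝ) ≤ (C₄ + 11) * (1 + 2 * (4 * C₀ + 5)) := by nlinarith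
  have hbase := base99 hs hs1 hC hB hΛ hδ1 hC₄ H hG h1 h2 hbt
  set M₀ : ℝ := (C₄ + 11) * (1 + 2 * (4 * C₀ + 5)) with hM₀def
  have hA0 : 0 < A := by linarith
  have hϱ1 : 1 < ϱ := by linarith
  have hM2 : 2 ≤ 4 * C₀ + 5 := by linarith
  have hcϱ : 1 ≤ c * ϱ := by
    have h3 : 0 < c * (2 * δ) := by positivity
    have h4 : c * ϱ = c * R + c * (2 * δ) := by rw [hϱ]; ring
    linarith
  have hcϱ4 : (1 + c) * ϱ ≤ 4 := by
    calc (1 + c) * ϱ ≤ 2 * 2 := mul_le_mul (by linarith) hϱ2.le (by linarith) (by norm_num)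
      _ = 4 := by norm_num
  induction n with
  | zero =>
    have k1 : ∀ t, 0 ≤ t → 4 * (M₀ * (t + Λ)) ≤ XX99 A ϱ (4 * C₀ + 5) Λ 0 t := by
      intro t ht
      refine le_trans ?_ (XX_ge99 hA0 hϱ1 hM2 hΛ 0 ht)
      rw [← mul_assoc]
      exact mul_le_mul_of_nonneg_right hA1 (by linarith)
    have k2 : ∀ t, 0 ≤ t → M₀ ≤ M₀ * (t + Λ) := by
      intro t ht
      exact le_mul_of_one_le_right (by linarith) (by linarith)
    refine ⟨?_, ?_, ?_⟩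
    · intro g hg1 hg2 t x ht hx
      refine hbase g hg1 (by simpa using hg2) t x ht ?_
      have := k1 t ht
      have := k2 t ht
      simp only
      linarith
    · intro g hg1 hg2 t x ht hx
      refine hbase g hg1 (by omega) t x ht ?_
      have e1 := k1 t ht
      have e2 := k2 t ht
      simp only at hx ⊢
      have e3 : 1 / 2 * XX99 A ϱ (4 * C₀ + 5) Λ 0 t ≤ c * XX99 A ϱ (4 * C₀ + 5) Λ 0 t :=
        mul_le_mul_of_nonneg_right hc2 (by linarith)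
      linarith
    · intro i i' hi1 hi2 hi3 hi4 t y ht hy
      simp only at hy
      have e1 := k1 t ht
      have e2 := k2 t ht
      have e3 : (1 + 1 / 2) * XX99 A ϱ (4 * C₀ + 5) Λ 0 t ≤ (1 + c) * XX99 A ϱ (4 * C₀ + 5) Λ 0 t :=
        mul_le_mul_of_nonneg_right (by linarith) (by linarith)
      have e4 : M₀ * (t + 1 + Λ) ≤ 2 * (M₀ * (t + Λ)) := by linarith
      refine split99 hbt i i' hi1 hi3 y (y / 2) t ?_ ?_
      · refine hbase i (by omega) (by simpa using hi2) (t + 1) _ (by linarith) ?_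
        simp only
        linarith
      · refine hbase (i' - 1) (by omega) (by norm_num at hi4; omega) (t + 1) _ (by linarith) ?_
        simp only
        linarith
  | succ n ih =>
    obtain ⟨IA, IA', IB⟩ := ih
    have hn0 : (0 : ℝ) ≤ n := Nat.cast_nonneg n
    have hp : 1 ≤ 2 ^ n := Nat.one_le_two_pow
    have hp2 : 2 ^ (n + 1) = 2 * 2 ^ n := by rw [pow_succ]; ring
    have hp3 : 2 ^ (n + 3) = 8 * 2 ^ n := by rw [pow_add]; ring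
    set M : ℝ := 4 * C₀ + 5 with hM
    have ha0 : 0 < A * ϱ ^ n := by positivity
    have facts : ∀ t, 0 ≤ t → ∀ X, X = XX99 A ϱ M Λ n (t + M * (n + 2)) →
        ϱ * X ≤ XX99 A ϱ M Λ (n + 1) t ∧ A * (t + M * (n + 2) + Λ) ≤ X ∧ 0 < X ∧
        XX99 A ϱ M Λ n (t + 1) + A * ϱ ^ n * 3 ≤ X ∧ X ≤ ϱ * X := by
      intro t ht X hX
      have f1 := XX_succ99 hA0 hϱ1 hM2 hΛ n t
      have f2 := XX_ge99 hA0 hϱ1 hM2 hΛ n (t := t + M * (n + 2)) (by positivity)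
      rw [← hX] at f1 f2
      have f3 : 0 < X := by
        have : 0 < A * (t + M * (n + 2) + Λ) := by positivity
        linarith
      refine ⟨f1, f2, f3, ?_, ?_⟩
      · have f4 := XX_add99 A ϱ M Λ n (t + 1) (M * (n + 2) - 1)
        rw [show t + 1 + (M * (n + 2) - 1) = t + M * (n + 2) by ring, ← hX] at f4
        rw [f4]
        have f5 : (3 : ℝ) ≤ M * (n + 2) - 1 := by
          have : (2 : ℝ) * 2 ≤ M * (n + 2) :=
            mul_le_mul hM2 (by linarith) (by norm_num) (by linarith)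
          linarith
        have f6 := mul_le_mul_of_nonneg_left f5 ha0.le
        linarith
      · exact le_mul_of_one_le_left f3.le hϱ1.le
    have mon : ∀ t, 0 ≤ t → XX99 A ϱ M Λ n t ≤ c * XX99 A ϱ M Λ (n + 1) t - 1 := by
      intro t ht
      obtain ⟨f1, f2, f3, f4, f5⟩ := facts t ht _ rfl
      have g1 : XX99 A ϱ M Λ n (t + 1) = XX99 A ϱ M Λ n t + A * ϱ ^ n * 1 := XX_add99 A ϱ M Λ n t 1
      have g2 : (1 : ℝ) ≤ A * ϱ ^ n := by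
        have : (1 : ℝ) ≤ ϱ ^ n := one_le_pow₀ hϱ1.le
        have h3 : (1 : ℝ) * 1 ≤ A * ϱ ^ n :=
          mul_le_mul (by linarith) this (by norm_num) hA0.le
        linarith
      set X := XX99 A ϱ M Λ n (t + M * (n + 2))
      have g3 : c * (ϱ * X) ≤ c * XX99 A ϱ M Λ (n + 1) t :=
        mul_le_mul_of_nonneg_left f1 (by linarith)
      have g4 : 1 * X ≤ c * ϱ * X := by
        exact mul_le_mul_of_nonneg_right hcϱ f3.le
      linarith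
    have mon' : ∀ t, 0 ≤ t → XX99 A ϱ M Λ n t ≤ XX99 A ϱ M Λ (n + 1) t := by
      intro t ht
      have g1 := mon t ht
      obtain ⟨f1, f2, f3, f4, f5⟩ := facts t ht _ rfl
      have g2 : c * XX99 A ϱ M Λ (n + 1) t ≤ 1 * XX99 A ϱ M Λ (n + 1) t :=
        mul_le_mul_of_nonneg_right hc1 (by linarith)
      linarith
    have fam : ∀ t, 0 ≤ t → ∀ X, X = XX99 A ϱ M Λ n (t + M * (n + 2)) → ∀ k, k ≤ 2 ^ (n + 1) + 3 →
        (∀ x, X ≤ x → ∀ g, 1 ≤ g → g ≤ k / 2 + 1 → q g (Real.exp (-x)) ≤ Real.exp (-(t + M * (n + 2)))) ∧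
        (∀ g, 1 ≤ g → g ≤ k / 4 + 1 → q g (2 * Real.exp (-(c * X))) ≤ Real.exp (-(t + M * (n + 2)))) ∧
        (∀ i i', 2 ≤ i → i ≤ k / 2 + 1 → 2 ≤ i' → i' ≤ k / 2 + 2 →
          b i i' (Real.exp (-X) * Real.exp (-(c * X))) ≤ Real.exp (-(t + M * (n + 2)))) := by
      intro t ht X hX k hk
      have ht' : 0 ≤ t + M * (n + 2) := by positivity
      refine ⟨fun x hx g hg1 hg2 => ?_, fun g hg1 hg2 => ?_, fun i i' hi1 hi2 hi3 hi4 => ?_⟩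
      · exact IA g hg1 (by omega) _ x ht' (by rw [← hX]; exact hx)
      · refine le_trans (hmono g ?_) (IA' g hg1 ?_ _ (c * X - 1) ht' ?_)
        · calc 2 * Real.exp (-(c * X)) ≤ Real.exp 1 * Real.exp (-(c * X)) :=
                mul_le_mul_of_nonneg_right two_le_e99 (Real.exp_pos _).le
            _ = Real.exp (-(c * X - 1)) := by rw [← Real.exp_add]; congr 1; ring
        · rcases Nat.eq_zero_or_pos n with h | h
          · subst h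
            norm_num at hk ⊢
            omega
          · obtain ⟨m, rfl⟩ := Nat.exists_eq_succ_of_ne_zero h.ne'
            have e1 : 2 ^ (m + 1 + 1) = 4 * 2 ^ m := by rw [pow_add, pow_add]; ring
            have e2 : 2 ^ m.succ = 2 * 2 ^ m := by rw [pow_succ]; ring
            have e3 : 2 ^ (m.succ + 1) = 4 * 2 ^ m := e1
            omega
        · simp only
          rw [← hX]
      · rw [← Real.exp_add, show -X + -(c * X) = -((1 + c) * X) by ring]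
        refine IB i i' hi1 (by omega) hi3 (by omega) _ _ ht' ?_
        simp only
        rw [← hX]
    have kbd : ∀ k, k ≤ 2 ^ (n + 1) + 3 → k ≤ 2 ^ (n + 3) := by
      intro k hk
      omega
    have surplus : ∀ t X : ℝ, 0 ≤ t → A * (t + M * (n + 2) + Λ) ≤ X →
        (C₄ + 3) * (t + M * (n + 2) + Λ) + (1 + 8 / δ) ≤ δ / 2 * X := by
      intro t X ht hX
      have g0 : 0 ≤ t + M * (n + 2) := by positivity
      have g1 : δ / 2 * (A * (t + M * (n + 2) + Λ)) ≤ δ / 2 * X :=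
        mul_le_mul_of_nonneg_left hX (by positivity)
      have g2 : (C₄ + 3 + (1 + 8 / δ)) * (t + M * (n + 2) + Λ) ≤ δ / 2 * A * (t + M * (n + 2) + Λ) :=
        mul_le_mul_of_nonneg_right hA2 (by linarith)
      have g3 : (1 + 8 / δ) * 1 ≤ (1 + 8 / δ) * (t + M * (n + 2) + Λ) :=
        mul_le_mul_of_nonneg_left (by linarith) (by positivity)
      linarith
    have SA : AA99 q (2 ^ (n + 1) + 2) (XX99 A ϱ M Λ (n + 1)) := by
      intro k hk1 hk2 t r ht hr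
      rcases Nat.lt_or_ge (2 ^ n + 2) k with hk | hk
      · obtain ⟨f1, f2, f3, f4, f5⟩ := facts t ht _ rfl
        obtain ⟨F1, F2, F3⟩ := fam t ht _ rfl k (by omega)
        have hsur := surplus t _ ht f2
        set X := XX99 A ϱ M Λ n (t + M * (n + 2)) with hX
        set t' : ℝ := t + M * (n + 2) with ht'
        have ht'0 : t ≤ t' := by
          rw [ht']
          have : 0 ≤ M * (n + 2) := by positivity
          linarith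
        have hh : X ≤ c * R * X := le_mul_of_one_le_left f3.le hR1
        have r1 : R * X + 2 * (δ * X) ≤ r := by
          calc R * X + 2 * (δ * X) = ϱ * X := by rw [hϱ]; ring
            _ ≤ r := f1.trans hr
        have hd8 : 0 < 8 / δ := by positivity
        have hdX : 0 < δ * X := by positivity
        refine stepA99 (q := q) (b := b) (Y := c * X) (h := c * R * X) hC hB H hG n k (by omega)
          (kbd k (by omega)) t t' X r ht ht' (by positivity) (mul_le_of_le_one_left f3.le hc1)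
          (by linarith) ?_ ?_
          (F1 _ hh) (F1 X le_rfl) F2 F3
        · have : (1 + s) * (c * R * X) = R * X := by
            calc (1 + s) * (c * R * X) = c * (1 + s) * (R * X) := by ring
              _ = R * X := by rw [hc, one_mul]
          rw [this]
          linarith
        · have : 2 * X + 2 * s * (c * X) = (1 + c) * R * X := by rw [hR]; ring
          have e2 : -r - c * R * X + (2 * t' + 2 * X + 2 * s * (c * X)) = -r + R * X + 2 * t' := by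
            linear_combination this
          rw [e2]
          linarith
      · exact IA k hk1 hk t r ht ((mon' t ht).trans hr)
    refine ⟨SA, ?_, ?_⟩
    · intro g hg1 hg2 t x ht hx
      exact IA g hg1 (by omega) t x ht ((mon t ht).trans hx)
    · intro i i' hi1 hi2 hi3 hi4 t y ht hy
      simp only at hy
      obtain ⟨f1, f2, f3, f4, f5⟩ := facts t ht _ rfl
      have hpos : 0 < XX99 A ϱ M Λ (n + 1) t := by linarith
      -- the mixed cases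
      have mix : XX99 A ϱ M Λ (n + 1) (t + 1) ≤ y - XX99 A ϱ M Λ n (t + 1) := by
        have g1 := XX_add99 A ϱ M Λ (n + 1) t 1
        rw [pow_succ] at g1
        have g2 : A * (ϱ ^ n * ϱ) * 1 ≤ A * ϱ ^ n * 2 := by
          have := mul_le_mul_of_nonneg_left hϱ2.le ha0.le
          linarith
        set X := XX99 A ϱ M Λ n (t + M * (n + 2))
        have g3 : c * (ϱ * X) ≤ c * XX99 A ϱ M Λ (n + 1) t :=
          mul_le_mul_of_nonneg_left f1 (by linarith)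
        have g4 : 1 * X ≤ c * ϱ * X := by
          exact mul_le_mul_of_nonneg_right hcϱ f3.le
        linarith
      have ht1 : 0 ≤ t + 1 := by linarith
      rcases Nat.lt_or_ge (2 ^ n + 2) i with hi | hi
      · rcases Nat.lt_or_ge (2 ^ n + 3) i' with hi' | hi'
        · obtain ⟨F1, F2, F3⟩ := fam t ht _ rfl (max i i') (by omega)
          have hsur := surplus t _ ht f2
          set X := XX99 A ϱ M Λ n (t + M * (n + 2)) with hX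
          set t' : ℝ := t + M * (n + 2) with ht'
          have ht'0 : t ≤ t' := by
            rw [ht']
            have : 0 ≤ M * (n + 2) := by positivity
            linarith
          have hd8 : 0 < 8 / δ := by positivity
          have hdX : 0 < δ * X := by positivity
          have y1 : (1 + c) * (ϱ * X) ≤ y :=
            (mul_le_mul_of_nonneg_left f1 (by linarith)).trans hy
          have hy0 : 0 ≤ y := le_trans (by positivity) y1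
          refine stepB99 (q := q) (b := b) (Y := c * X) hC hB hδ H' hG n i i' (max i i') (by omega)
            (kbd _ (by omega)) rfl (by omega) (by omega) t t' X y ht ht' (by positivity)
            (mul_le_of_le_one_left f3.le hc1) hy0 ?_ (F1 X le_rfl) F2 F3
          have e1 : 2 * X + 2 * s * (c * X) = (1 + c) * R * X := by rw [hR]; ring
          have e2 : (1 - δ / 8) * ((1 + c) * (ϱ * X)) ≤ (1 - δ / 8) * y :=
            mul_le_mul_of_nonneg_left y1 (by linarith)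
          have e3 : (1 + c) * (ϱ * X) = (1 + c) * R * X + (1 + c) * (2 * (δ * X)) := by
            rw [hϱ]; ring
          have e4 : δ / 8 * ((1 + c) * (ϱ * X)) ≤ δ / 8 * (4 * X) := by
            apply mul_le_mul_of_nonneg_left _ (by positivity)
            rw [← mul_assoc]
            exact mul_le_mul_of_nonneg_right hcϱ4 f3.le
          have e5 : (1 + 0) * (2 * (δ * X)) ≤ (1 + c) * (2 * (δ * X)) := by
            apply mul_le_mul_of_nonneg_right _ (by positivity)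
            linarith
          linarith
        · refine split99 hbt i i' hi1 hi3 y (y - XX99 A ϱ M Λ n (t + 1)) t ?_ ?_
          · exact SA i (by omega) hi2 (t + 1) _ ht1 mix
          · refine IA (i' - 1) (by omega) (by omega) (t + 1) _ ht1 ?_
            linarith
      · refine split99 hbt i i' hi1 hi3 y (XX99 A ϱ M Λ n (t + 1)) t ?_ ?_
        · exact IA i (by omega) hi (t + 1) _ ht1 le_rfl
        · exact SA (i' - 1) (by omega) (by omega) (t + 1) _ ht1 mix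

private lemma polypow99 {b : ℝ} (hb : 1 < b) :
    ∃ M : ℝ, 0 < M ∧ ∀ n : ℕ, ((n : ℝ) + 2) ^ 2 ≤ M * b ^ n := by
  have h := tendsto_pow_const_div_const_pow_of_one_lt 2 hb
  obtain ⟨M, hM⟩ := h.bddAbove_range
  have hb0 : 0 < b := by linarith
  refine ⟨(max M 1) * b ^ 2, by positivity, fun n => ?_⟩
  have h1 : (((n + 2 : ℕ) : ℝ)) ^ 2 / b ^ (n + 2) ≤ M := hM ⟨n + 2, rfl⟩
  rw [div_le_iff₀ (by positivity)] at h1
  have h2 : (((n + 2 : ℕ) : ℝ)) = (n : ℝ) + 2 := by push_cast; ring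
  rw [h2] at h1
  calc ((n : ℝ) + 2) ^ 2 ≤ M * b ^ (n + 2) := h1
    _ ≤ max M 1 * b ^ (n + 2) := mul_le_mul_of_nonneg_right (le_max_left _ _) (by positivity)
    _ = max M 1 * b ^ 2 * b ^ n := by ring

theorem rec2 {s C₀ : ℝ} (hs : 0 < s) (hs1 : s < 1) (hC₀ : 1 ≤ C₀) :
    ∃ β C : ℝ, 0 < β ∧ β < 1 ∧ 0 < C ∧ ∀ (B : ℝ) (q : ℕ → ℝ → ℝ) (b : ℕ → ℕ → ℝ → ℝ), 1 ≤ B →
      (∀ k, Monotone (q k)) → (∀ i i', Monotone (b i i')) →
      (∀ k ρ, 0 ≤ q k ρ) → (∀ ρ, 0 < ρ → q 1 ρ ≤ 3 * ρ) → (∀ ρ, 0 < ρ → q 2 ρ ≤ 3 * ρ) →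
      -- hbt
      (∀ i i' : ℕ, 2 ≤ i → 2 ≤ i' → ∀ P δ : ℝ, 0 < P → 0 < δ → b i i' P ≤ q i δ + q (i' - 1) (P / δ)) →
      -- hA
      (∀ k : ℕ, 3 ≤ k → ∀ ρ η e₁ e₃ τ ε : ℝ, 0 < ρ → 0 < η → η ≤ 1 → 0 < e₁ → e₁ ≤ e₃ → e₃ ≤ 1 → 0 < τ → τ ≤ 1 →
        0 ≤ ε → (∀ g : ℕ, 1 ≤ g → g ≤ k / 2 + 1 → q g η ≤ ε) → (∀ g : ℕ, 1 ≤ g → g ≤ k / 2 + 1 → q g e₁ ≤ ε) →
        (∀ g : ℕ, 1 ≤ g → g ≤ k / 4 + 1 → q g (2 * e₃) ≤ ε) →
        (∀ i i' : ℕ, 2 ≤ i → i ≤ k / 2 + 1 → 2 ≤ i' → i' ≤ k / 2 + 2 → b i i' (e₁ * e₃) ≤ ε) →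
        q k ρ ≤ C₀ * B * ρ / η ^ (1 + s) +
          C₀ * B ^ 2 * k ^ 3 * (1 + Real.log (1 / e₁)) ^ 4 * ρ * η / (τ ^ 2 * e₁ ^ 2 * e₃ ^ (2 * s)) +
          C₀ * k ^ 3 * ε + C₀ * k ^ 2 * (1 + Real.log (1 / e₁)) * τ ^ 2) →
      -- hB
      (∀ i i' k : ℕ, 3 ≤ k → k = max i i' → k / 2 + 1 ≤ i → k / 2 + 1 ≤ i' → ∀ P e₁ e₃ τ ε : ℝ, 0 < P → P ≤ 1 →
        0 < e₁ → e₁ ≤ e₃ → e₃ ≤ 1 → 0 < τ → τ ≤ 1 → 0 ≤ ε → (∀ g : ℕ, 1 ≤ g → g ≤ k / 2 + 1 → q g e₁ ≤ ε) →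
        (∀ g : ℕ, 1 ≤ g → g ≤ k / 4 + 1 → q g (2 * e₃) ≤ ε) →
        (∀ i i' : ℕ, 2 ≤ i → i ≤ k / 2 + 1 → 2 ≤ i' → i' ≤ k / 2 + 2 → b i i' (e₁ * e₃) ≤ ε) →
        b i i' P ≤ C₀ * B ^ 2 * k ^ 3 * (1 + Real.log (1 / e₁)) ^ 4 * (P * (1 + Real.log (1 / P))) /
            (τ ^ 2 * e₁ ^ 2 * e₃ ^ (2 * s)) +
          C₀ * k ^ 3 * ε + C₀ * k ^ 2 * (1 + Real.log (1 / e₁)) * τ ^ 2) →
      ∀ K g : ℕ, 1 ≤ g → g ≤ K → ∀ t r : ℝ, 0 ≤ t →
        C * (K : ℝ) ^ β * (t + (1 + 2 * Real.log B)) ≤ r →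
        q g (Real.exp (-r)) ≤ Real.exp (-t) := by
  have hl : 0 < Real.log 2 := Real.log_pos (by norm_num)
  set R : ℝ := 2 * (1 + 2 * s) / (2 + s) with hRdef
  set c : ℝ := 1 / (1 + s) with hcdef
  have hs2 : (0 : ℝ) < 2 + s := by linarith
  have hs3 : (0 : ℝ) < 1 + s := by linarith
  have hR0 : 1 < R := by
    rw [hRdef, lt_div_iff₀ hs2]
    linarith
  have hR2 : R < 2 := by
    rw [hRdef, div_lt_iff₀ hs2]
    linarith
  have hc : c * (1 + s) = 1 := by rw [hcdef]; field_simp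
  have hc1 : c ≤ 1 := by rw [hcdef, div_le_one hs3]; linarith
  have hc2 : 1 / 2 ≤ c := by rw [hcdef]; exact one_div_le_one_div_of_le hs3 (by linarith)
  have hR : (1 + c) * R = 2 + 2 * s * c := by
    rw [hcdef, hRdef]
    field_simp
    ring
  have hR1 : 1 ≤ c * R := by
    rw [hcdef, hRdef, div_mul_div_comm, le_div_iff₀ (by positivity)]
    nlinarith
  set δ : ℝ := (2 - R) / 4 with hδdef
  have hδ : 0 < δ := by rw [hδdef]; linarith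
  have hδ1 : δ ≤ 1 := by rw [hδdef]; linarith
  set ϱ : ℝ := R + 2 * δ with hϱdef
  have hϱ2 : ϱ < 2 := by rw [hϱdef, hδdef]; linarith
  have hϱ1 : 1 < ϱ := by rw [hϱdef]; linarith
  obtain ⟨C₄, hC₄, hG⟩ := gb99 hC₀ hδ
  set A : ℝ := 4 * ((C₄ + 11) * (1 + 2 * (4 * C₀ + 5))) + 2 / δ * (C₄ + 3 + (1 + 8 / δ)) with hAdef
  have hA1 : 4 * ((C₄ + 11) * (1 + 2 * (4 * C₀ + 5))) ≤ A := by
    have : 0 ≤ 2 / δ * (C₄ + 3 + (1 + 8 / δ)) := by positivity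
    linarith
  have hA2 : C₄ + 3 + (1 + 8 / δ) ≤ δ / 2 * A := by
    have e1 : δ / 2 * A = δ / 2 * (4 * ((C₄ + 11) * (1 + 2 * (4 * C₀ + 5)))) +
        (C₄ + 3 + (1 + 8 / δ)) := by
      rw [hAdef]
      field_simp
    have : 0 ≤ δ / 2 * (4 * ((C₄ + 11) * (1 + 2 * (4 * C₀ + 5)))) := by positivity
    linarith
  have hA0 : 0 < A := by
    rw [hAdef]
    positivity
  set b0 : ℝ := (1 + 2 / ϱ) / 2 with hb0def
  have hϱ0 : 0 < ϱ := by linarith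
  have hb01 : 1 < b0 := by
    have : 1 < 2 / ϱ := by rw [one_lt_div hϱ0]; exact hϱ2
    rw [hb0def]
    linarith
  have hb02 : ϱ * b0 < 2 := by
    have : ϱ * b0 = (ϱ + 2) / 2 := by
      rw [hb0def]
      field_simp
    rw [this]
    linarith
  have hb03 : 1 < ϱ * b0 := by nlinarith
  obtain ⟨Mp, hMp0, hMp⟩ := polypow99 hb01
  set β : ℝ := Real.log (ϱ * b0) / Real.log 2 with hβ
  have hβ0 : 0 < β := div_pos (Real.log_pos hb03) hl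
  have hβ1 : β < 1 := by
    rw [hβ, div_lt_one hl]
    exact Real.log_lt_log (by linarith) hb02
  have h2β : (2 : ℝ) ^ β = ϱ * b0 := by
    rw [Real.rpow_def_of_pos (by norm_num), hβ, mul_div_cancel₀ _ hl.ne',
      Real.exp_log (by linarith)]
  refine ⟨β, 2 * (A * (4 * C₀ + 5) * Mp), hβ0, hβ1, by positivity, ?_⟩
  intro B q b hB hmono _ _ h1 h2 hbt HA HB K g hg1 hgK t r ht hr
  have hK1 : 1 ≤ K := hg1.trans hgK
  have hlB : 0 ≤ Real.log B := Real.log_nonneg hB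
  set Λ : ℝ := 1 + 2 * Real.log B with hΛdef
  have hΛ : 1 ≤ Λ := by rw [hΛdef]; linarith
  have hlog1 : 2 ^ Nat.log 2 K ≤ K := Nat.pow_log_le_self 2 (by omega)
  have hlog2 : K < 2 ^ (Nat.log 2 K + 1) := Nat.lt_pow_succ_log_self (by norm_num) K
  set n : ℕ := Nat.log 2 K + 1 with hn
  have hn0 : (0 : ℝ) ≤ n := Nat.cast_nonneg n
  have key := (main99 hs hs1 hC₀ hB hΛ hδ hδ1 hC₄ hc hc2 hc1 hR hR1 hR0 hϱdef hϱ2 hA1 hA2 hmono
    HA HB (fun X t' n k hk hn hX => hG B X t' n k hB hk hn hX) h1 h2 hbt n).1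
  refine key g hg1 (by omega) t r ht (le_trans ?_ hr)
  have hK0 : (0 : ℝ) < K := by exact_mod_cast hK1
  have h2n : ((2 : ℝ) ^ n) ≤ 2 * K := by
    rw [hn, pow_succ]
    have : ((2 : ℝ) ^ Nat.log 2 K) ≤ K := by exact_mod_cast hlog1
    linarith
  have e1 : (ϱ * b0) ^ n ≤ 2 * (K : ℝ) ^ β := by
    rw [← h2β, ← Real.rpow_natCast, ← Real.rpow_mul (by norm_num), mul_comm β,
      Real.rpow_mul (by norm_num), Real.rpow_natCast]
    refine (Real.rpow_le_rpow (by positivity) h2n hβ0.le).trans ?_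
    rw [Real.mul_rpow (by norm_num) hK0.le]
    apply mul_le_mul_of_nonneg_right _ (by positivity)
    calc (2 : ℝ) ^ β ≤ 2 ^ (1 : ℝ) := Real.rpow_le_rpow_of_exponent_le (by norm_num) hβ1.le
      _ = 2 := Real.rpow_one 2
  have e2 : t + (4 * C₀ + 5) * Λ * ((n : ℝ) + 2) ^ 2 ≤
      (4 * C₀ + 5) * ((n : ℝ) + 2) ^ 2 * (t + Λ) := by
    have h3 : (1 : ℝ) ≤ (4 * C₀ + 5) * ((n : ℝ) + 2) ^ 2 := by
      have h4 : (1 : ℝ) ≤ ((n : ℝ) + 2) ^ 2 := one_le_pow₀ (by linarith)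
      have h5 : (1 : ℝ) * 1 ≤ (4 * C₀ + 5) * ((n : ℝ) + 2) ^ 2 :=
        mul_le_mul (by linarith) h4 (by norm_num) (by linarith)
      linarith
    have h6 := le_mul_of_one_le_left ht h3
    linarith
  have e0 : 0 ≤ t + Λ := by linarith
  unfold XX99
  calc A * ϱ ^ n * (t + (4 * C₀ + 5) * Λ * ((n : ℝ) + 2) ^ 2)
      ≤ A * ϱ ^ n * ((4 * C₀ + 5) * ((n : ℝ) + 2) ^ 2 * (t + Λ)) := by gcongr
    _ ≤ A * ϱ ^ n * ((4 * C₀ + 5) * (Mp * b0 ^ n) * (t + Λ)) := by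
        have := hMp n
        gcongr
    _ = A * (4 * C₀ + 5) * Mp * (ϱ * b0) ^ n * (t + Λ) := by rw [mul_pow]; ring
    _ ≤ A * (4 * C₀ + 5) * Mp * (2 * (K : ℝ) ^ β) * (t + Λ) := by gcongr
    _ = 2 * (A * (4 * C₀ + 5) * Mp) * (K : ℝ) ^ β * (t + Λ) := by ring

end Pool.Agent.Helper18.PW
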