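import Pool.Agent.Helper18.PW.Q
import Pool.Agent.Helper18.PW.Rec

/-! Project PW: the mean of `-log` of the separation, for the abstract system, all `0 < s < 1`. -/

set_option autoImplicit false
open MeasureTheory Real Set
open scoped ENNReal

namespace Pool.Agent.Helper18.PW

open Pool.Agent.Helper18.FD (NN NN_pos NN_ge uu cl lm cl_of_mem lm_le_sum)
open Pool.Agent.Helper18.PV

variable {ι : Type} [DecidableEq ι] {B s : ℝ}

/-- the tail of the geometric series -/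
private theorem geo_aux {T : ℝ} (hT : 0 < T) :
    ∑' r : ℕ, ENNReal.ofReal (Real.exp (-((r : ℝ) / T))) ≤ ENNReal.ofReal (1 + T) := by
  have h1 : Real.exp (-(1 / T)) < 1 := by
    rw [Real.exp_lt_one_iff]
    have : 0 < 1 / T := by positivity
    linarith
  have h0 : 0 ≤ Real.exp (-(1 / T)) := (Real.exp_pos _).le
  have h2 : ∀ r : ℕ, Real.exp (-((r : ℝ) / T)) = Real.exp (-(1 / T)) ^ r := by
    intro r
    rw [← Real.exp_nat_mul]
    congr 1
    ring
  have h3 : Summable fun r : ℕ => Real.exp (-(1 / T)) ^ r := summable_geometric_of_lt_one h0 h1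
  have h4 : ∑' r : ℕ, ENNReal.ofReal (Real.exp (-((r : ℝ) / T))) =
      ENNReal.ofReal (∑' r : ℕ, Real.exp (-(1 / T)) ^ r) := by
    rw [ENNReal.ofReal_tsum_of_nonneg (fun r => pow_nonneg h0 r) h3]
    exact tsum_congr fun r => by rw [h2]
  rw [h4, tsum_geometric_of_lt_one h0 h1]
  apply ENNReal.ofReal_le_ofReal
  have h5 : 1 / T + 1 ≤ Real.exp (1 / T) := Real.add_one_le_exp _
  have h6 : Real.exp (-(1 / T)) ≤ T / (1 + T) := by
    rw [Real.exp_neg]
    rw [inv_le_comm₀ (Real.exp_pos _) (by positivity)]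
    refine le_trans (le_of_eq ?_) h5
    field_simp
  have h7 : 1 / (1 + T) ≤ 1 - Real.exp (-(1 / T)) := by
    have : 1 / (1 + T) = 1 - T / (1 + T) := by
      field_simp
      ring
    rw [this]
    linarith
  rw [inv_le_comm₀ (by linarith) (by positivity)]
  rw [← one_div]
  exact h7

/-- the probability of a small separation -/
private theorem sepw_small {K : Sy ι} (hK : K.Ok B s) {k n : ℕ} (hk : k ≤ n) {ρ b : ℝ} (hρ : ρ ≤ 1)
    (hb : ∀ g : ℕ, 1 ≤ g → g ≤ n → qq K g ρ ≤ b) :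
    mu ι {p | sepw K k n p < ρ} ≤ ENNReal.ofReal (n * b) := by
  have hsub : {p | sepw K k n p < ρ} ⊆
      ⋃ j ∈ (Finset.range (n + 1)).erase k, {p | dist (wd K p.1 p.2 (j + 1)) (wd K p.1 p.2 (k + 1)) < ρ} := by
    intro p hp
    have hp1 : sepw K k n p < ρ := hp
    unfold sepw at hp1
    obtain ⟨j, hj, hj1⟩ := (Finset.inf'_lt_iff (s := Finset.range (n + 1)) ⟨0, by simp⟩
      (f := fun j => if j = k then (1 : ℝ) else dist (wd K p.1 p.2 (j + 1)) (wd K p.1 p.2 (k + 1)))).1 hp1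
    simp only [mem_iUnion]
    by_cases hjk : j = k
    · rw [if_pos hjk] at hj1
      linarith
    · rw [if_neg hjk] at hj1
      exact ⟨j, Finset.mem_erase.2 ⟨hjk, hj⟩, hj1⟩
  have hone : ∀ j ∈ (Finset.range (n + 1)).erase k,
      mu ι {p | dist (wd K p.1 p.2 (j + 1)) (wd K p.1 p.2 (k + 1)) < ρ} ≤ ENNReal.ofReal b := by
    intro j hj
    obtain ⟨hjk, hjn⟩ := Finset.mem_erase.1 hj
    have hjn' : j ≤ n := by
      have := Finset.mem_range.1 hjn
      omega
    exact stat3 hK (G := n) (by omega) (by omega) (by omega) hb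
  have hcard : ((Finset.range (n + 1)).erase k).card = n := by
    rw [Finset.card_erase_of_mem (Finset.mem_range.2 (by omega)), Finset.card_range]
    rfl
  calc mu ι {p | sepw K k n p < ρ}
      ≤ mu ι (⋃ j ∈ (Finset.range (n + 1)).erase k, {p | dist (wd K p.1 p.2 (j + 1)) (wd K p.1 p.2 (k + 1)) < ρ}) :=
        measure_mono hsub
    _ ≤ ∑ j ∈ (Finset.range (n + 1)).erase k, mu ι {p | dist (wd K p.1 p.2 (j + 1)) (wd K p.1 p.2 (k + 1)) < ρ} :=
        measure_biUnion_finset_le _ _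
    _ ≤ ∑ _j ∈ (Finset.range (n + 1)).erase k, ENNReal.ofReal b := Finset.sum_le_sum hone
    _ = ENNReal.ofReal (n * b) := by
        rw [Finset.sum_const, hcard, nsmul_eq_mul, ENNReal.ofReal_mul (Nat.cast_nonneg n),
          ENNReal.ofReal_natCast]

/-- summation over the levels of the separation -/
private theorem sum_aux (m : ℕ → ℝ≥0∞) (hm1 : ∀ r, m r ≤ 1) {T L : ℝ} (hT : 0 < T) (hL : 0 ≤ L)
    {n : ℕ} (hn : 1 ≤ n)
    (hm : ∀ r : ℕ, T * L ≤ r → m r ≤ ENNReal.ofReal (n * Real.exp (-((r : ℝ) / T - L)))) :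
    ∑' r, m r ≤ ENNReal.ofReal (T * (Real.log n + L + 1) + 2) := by
  have hn1 : (1 : ℝ) ≤ n := by exact_mod_cast hn
  have hlog : 0 ≤ Real.log n := Real.log_nonneg hn1
  set N : ℕ := ⌈T * (Real.log n + L)⌉₊ with hN
  have hNle : T * (Real.log n + L) ≤ N := Nat.le_ceil _
  have hNlt : (N : ℝ) < T * (Real.log n + L) + 1 := Nat.ceil_lt_add_one (by positivity)
  have h1 : ∑' r, m r = ∑ r ∈ Finset.range N, m r + ∑' r, m (r + N) := by
    have := (ENNReal.summable (f := fun r => m (r + N))).sum_add_tsum_nat_add' (f := m) (k := N)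
    exact this.symm
  have h2 : ∑ r ∈ Finset.range N, m r ≤ ENNReal.ofReal (T * (Real.log n + L) + 1) := by
    calc ∑ r ∈ Finset.range N, m r ≤ ∑ _r ∈ Finset.range N, (1 : ℝ≥0∞) :=
          Finset.sum_le_sum fun r _ => hm1 r
      _ = ENNReal.ofReal N := by
          rw [Finset.sum_const, Finset.card_range, nsmul_eq_mul, mul_one, ENNReal.ofReal_natCast]
      _ ≤ _ := ENNReal.ofReal_le_ofReal hNlt.le
  have h3 : ∑' r, m (r + N) ≤ ∑' r : ℕ, ENNReal.ofReal (Real.exp (-((r : ℝ) / T))) := by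
    refine ENNReal.tsum_le_tsum fun r => ?_
    have hr : T * L ≤ ((r + N : ℕ) : ℝ) := by
      push_cast
      have : 0 ≤ T * Real.log n := by positivity
      have hr0 : (0 : ℝ) ≤ r := Nat.cast_nonneg r
      nlinarith
    refine (hm _ hr).trans (ENNReal.ofReal_le_ofReal ?_)
    have h4 : Real.log n + L ≤ (N : ℝ) / T := by
      rw [le_div_iff₀ hT]
      linarith
    have h5 : (n : ℝ) = Real.exp (Real.log n) := (Real.exp_log (by linarith)).symm
    calc (n : ℝ) * Real.exp (-(((r + N : ℕ) : ℝ) / T - L))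
        = Real.exp (Real.log n) * Real.exp (-(((r + N : ℕ) : ℝ) / T - L)) := by rw [← h5]
      _ = Real.exp (Real.log n + -(((r + N : ℕ) : ℝ) / T - L)) := (Real.exp_add _ _).symm
      _ ≤ Real.exp (-((r : ℝ) / T)) := by
          apply Real.exp_le_exp.2
          push_cast
          rw [add_div]
          linarith
  rw [h1]
  calc ∑ r ∈ Finset.range N, m r + ∑' r, m (r + N)
      ≤ ENNReal.ofReal (T * (Real.log n + L) + 1) + ENNReal.ofReal (1 + T) :=
        add_le_add h2 (h3.trans (geo_aux hT))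
    _ = ENNReal.ofReal (T * (Real.log n + L) + 1 + (1 + T)) := by
        rw [← ENNReal.ofReal_add (by positivity) (by positivity)]
    _ = _ := by congr 1; ring

/-- the mean of `-log` of the separation grows with a power less than one -/
theorem sep_int (ι : Type) [DecidableEq ι] {s : ℝ} (hs : 0 < s) (hs1 : s < 1) :
    ∃ β C : ℝ, 0 < β ∧ β < 1 ∧ 0 < C ∧ ∀ (K : Sz ι) (B : ℝ), K.Ok B s → ∀ k n : ℕ, k ≤ n → 1 ≤ n →
      ∫⁻ p, lm (sepw K.toSy k n p) ∂(mu ι) ≤ ENNReal.ofReal (C * (n : ℝ) ^ β * (1 + 2 * Real.log B)) := by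
  obtain ⟨β, C, hβ, hβ1, hC, hrec⟩ := rec2 (C₀ := 2 ^ 60) hs hs1 (by norm_num)
  set δ : ℝ := (1 - β) / 2 with hδ
  have hδ0 : 0 < δ := by rw [hδ]; linarith
  refine ⟨β + δ, C * (1 / δ + 2) + 2, by linarith, by rw [hδ]; linarith, by positivity, ?_⟩
  intro K B hK k n hk hn
  have hn1 : (1 : ℝ) ≤ n := by exact_mod_cast hn
  obtain ⟨L, hLd⟩ : ∃ L : ℝ, L = 1 + 2 * Real.log B := ⟨_, rfl⟩
  rw [← hLd]
  have hL : 1 ≤ L := by
    have := Real.log_nonneg hK.sy.hB
    linarith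
  have hT : 0 < C * (n : ℝ) ^ β := by positivity
  have hmeas : ∀ r : ℕ, MeasurableSet {p | sepw K.toSy k n p < Real.exp (-(r : ℝ))} := fun r =>
    measurableSet_lt (meas_sepw hK.sy k n) measurable_const
  have hstep : ∫⁻ p, lm (sepw K.toSy k n p) ∂(mu ι) ≤ ∑' r : ℕ, mu ι {p | sepw K.toSy k n p < Real.exp (-(r : ℝ))} := by
    calc ∫⁻ p, lm (sepw K.toSy k n p) ∂(mu ι)
        ≤ ∫⁻ p, ∑' r : ℕ, (if sepw K.toSy k n p < Real.exp (-r) then (1 : ℝ≥0∞) else 0) ∂(mu ι) :=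
          lintegral_mono fun p => lm_le_sum _
      _ = ∑' r : ℕ, ∫⁻ p, (if sepw K.toSy k n p < Real.exp (-r) then (1 : ℝ≥0∞) else 0) ∂(mu ι) := by
          refine lintegral_tsum fun r => ?_
          exact (Measurable.ite (hmeas r) measurable_const measurable_const).aemeasurable
      _ = ∑' r : ℕ, mu ι {p | sepw K.toSy k n p < Real.exp (-(r : ℝ))} := by
          refine tsum_congr fun r => ?_
          have h1 := lintegral_indicator_one (μ := mu ι) (hmeas r)
          rw [← h1]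
          rfl
  refine hstep.trans ?_
  have hq : ∀ g : ℕ, 1 ≤ g → g ≤ n → ∀ t r : ℝ, 0 ≤ t → C * (n : ℝ) ^ β * (t + L) ≤ r →
      qq K.toSy g (Real.exp (-r)) ≤ Real.exp (-t) := by
    intro g hg hgn t r ht hr
    rw [hLd] at hr
    exact hrec B (qq K.toSy) (bb K) hK.sy.hB qq_mono (fun i i' => bb_mono i i') qq_nonneg
      (fun ρ hρ => qq_one hK.sy hρ) (fun ρ hρ => qq_two hK.sy hρ) (hyp_T hK) (hyp_A hK) (hyp_B hK)
      n g hg hgn t r ht hr
  have hsum := sum_aux (fun r : ℕ => mu ι {p | sepw K.toSy k n p < Real.exp (-(r : ℝ))})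
    (fun r => prob_le_one) (T := C * (n : ℝ) ^ β) (L := L) hT (by linarith) hn ?_
  · refine hsum.trans (ENNReal.ofReal_le_ofReal ?_)
    have h1 : Real.log n ≤ (n : ℝ) ^ δ / δ := Real.log_le_rpow_div (by linarith) hδ0
    have h2 : (n : ℝ) ^ (β + δ) = (n : ℝ) ^ β * (n : ℝ) ^ δ := Real.rpow_add (by linarith) _ _
    have h3 : 1 ≤ (n : ℝ) ^ δ := Real.one_le_rpow hn1 hδ0.le
    have h4 : 1 ≤ (n : ℝ) ^ β := Real.one_le_rpow hn1 hβ.le
    have hδ1 : 0 < 1 / δ := by positivity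
    have h5 : Real.log n ≤ 1 / δ * (n : ℝ) ^ δ * L := by
      calc Real.log n ≤ (n : ℝ) ^ δ / δ := h1
        _ = 1 / δ * (n : ℝ) ^ δ * 1 := by ring
        _ ≤ 1 / δ * (n : ℝ) ^ δ * L := mul_le_mul_of_nonneg_left hL (by positivity)
    have h6 : L ≤ (n : ℝ) ^ δ * L := by nlinarith
    have h7 : (1 : ℝ) ≤ (n : ℝ) ^ δ * L := by nlinarith
    have h8 : Real.log n + L + 1 ≤ (1 / δ + 2) * ((n : ℝ) ^ δ * L) := by
      have : (1 / δ + 2) * ((n : ℝ) ^ δ * L) =
          1 / δ * (n : ℝ) ^ δ * L + (n : ℝ) ^ δ * L + (n : ℝ) ^ δ * L := by ring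
      rw [this]
      linarith
    have h9 : (2 : ℝ) ≤ 2 * ((n : ℝ) ^ β * ((n : ℝ) ^ δ * L)) := by nlinarith
    have h10 : C * (n : ℝ) ^ β * (Real.log n + L + 1) ≤
        C * (n : ℝ) ^ β * ((1 / δ + 2) * ((n : ℝ) ^ δ * L)) :=
      mul_le_mul_of_nonneg_left h8 hT.le
    calc C * (n : ℝ) ^ β * (Real.log n + L + 1) + 2
        ≤ C * (n : ℝ) ^ β * ((1 / δ + 2) * ((n : ℝ) ^ δ * L)) +
          2 * ((n : ℝ) ^ β * ((n : ℝ) ^ δ * L)) := add_le_add h10 h9
      _ = (C * (1 / δ + 2) + 2) * (n : ℝ) ^ (β + δ) * L := by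
          rw [h2]
          ring
  · intro r hr
    refine sepw_small hK.sy hk ?_ ?_
    · rw [Real.exp_le_one_iff]
      have : (0 : ℝ) ≤ r := Nat.cast_nonneg r
      linarith
    · intro g hg hgn
      refine hq g hg hgn ((r : ℝ) / (C * (n : ℝ) ^ β) - L) r ?_ ?_
      · have : L ≤ (r : ℝ) / (C * (n : ℝ) ^ β) := by
          rw [le_div_iff₀ hT]
          linarith
        linarith
      · apply le_of_eq
        field_simp
        ring

end Pool.Agent.Helper18.PW
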